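import Mathlib

/-!
TH-P phase 2: the family D5 of parameter arrays (pairs of dimension 5) as a list.
-/

namespace Pool.Agent.Helper82.IP

/-- The family D5 of parameter arrays of dimension 5, the main family excluded.
`a, b, c, d = t 1, t 2, t 3, t 4`. -/
structure D5L {F : Type*} [Field F] (t s f : ℕ → F) : Prop where
  t0 : t 0 = 1
  s0 : s 0 = 1
  s1 : s 1 = t 1
  s2 : s 2 = t 2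
  s3 : s 3 = t 3
  s4 : s 4 = t 4
  n1 : t 1 ≠ 0
  n2 : t 2 ≠ 0
  n3 : t 3 ≠ 0
  n4 : t 4 ≠ 0
  d01 : t 1 ≠ 1
  d02 : t 2 ≠ 1
  d03 : t 3 ≠ 1
  d04 : t 4 ≠ 1
  d12 : t 1 ≠ t 2
  d13 : t 1 ≠ t 3
  d14 : t 1 ≠ t 4
  d23 : t 2 ≠ t 3
  d24 : t 2 ≠ t 4
  d34 : t 3 ≠ t 4
  q : (1 - t 2) * (t 4 - t 1 ^ 2 * t 3) + (t 1 - t 3) * (t 4 - t 1 * t 2) = 0
  r : (t 4 - t 2) * (t 4 ^ 2 - t 1 * t 3 ^ 2) + t 4 * (t 3 - t 1) * (t 4 - t 2 * t 3) = 0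
  cd : t 3 + t 4 ≠ 0
  x0 : t 4 + (t 1 + 1) * t 3 ≠ 0
  y0 : t 1 * t 3 + t 1 * t 4 + t 4 ≠ 0
  a1 : t 1 + 1 ≠ 0
  ac : t 1 * t 3 + t 4 ≠ 0
  bd : t 2 ^ 2 ≠ t 4
  f1 : f 1 * (t 4 + (t 1 + 1) * t 3) = (t 3 + t 4) * (t 4 - 1)
  f2 : t 4 * f 2 = -(t 1 * t 4 * (1 + t 1 + t 2 - t 3 - t 4) + t 1 * t 2 * t 3
    - t 2 * t 3 * t 4 * (1 + t 1))
  f3 : t 4 * f 3 = t 3 * t 4 + t 1 * t 2 * t 4 + t 1 * t 2 * t 3 + t 1 * t 3 * t 4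
    - t 2 * t 3 * t 4 - t 3 ^ 2 * t 4 - t 3 * t 4 ^ 2 - t 1 * t 2 * t 3 * t 4
  f4 : f 4 * (t 1 * t 3 + t 1 * t 4 + t 4) = -(t 4 ^ 2 * (t 1 + 1) * (t 4 - 1))
  f2n : f 2 ≠ 0
  f3n : f 3 ≠ 0

end Pool.Agent.Helper82.IP
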