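import Pool.Agent.Helper54.IP.GSwap
import Pool.Agent.Helper43.IPL.Flat2
import Pool.Agent.Helper14.IP.Newton

/-!
TH-P, N branch: the variables `X = (1 - lam'_0)/(t_1 - 1)`, `Y = t_1 mu'_0/(t_1 - 1)` (symmetric under
the swap) and the corner formulas in them.
-/

namespace Pool.Agent.Helper82.IP

open Pool.Agent.Helper54.IP

variable {F : Type*} [Field F] {m : ℕ} (g : GForm F m)

theorem t_sub_one {k : ℕ} (h0 : 0 < k) (hk : k ≤ m) : g.t k - 1 ≠ 0 := by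
  rw [← g.t0]
  exact sub_ne_zero.2 (g.t_inj 0 k h0 hk).symm

theorem s_sub_one {k : ℕ} (h0 : 0 < k) (hk : k ≤ m) : g.s k - 1 ≠ 0 := t_sub_one g.swap h0 hk

theorem xy_exists (hm : 1 ≤ m) : ∃ X Y : F, (1 - g.lam' 0) = (g.t 1 - 1) * X ∧
    g.t 1 * g.mu' 0 = (g.t 1 - 1) * Y ∧ (1 - g.lam 0) = (g.s 1 - 1) * X ∧
    g.s 1 * g.mu 0 = (g.s 1 - 1) * Y := by
  have ht := t_sub_one g (k := 1) (by omega) hm
  have hs := s_sub_one g (k := 1) (by omega) hm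
  have ht0 := g.t_ne 1 hm
  have hs0 := g.s_ne 1 hm
  have h1 := g.row1G (k := 1) hm hm
  have h2 := g.row1H (k := 1) hm hm
  have h3 := g.swap.row1G (k := 1) hm hm
  have h4 := g.swap.row1H (k := 1) hm hm
  simp only [GForm.swap_G, GForm.swap_lam', GForm.swap_s, GForm.swap_H, GForm.swap_mu'] at h3 h4
  refine ⟨(1 - g.lam' 0) / (g.t 1 - 1), g.t 1 * g.mu' 0 / (g.t 1 - 1), ?_, ?_, ?_, ?_⟩
  · field_simp
  · field_simp
  · field_simp
    linear_combination h1 - h3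
  · field_simp
    linear_combination g.s 1 * h4 - g.t 1 * h2

variable {g} {X Y : F}

theorem G1k (hm : 1 ≤ m) (hX : (1 - g.lam' 0) = (g.t 1 - 1) * X) {k : ℕ} (hk : k ≤ m) :
    g.G 1 k = 1 + (g.t 1 - 1) * X * (g.s k - 1) := by
  have h1 := g.row1G (k := k) hm hk
  linear_combination h1 + (g.s k - 1) * hX

theorem H1k (hm : 1 ≤ m) (hY : g.t 1 * g.mu' 0 = (g.t 1 - 1) * Y) {k : ℕ} (hk : k ≤ m) :
    g.t 1 * (g.s k * g.H 1 k) = g.t 1 * g.s k - (g.t 1 - 1) * Y * (g.s k - 1) := by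
  have h1 := g.row1H (k := k) hm hk
  linear_combination g.t 1 * h1 - (g.s k - 1) * hY

/-- `e kap_1^(2) = a (a - 1) K2` -/
theorem kap2_eq (hm : 2 ≤ m) (hX : (1 - g.lam' 0) = (g.t 1 - 1) * X)
    (hY : g.t 1 * g.mu' 0 = (g.t 1 - 1) * Y) :
    g.s 2 * g.kap 1 2 = g.t 1 * (g.t 1 - 1) * ((g.s 2 - 1) * (g.s 2 * X + Y) - g.s 2) := by
  have h1 := G1k (by omega) hX (k := 2) hm
  have h2 := H1k (by omega) hY (k := 2) hm
  rw [GForm.kap]
  linear_combination g.t 1 * g.s 2 * h1 - g.t 1 * h2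

/-- `1 - lam_2 = A/(a K2)` -/
theorem lam2_eq (hm : 3 ≤ m) (hX : (1 - g.lam' 0) = (g.t 1 - 1) * X)
    (hY : g.t 1 * g.mu' 0 = (g.t 1 - 1) * Y) :
    (1 - g.lam 2) * (g.t 1 * ((g.s 2 - 1) * (g.s 2 * X + Y) - g.s 2)) =
      g.s 2 * X * (g.s 3 - 1) + g.t 1 * (g.s 2 - 1) * Y - (g.t 1 + 1) * g.s 2 := by
  have ht := t_sub_one g (k := 1) (by omega) (by omega)
  have h1 := G1k (by omega) hX (k := 2) (by omega)
  have h2 := H1k (by omega) hY (k := 2) (by omega)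
  have h3 := G1k (by omega) hX (k := 3) hm
  have h4 := g.G_succ (j := 1) (k := 2) (by omega) (by omega)
  have h5 := kap2_eq (by omega) hX hY
  rw [GForm.kap] at h4 h5
  apply mul_left_cancel₀ ht
  linear_combination (-(1 - g.lam 2)) * h5 - g.s 2 * h4 + g.s 2 * h3 - g.t 1 * h2

/-- `mu_2 K2 S = e M` -/
theorem mu2_eq (hm : 3 ≤ m) (hX : (1 - g.lam' 0) = (g.t 1 - 1) * X)
    (hY : g.t 1 * g.mu' 0 = (g.t 1 - 1) * Y) :
    g.mu 2 * ((g.s 2 - 1) * (g.s 2 * X + Y) - g.s 2) * g.s 3 =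
      g.s 2 * (g.s 3 * X * (g.s 2 - 1) + g.t 1 * (g.s 3 - 1) * Y - (g.t 1 + 1) * g.s 3) := by
  have ht := t_sub_one g (k := 1) (by omega) (by omega)
  have ht0 := g.t_ne 1 (by omega)
  have h1 := G1k (by omega) hX (k := 2) (by omega)
  have h2 := H1k (by omega) hY (k := 3) hm
  have h4 := g.H_succ (j := 1) (k := 2) (by omega) (by omega)
  have h5 := kap2_eq (by omega) hX hY
  rw [GForm.kap] at h4 h5
  apply mul_left_cancel₀ (mul_ne_zero ht ht0)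
  linear_combination (-g.mu 2 * g.s 3) * h5 + g.s 2 * g.s 3 * h4
    - g.s 2 * g.t 1 ^ 2 * h2 + g.t 1 * g.s 2 * g.s 3 * h1

end Pool.Agent.Helper82.IP
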