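import Pool.Agent.Helper82.IP.T1
import Pool.Agent.Helper27.IP.NKap3
import Pool.Agent.Helper36.IP.N1010Dead

/-!
TH-P, N branch: the assembly of `n_dead`, modulo the two leaves `kap_1^(2) = 0` and state (10)/(11).
-/

namespace Pool.Agent.Helper82.IP

open Pool.Agent.Helper54.IP

variable {F : Type*} [Field F] {m : ℕ}

/-- `hn2` is `hn1` of the swap. -/
theorem hn_swap (g : GForm F m) (hm : 1 ≤ m)
    (hn2 : (g.t 2 * g.s 1 - g.s 2) * ((1 - g.lam' 0) - g.t 1 * g.mu' 0 + g.t 1 - 1) =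
        (g.t 2 - 1) * (g.s 1 * g.s 2 * (1 - g.lam' 0) - g.t 1 * g.mu' 0)) :
    (g.swap.s 2 * g.swap.t 1 - g.swap.t 2) *
        ((1 - g.swap.lam' 0) - g.swap.t 1 * g.swap.mu' 0 + g.swap.t 1 - 1) =
      (g.swap.s 2 - 1) * (g.swap.t 1 * g.swap.t 2 * (1 - g.swap.lam' 0)
        - g.swap.t 1 * g.swap.mu' 0) := by
  obtain ⟨X, Y, hX, hY, hX', hY'⟩ := xy_exists g hm
  have ha1 := t_sub_one g (k := 1) (by omega) hm
  simp only [GForm.swap_s, GForm.swap_t, GForm.swap_lam', GForm.swap_mu']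
  have h : (g.t 2 * g.s 1 - g.s 2) * (X - Y + 1) = (g.t 2 - 1) * (g.s 1 * g.s 2 * X - Y) := by
    apply mul_left_cancel₀ ha1
    linear_combination hn2 + (-(g.t 2 * g.s 1 - g.s 2) + (g.t 2 - 1) * (g.s 1 * g.s 2)) * hX
      + ((g.t 2 * g.s 1 - g.s 2) - (g.t 2 - 1)) * hY
  rw [hY', hX']
  linear_combination (g.s 1 - 1) * h

theorem hn_swap' (g : GForm F m) (hm : 1 ≤ m)
    (hn1 : (g.s 2 * g.t 1 - g.t 2) * ((1 - g.lam' 0) - g.t 1 * g.mu' 0 + g.t 1 - 1) =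
        (g.s 2 - 1) * (g.t 1 * g.t 2 * (1 - g.lam' 0) - g.t 1 * g.mu' 0)) :
    (g.swap.t 2 * g.swap.s 1 - g.swap.s 2) *
        ((1 - g.swap.lam' 0) - g.swap.t 1 * g.swap.mu' 0 + g.swap.t 1 - 1) =
      (g.swap.t 2 - 1) * (g.swap.s 1 * g.swap.s 2 * (1 - g.swap.lam' 0)
        - g.swap.t 1 * g.swap.mu' 0) := by
  obtain ⟨X, Y, hX, hY, hX', hY'⟩ := xy_exists g hm
  have ha1 := t_sub_one g (k := 1) (by omega) hm
  simp only [GForm.swap_s, GForm.swap_t, GForm.swap_lam', GForm.swap_mu']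
  have h : (g.s 2 * g.t 1 - g.t 2) * (X - Y + 1) = (g.s 2 - 1) * (g.t 1 * g.t 2 * X - Y) := by
    apply mul_left_cancel₀ ha1
    linear_combination hn1 + (-(g.s 2 * g.t 1 - g.t 2) + (g.s 2 - 1) * (g.t 1 * g.t 2)) * hX
      + ((g.s 2 * g.t 1 - g.t 2) - (g.s 2 - 1)) * hY
  rw [hY', hX']
  linear_combination (g.s 1 - 1) * h

/-- the step `2 -> 3` of the strip: letter 0 or letter 1. -/
theorem n_step3 (g : GForm F m) (hm : 3 ≤ m) (hD : g.G 1 1 ≠ g.H 1 1)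
    (hk : g.kap 1 2 ≠ 0) (hk3 : g.kap 1 3 ≠ 0) :
    g.s 2 * g.t 2 = g.t 1 * g.s 3 ∨
      (g.s 2 * (g.t 1 ^ 2 * g.H 1 2 - g.G 1 (2 + 1)) * g.t 2 =
        g.s (2 + 1) * (g.t 1 ^ 2 * g.H 1 (2 + 1) - g.G 1 2) ∧
      (1 - g.lam' 1) * (g.s 2 * g.s (2 + 1) * g.t 1 ^ 2) = g.mu' 1 * g.t 2 ^ 2) := by
  rcases Pool.Agent.Helper43.IPL.local_flat2 g (by omega) 2 (by omega) with h | h | h | h | h
  · exact (d12_ne g (by omega) hD h).elim
  · refine (hk ?_).elim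
    rw [GForm.kap]
    linear_combination -h
  · refine (hk3 ?_).elim
    rw [GForm.kap]
    norm_num at h
    linear_combination (-g.t 1) * h
  · exact Or.inl h
  · exact Or.inr h

theorem n_dead_of
    (K2 : ∀ g : GForm F m, g.G 1 1 ≠ g.H 1 1 → g.t 2 ≠ g.s 2 →
      (g.s 2 * g.t 1 - g.t 2) * ((1 - g.lam' 0) - g.t 1 * g.mu' 0 + g.t 1 - 1) =
        (g.s 2 - 1) * (g.t 1 * g.t 2 * (1 - g.lam' 0) - g.t 1 * g.mu' 0) →
      (g.t 2 * g.s 1 - g.s 2) * ((1 - g.lam' 0) - g.t 1 * g.mu' 0 + g.t 1 - 1) =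
        (g.t 2 - 1) * (g.s 1 * g.s 2 * (1 - g.lam' 0) - g.t 1 * g.mu' 0) →
      g.kap 1 2 = 0 → False)
    (T2 : ∀ g : GForm F m, g.G 1 1 ≠ g.H 1 1 → g.t 2 ≠ g.s 2 →
      (g.s 2 * g.t 1 - g.t 2) * ((1 - g.lam' 0) - g.t 1 * g.mu' 0 + g.t 1 - 1) =
        (g.s 2 - 1) * (g.t 1 * g.t 2 * (1 - g.lam' 0) - g.t 1 * g.mu' 0) →
      (g.t 2 * g.s 1 - g.s 2) * ((1 - g.lam' 0) - g.t 1 * g.mu' 0 + g.t 1 - 1) =
        (g.t 2 - 1) * (g.s 1 * g.s 2 * (1 - g.lam' 0) - g.t 1 * g.mu' 0) →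
      g.kap 1 2 ≠ 0 → g.swap.kap 1 2 ≠ 0 → g.kap 1 3 ≠ 0 → g.swap.kap 1 3 ≠ 0 →
      g.s 3 * g.t 1 = g.s 2 * g.t 2 → g.t 3 * g.s 1 = g.t 1 * g.s 2 → False)
    (g : GForm F m) (hm : 6 ≤ m) (hD : g.G 1 1 ≠ g.H 1 1) (h2 : g.t 2 ≠ g.s 2)
    (hn1 : (g.s 2 * g.t 1 - g.t 2) * ((1 - g.lam' 0) - g.t 1 * g.mu' 0 + g.t 1 - 1) =
        (g.s 2 - 1) * (g.t 1 * g.t 2 * (1 - g.lam' 0) - g.t 1 * g.mu' 0))
    (hn2 : (g.t 2 * g.s 1 - g.s 2) * ((1 - g.lam' 0) - g.t 1 * g.mu' 0 + g.t 1 - 1) =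
        (g.t 2 - 1) * (g.s 1 * g.s 2 * (1 - g.lam' 0) - g.t 1 * g.mu' 0)) : False := by
  have hDs : g.swap.G 1 1 ≠ g.swap.H 1 1 := hD
  have h2s : g.swap.t 2 ≠ g.swap.s 2 := h2.symm
  have hn1s := hn_swap g (by omega) hn2
  have hn2s := hn_swap' g (by omega) hn1
  have hk : g.kap 1 2 ≠ 0 := K2 g hD h2 hn1 hn2
  have hk' : g.swap.kap 1 2 ≠ 0 := K2 g.swap hDs h2s hn1s hn2s
  have hk3 : g.kap 1 3 ≠ 0 := Pool.Agent.Helper27.IP.n_kap3_dead g (by omega) hD hn1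
  have hk3' : g.swap.kap 1 3 ≠ 0 :=
    Pool.Agent.Helper27.IP.n_kap3_dead g.swap (by omega) hDs hn1s
  rcases n_step3 g (by omega) hD hk hk3 with h | ⟨hf, hv⟩
  · rcases n_step3 g.swap (by omega) hDs hk' hk3' with h' | ⟨hf', hv'⟩
    · simp only [GForm.swap_s, GForm.swap_t] at h'
      exact Pool.Agent.Helper36.IP.n_1010_dead g (by omega) hD h2 hn1 hn2 hk hk' hk3 hk3'
        (by linear_combination -h) (by linear_combination -h')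
    · have h3' := ns_letter1 g.swap (by omega) hDs hn1s hv'
      simp only [GForm.swap_s, GForm.swap_t] at h3'
      exact T2 g hD h2 hn1 hn2 hk hk' hk3 hk3' (by linear_combination -h) h3'
  · have h3 := ns_letter1 g (by omega) hD hn1 hv
    rcases n_step3 g.swap (by omega) hDs hk' hk3' with h' | ⟨hf', hv'⟩
    · simp only [GForm.swap_s, GForm.swap_t] at h'
      exact T2 g.swap hDs h2s hn1s hn2s hk' hk hk3' hk3
        (by simp only [GForm.swap_s, GForm.swap_t]; linear_combination -h')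
        (by simp only [GForm.swap_s, GForm.swap_t]; linear_combination h3)
    · have h3' := ns_letter1 g.swap (by omega) hDs hn1s hv'
      simp only [GForm.swap_s, GForm.swap_t] at h3'
      exact n_1111 g (by omega) hD h2 hn1 hn2 hk hk' hk3 hf hv hf' h3'

end Pool.Agent.Helper82.IP
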