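import Pool.Agent.Helper82.IP.T1
/-!
TH-P, N branch, state (10)/(11), branch B: `t_2 = -t_1`, `s_1 = -1` is impossible.
-/

namespace Pool.Agent.Helper82.IP

open Pool.Agent.Helper54.IP

section scalar

variable {F : Type*} [Field F]

theorem t2b_alg {a e s g : F} (ha : a ≠ 0) (ha1 : a + 1 ≠ 0) (ha2 : a - 1 ≠ 0) (h2 : (2 : F) ≠ 0)
    (hg : g = (a + 1) * s + 1 - a)
    (h1 : (e + 1) * g = (e + 1) * (1 + a ^ 2 * e) - a * (e - 1) ^ 2)
    (hh2 : (a - e) * g = (a - e) * (1 + a ^ 2 * e) - (a + 1) ^ 2 * (1 - a) * e)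
    (h3 : 1 + a ^ 5 * e = (a + 1) * (a ^ 2 + 1) * g)
    (h4 : (s - 1) * (s - a ^ 4 * e) + (a ^ 2 + a + 1) * s * g = 0) : False := by
  subst hg
  have hE1 : (e + 1) * ((a + 1) * s + 1 - a) - (e + 1) * (1 + a ^ 2 * e) + a * (e - 1) ^ 2 = 0 := by
    linear_combination h1
  have hE2 : (a - e) * ((a + 1) * s + 1 - a) - (a - e) * (1 + a ^ 2 * e) +
      (a + 1) ^ 2 * (1 - a) * e = 0 := by
    linear_combination hh2
  have hE3 : 1 + a ^ 5 * e - (a + 1) * (a ^ 2 + 1) * ((a + 1) * s + 1 - a) = 0 := by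
    linear_combination h3
  have hE4 : (s - 1) * (s - a ^ 4 * e) + (a ^ 2 + a + 1) * s * ((a + 1) * s + 1 - a) = 0 := h4
  have hF : a ^ 3 * (a + 1) ≠ 0 := mul_ne_zero (pow_ne_zero 3 ha) ha1
  by_cases h30 : (3 : F) = 0
  · have hcur : a ^ 3 * e ^ 2 + a ^ 3 * e + 2 * a ^ 2 * e ^ 2 - a ^ 2 * e + a ^ 2 - a * e ^ 3 +
        a * e ^ 2 - 2 * a * e - e ^ 2 - e = 0 := by
      linear_combination (a - e) * hE1 - (e + 1) * hE2
    have hq : (e - a) * (e - a ^ 2) = 0 := by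
      apply mul_left_cancel₀ ha
      linear_combination (a + 1) * (a ^ 2 + 1) * hE1 + (e + 1) * hE3 +
        a * e * (a ^ 3 + a ^ 2 + a + 1) * h30
    rcases mul_eq_zero.1 hq with h | h
    · have he : e = a := sub_eq_zero.1 h
      subst he
      have : e * ((e - 1) * (e + 1) ^ 3) = 0 := by linear_combination hcur
      exact mul_ne_zero ha (mul_ne_zero ha2 (pow_ne_zero 3 ha1)) this
    · have he : e = a ^ 2 := sub_eq_zero.1 h
      subst he
      have : 2 * (a ^ 3 * ((a + 1) ^ 2 * (a - 1))) = 0 := by linear_combination hcur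
      exact mul_ne_zero h2 (mul_ne_zero (pow_ne_zero 3 ha) (mul_ne_zero (pow_ne_zero 2 ha1) ha2))
        this
  by_cases h7 : (7 : F) = 0
  · apply hF
    linear_combination
      (- 3*a^4*e - a^4*s + 3*a^4 + 2*a^3*e^2 - 3*a^3*e*s - a^3*s^2 + a^3*s - 3*a^3 - a^2*e^2*s +
      3*a^2*e^2 + 2*a^2*e*s + a^2*e + a^2*s^2 - 3*a^2*s - 2*a^2 - 2*a*e^2*s + 3*a*e*s + 2*a*e -
      a*s^2 - 2*a*s - a + e*s^2 - 2*e*s + 3*e + s^2 + 2) * hE1 + (2*a^4 - 2*a^3*e*s + a^3*e -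
      a^3*s - 3*a^3 - a^2*e*s - 2*a^2*e + 2*a^2*s^2 - 2*a^2*s + a^2 - a*e^2*s - 3*a*e^2 - a*e*s +
      a*s^2 - 3*a*s - a + 2*e^2*s + e*s^2 - 2*e*s + 3*s^2 + 3*s) * hE2 + (2*a^2*s + 2*a^2 -
      3*a*e^2 + a*e*s + a*e - a*s^2 - 3*a + 2*e^3 + 2*e^2*s + e^2 - e*s^2 - 3*e*s + e - s^2 - s +
      2) * hE3 + (2*a^3 - a^2*e - a^2*s + 2*a^2 + 3*a*e^2 + a*e - 2*a*s - a + e^3 - 3*e^2 + 3*e -
      s + 3) * hE4 + (- a^6*e^2*s - 2*a^5*e^2 + a^5*e*s^2 - a^5*e*s + a^4*e^3 - a^4*e^2*s -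
      a^4*e^2 + a^4*e*s^2 + a^4*e*s - 2*a^4*e + a^3*e^3 + a^3*e^2 + a^3*e*s - a^3*e + a^3*s -
      a^2*e^3*s + a^2*e^3 + 2*a^2*e^2 - 2*a^2*e*s^2 + a^2*e*s + a^2*s - a*e^2*s + a*e^2 -
      2*a*e*s^2 - a*e*s + a*e - a*s^2 + e^2*s^2 - e*s^2 - e*s - s^2) * h7
  · have h504 : (504 : F) * (a ^ 3 * (a + 1)) = 0 := by
      linear_combination
        (1924*a^5*s - 1924*a^5 - 962*a^4*e*s - 2476*a^4*e + 5424*a^4*s + 348*a^4 + 120*a^3*e^2 -
        1470*a^3*e*s - 554*a^3*e + 997*a^3*s^2 + 3896*a^3*s - 79*a^3 - 60*a^2*e^2*s + 180*a^2*e^2 -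
        1874*a^2*e*s + 192*a^2*e + 1516*a^2*s^2 + 5564*a^2*s - 460*a^2 - 120*a*e^2*s - 2286*a*e*s +
        540*a*e + 1136*a*s^2 + 1688*a*s - 504*a + 60*e*s^2 - 120*e*s + 180*e + 1516*s^2 - 398*s -
        168) * hE1 + (- 962*a^4*e*s - 1558*a^4*e + 1924*a^4 + 578*a^3*e*s + 664*a^3*e + 962*a^3*s^2
        - 5240*a^3*s - 336*a^3 - 498*a^2*e*s + 720*a^2*e + 1346*a^2*s^2 - 3784*a^2*s - 672*a^2 -
        60*a*e^2*s - 180*a*e^2 - 532*a*e*s + 708*a*e + 1026*a*s^2 - 4018*a*s - 504*a + 120*e^2*s +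
        60*e*s^2 + 1926*e*s + 1406*s^2 - 2384*s) * hE2 + (- 5040*a^2*e + 1924*a^2*s + 1924*a^2 -
        918*a*e^2 + 2670*a*e*s - 2296*a*e + 898*a*s^2 - 2094*a*s - 336*a + 120*e^3 - 1814*e^2*s +
        2106*e^2 - 100*e*s^2 + 1434*e*s - 2372*e + 1118*s^2 - 1472*s - 168) * hE3 + (- 62*a^2*e -
        64*a^2*s - 354*a^2 - 728*a*e^2 - 135*a*e*s + 437*a*e - 263*a*s - 1435*a + 60*e^3 + 86*e^2 -
        135*e*s - 919*e - 199*s - 537) * hE4
    have : (504 : F) = 2 ^ 3 * 3 ^ 2 * 7 := by norm_num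
    rw [this] at h504
    exact mul_ne_zero (mul_ne_zero (mul_ne_zero (pow_ne_zero 3 h2) (pow_ne_zero 2 h30)) h7) hF h504

/-- the exceptional closed column 4 on the branch B -/
theorem t2b_special {a e s X Y : F} (ha : a ≠ 0) (ha1 : a + 1 ≠ 0) (ha2 : a - 1 ≠ 0)
    (h2 : (2 : F) ≠ 0) (hY : Y = -(a ^ 2 * e * X))
    (hN1 : (e * a - -a) * (X - Y + 1) = (e - 1) * (a * -a * X - Y))
    (hN2 : (-a * -1 - e) * (X - Y + 1) = (-a - 1) * (-1 * e * X - Y))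
    (k1 : (s - 1) * (X * s + a ^ 2 * Y) = (a ^ 2 + a + 1) * s)
    (k2 : (-a - 1) * (1 + (a - 1) * X * (s - 1)) = (-a - a) * (a ^ 3 - a ^ 2 * (a - 1) * Y))
    (k3 : a * ((-a - 1) * (1 + (a - 1) * X * (s - 1))) = (-a - a) * (1 - (a - 1) * X)) :
    False := by
  subst hY
  have hg : X * ((a + 1) * s + 1 - a) = -1 := by
    apply mul_left_cancel₀ (mul_ne_zero ha ha2)
    linear_combination -k3
  have hX0 : X ≠ 0 := by
    rintro rfl
    have : (-1 : F) = 0 := by rw [← hg, zero_mul]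
    exact one_ne_zero (by linear_combination -this)
  have hl : X * (1 + a ^ 5 * e) = -((a + 1) * (a ^ 2 + 1)) := by
    apply mul_left_cancel₀ (mul_ne_zero h2 (mul_ne_zero ha ha2))
    linear_combination a * k2 - k3
  refine t2b_alg (e := e) (s := s) ha ha1 ha2 h2 rfl ?_ ?_ ?_ ?_
  · apply mul_left_cancel₀ hX0
    apply mul_left_cancel₀ ha
    linear_combination a * (e + 1) * hg - hN1
  · apply mul_left_cancel₀ hX0
    linear_combination (a - e) * hg - hN2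
  · apply mul_left_cancel₀ hX0
    linear_combination hl - (a + 1) * (a ^ 2 + 1) * hg
  · apply mul_left_cancel₀ hX0
    linear_combination k1 + (a ^ 2 + a + 1) * s * hg

end scalar

variable {F : Type*} [Field F] {m : ℕ} (g : GForm F m)

/-- state (10)/(11), branch B: `t_2 = -t_1`, `s_1 = -1`. -/
theorem n_1011_B (hm : 5 ≤ m) (hD : g.G 1 1 ≠ g.H 1 1)
    (hn1 : (g.s 2 * g.t 1 - g.t 2) * ((1 - g.lam' 0) - g.t 1 * g.mu' 0 + g.t 1 - 1) =
        (g.s 2 - 1) * (g.t 1 * g.t 2 * (1 - g.lam' 0) - g.t 1 * g.mu' 0))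
    (hn2 : (g.t 2 * g.s 1 - g.s 2) * ((1 - g.lam' 0) - g.t 1 * g.mu' 0 + g.t 1 - 1) =
        (g.t 2 - 1) * (g.s 1 * g.s 2 * (1 - g.lam' 0) - g.t 1 * g.mu' 0))
    (hk : g.kap 1 2 ≠ 0) (hk' : g.swap.kap 1 2 ≠ 0) (hk3 : g.kap 1 3 ≠ 0)
    (hk3' : g.swap.kap 1 3 ≠ 0)
    (h3 : g.s 3 * g.t 1 = g.s 2 * g.t 2) (h3' : g.t 3 * g.s 1 = g.t 1 * g.s 2)
    (hc : g.t 2 = -g.t 1) (hb : g.s 1 = -1) : False := by
  obtain ⟨X, Y, hX, hY, hX', hY'⟩ := xy_exists g (by omega)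
  have ha := g.t_ne 1 (by omega)
  have ha1 := t_sub_one g (k := 1) (by omega) (by omega)
  have he1 := s_sub_one g (k := 2) (by omega) (by omega)
  have ha2 : g.t 1 + 1 ≠ 0 := by
    have := t_sub_one g (k := 2) (by omega) (by omega)
    rw [hc] at this
    intro h
    apply this
    linear_combination -h
  have h2 : (2 : F) ≠ 0 := by
    intro h
    apply g.t_inj 1 2 (by omega) (by omega)
    rw [hc]
    linear_combination g.t 1 * h
  have hN1 : (g.s 2 * g.t 1 - g.t 2) * (X - Y + 1) = (g.s 2 - 1) * (g.t 1 * g.t 2 * X - Y) := by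
    apply mul_left_cancel₀ ha1
    linear_combination hn1 + (-(g.s 2 * g.t 1 - g.t 2) + (g.s 2 - 1) * (g.t 1 * g.t 2)) * hX
      + ((g.s 2 * g.t 1 - g.t 2) - (g.s 2 - 1)) * hY
  have hN2 : (g.t 2 * g.s 1 - g.s 2) * (X - Y + 1) = (g.t 2 - 1) * (g.s 1 * g.s 2 * X - Y) := by
    apply mul_left_cancel₀ ha1
    linear_combination hn2 + (-(g.t 2 * g.s 1 - g.s 2) + (g.t 2 - 1) * (g.s 1 * g.s 2)) * hX
      + ((g.t 2 * g.s 1 - g.s 2) - (g.t 2 - 1)) * hY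
  have hs3 : g.s 3 = -g.s 2 := by
    apply mul_right_cancel₀ ha
    rw [h3, hc]
    ring
  have ht3 : g.t 3 = -(g.t 1 * g.s 2) := by
    rw [← h3', hb]
    ring
  -- the additive relation on the dual side
  have hYX : Y = -(g.t 1 ^ 2 * g.s 2 * X) := by
    rcases Pool.Agent.Helper43.IPL.local_flat2 g.swap (by omega) 2 (by omega) with
      h | h | h | h | ⟨h, -⟩
    · exact (d12_ne g.swap (by omega) hD h).elim
    · refine (hk' ?_).elim
      rw [GForm.kap]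
      linear_combination -h
    · refine (hk3' ?_).elim
      rw [GForm.kap]
      linear_combination -g.swap.t 1 * h
    · exfalso
      simp only [GForm.swap_s, GForm.swap_t] at h
      apply g.t_inj 1 2 (by omega) (by omega)
      have h4 := g.s_ne 2 (by omega)
      apply mul_right_cancel₀ h4
      linear_combination -h - h3'
    · have hM := ns_add (g := g.swap) (by omega) hX' hY' h
      simp only [GForm.swap_s, GForm.swap_t] at hM
      rw [ht3, hc, hb] at hM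
      apply mul_left_cancel₀ he1
      linear_combination -hM
  have s24 : g.s 2 ≠ g.s 4 := g.s_inj 2 4 (by omega) (by omega)
  have no0 : ¬ (g.s 3 * g.t 2 = g.t 1 * g.s 4) := by
    intro h
    apply s24
    rw [hs3, hc] at h
    apply mul_left_cancel₀ ha
    linear_combination h
  have hl1 := sub_ne_zero.2 (g.lam'_ne 1 (by omega)).symm
  have hk4 : g.t 1 ^ 3 * g.H 1 4 = g.G 1 4 := by
    rcases Pool.Agent.Helper43.IPL.local_flat2 g (by omega) 3 (by omega) with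
      h | h | h | h | ⟨-, h⟩
    · exact (d13_ne g (by omega) hk h).elim
    · refine (hk3 ?_).elim
      rw [GForm.kap]
      linear_combination -h
    · exact sub_eq_zero.1 h
    · exact (no0 h).elim
    · exfalso
      apply g.s_inj 0 4 (by omega) (by omega)
      rw [g.s0]
      have h1 := ns_mult1 g (by omega) hD hn1
      rw [hs3, hc] at h
      rw [hc, hb] at h1
      apply mul_left_cancel₀ (mul_ne_zero hl1 (mul_ne_zero (g.s_ne 2 (by omega))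
        (pow_ne_zero 3 ha)))
      linear_combination h + g.t 1 ^ 2 * h1
  rcases Pool.Agent.Helper43.IPL.deg_flat g (by omega) 3 (by omega) hk4 with h | ⟨e1, e2⟩
  · refine no0 (Pool.Agent.Helper27.IP.closed_type0 g (k := 3) (by omega) ?_ ?_ ?_)
    · rw [GForm.kap]
      linear_combination (-g.t 1) * hk4
    · rw [GForm.kap]
      linear_combination (-g.t 2) * h
    · intro h
      exact ha2 (by rw [h]; ring)
  · have a4 := G1k (by omega) hX (k := 4) (by omega)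
    have b4 := H1k (by omega) hY (k := 4) (by omega)
    have k1 : (g.s 4 - 1) * (X * g.s 4 + g.t 1 ^ 2 * Y) =
        (g.t 1 ^ 2 + g.t 1 + 1) * g.s 4 := by
      apply mul_left_cancel₀ ha1
      linear_combination g.t 1 ^ 2 * b4 - g.s 4 * a4 - g.s 4 * hk4
    have k2 : (g.t 2 - 1) * (1 + (g.t 1 - 1) * X * (g.s 4 - 1)) =
        (g.t 2 - g.t 1) * (g.t 1 ^ 3 - g.t 1 ^ 2 * (g.t 1 - 1) * Y) := by
      linear_combination e1 - (g.t 2 - 1) * a4 - (g.t 2 - g.t 1) * g.t 1 ^ 2 * hY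
    have k3 : g.t 1 * ((g.t 2 - 1) * (1 + (g.t 1 - 1) * X * (g.s 4 - 1))) =
        (g.t 2 - g.t 1) * (1 - (g.t 1 - 1) * X) := by
      linear_combination e2 - g.t 1 * (g.t 2 - 1) * a4 - (g.t 2 - g.t 1) * hX
    rw [hc] at hN1 hN2 k2 k3
    rw [hb] at hN2
    exact t2b_special ha ha2 ha1 h2 hYX hN1 hN2 k1 k2 k3

end Pool.Agent.Helper82.IP
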