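import Pool.Agent.Helper82.IP.N5Z

/-!
TH-P phase 2, `m = 4` (pairs of dimension 5): the split numbers of the family D5.
-/

namespace Pool.Agent.Helper82.IP

open Pool.Agent.Helper54.IP Pool.Agent.Helper36.IP

variable {F : Type*} [Field F]

/-- numerator of `K_12` on D5 -/
def kn5 (a b c d : F) : F :=
  (b - 1) * (a * b * (d + (a + 1) * c) + d * (a * c + a * d + d)) - a * b * ((c + d) * (d - 1))

/-- numerator of `1 - lam_2` on D5 -/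
def nn5 (a b c d : F) : F :=
  b * (c - 1) * (d + (a + 1) * c) + (b - 1) * (d * (a * c + a * d + d))
    - (a + 1) * b * ((c + d) * (d - 1))

/-- closure at the last step, `m = 4` -/
theorem last_lam3 {g : GForm F 4} (h : g.Closed) {X Y : F} (hx : g.XY X Y) :
    (1 - g.lam 3) * (((g.s 3 - 1) * (g.s 3 * X + g.t 1 * Y) - (g.t 1 + 1) * g.s 3) * g.s 4) =
      g.t 1 * Y * (g.s 3 - g.s 4) := by
  have t0 := g.t_ne 1 (by omega)
  have t1 := g.t_sub_one (k := 1) (by omega) (by omega)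
  have g3 := hx.G1 (by omega) (k := 3) (by omega)
  have k3 := hx.H1 (by omega) (k := 3) (by omega)
  have k4 := hx.H1 (by omega) (k := 4) (by omega)
  have u := g.U1 1 3 (by omega) (by omega)
  have c := h.row' (κ := 3) (by omega) (j := 1) (by omega)
  norm_num at u
  have kE : g.s 3 * (g.t 1 * g.G 1 3 - g.t 1 ^ 3 * g.H 1 3) = g.t 1 * (g.t 1 - 1) *
      ((g.s 3 - 1) * (g.s 3 * X + g.t 1 * Y) - (g.t 1 + 1) * g.s 3) := by
    linear_combination g.t 1 * g.s 3 * g3 - g.t 1 ^ 2 * k3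
  have u2 : (1 - g.lam 3) * (g.t 1 * g.G 1 3 - g.t 1 ^ 3 * g.H 1 3) =
      g.t 1 ^ 3 * (g.H 1 4 - g.H 1 3) := by
    linear_combination c - u
  have hh : g.s 3 * g.s 4 * (g.t 1 ^ 3 * (g.H 1 4 - g.H 1 3)) =
      g.t 1 ^ 2 * (g.t 1 - 1) * Y * (g.s 3 - g.s 4) := by
    linear_combination g.t 1 ^ 2 * g.s 3 * k4 - g.t 1 ^ 2 * g.s 4 * k3
  apply mul_left_cancel₀ (mul_ne_zero t0 t1)
  linear_combination (-(1 - g.lam 3) * g.s 4) * kE + g.s 3 * g.s 4 * u2 + hh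

/-- `K_13 ≠ 0` -/
theorem k13_ne {g : GForm F 4} (h : g.Closed) {X Y : F} (hx : g.XY X Y) :
    (g.s 3 - 1) * (g.s 3 * X + g.t 1 * Y) - (g.t 1 + 1) * g.s 3 ≠ 0 := by
  intro e
  have l := last_lam3 h hx
  rw [e, zero_mul, mul_zero] at l
  have n : g.s 3 - g.s 4 ≠ 0 := sub_ne_zero.2 (g.s_inj 3 4 (by omega) (by omega))
  exact mul_ne_zero (mul_ne_zero (g.t_ne 1 (by omega)) (hx.Y_ne (by omega))) n l.symm

/-- on D5 the second column is never degenerate -/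
theorem d5_k12 {g : GForm F 4} {X Y : F} (hx : g.XY X Y)
    (e2 : g.s 2 = g.t 2) (D : D5X (g.t 1) (g.t 2) (g.t 3) (g.t 4) X Y) :
    (g.t 2 - 1) * (g.t 2 * X + Y) - g.t 2 ≠ 0 := by
  intro e
  have a0 := g.t_ne 1 (by omega)
  have d0 := g.t_ne 4 (by omega)
  have b1 := g.t_sub_one (k := 2) (by omega) (by omega)
  have dac : g.t 1 - g.t 3 ≠ 0 := sub_ne_zero.2 (g.t_inj 1 3 (by omega) (by omega))
  obtain ⟨r, -⟩ := c3_row (by omega) hx e2.symm (sub_eq_zero.1 e)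
  obtain ⟨x, y, -, -⟩ := D
  apply mul_ne_zero (mul_ne_zero d0 dac) b1
  linear_combination (g.t 1 * ((g.t 3 + g.t 4) * (g.t 4 - 1))) * e
    - ((g.t 3 + g.t 4) * (g.t 4 - 1)) * r
    - ((g.t 2 - 1) * g.t 1 * g.t 2 - (g.t 2 - 1) * (g.t 1 * g.t 2 + 1)) * x
    - (g.t 2 - 1) * y

/-- type 1 at step 2 on D5: `t_2 mu_1 = t_1 ^ 2 t_3 (1 - lam_1)` -/
theorem d5_mu1 {g : GForm F 4} {X Y : F} (hx : g.XY X Y)
    (e1 : g.s 1 = g.t 1) (e2 : g.s 2 = g.t 2)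
    (D : D5X (g.t 1) (g.t 2) (g.t 3) (g.t 4) X Y) :
    g.t 2 * g.mu 1 = g.t 1 ^ 2 * g.t 3 * (1 - g.lam 1) := by
  by_cases hD : g.G 1 1 = g.H 1 1
  · obtain ⟨y, y0, y1, y2, y3, y4⟩ := Pool.Agent.Helper76.IP.z1_y g le_rfl hD
    obtain ⟨-, z2, -⟩ := Pool.Agent.Helper76.IP.z1_col2 g (by omega) hD
    rw [e2] at z2
    rw [e1] at y2 y4
    have a0 := g.t_ne 1 (by omega)
    have hc : g.t 3 = g.t 1 * y := by
      apply mul_left_cancel₀ a0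
      linear_combination y2
    rw [y4, z2, hc]
    ring
  · have n := XY_D_ne (by omega) hx hD
    have a0 := g.t_ne 1 (by omega)
    have a1 := g.t_sub_one (k := 1) (by omega) (by omega)
    have d1 := g.t_sub_one (k := 4) (by omega) (by omega)
    have l := hx.lam1 (by omega)
    have u := XY_mu1 (by omega) hx
    rw [e1, e2] at l u
    rw [e1] at n
    obtain ⟨x, y, q, -⟩ := D
    have hcd : g.t 3 + g.t 4 ≠ 0 := by
      intro e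
      rw [e] at x
      apply mul_ne_zero a0 (g.t_ne 3 (by omega))
      linear_combination -x - e
    have ml : g.t 3 * (g.t 1 * (g.t 2 - 1) * X + (g.t 1 - 1) * Y - g.t 1) =
        (g.t 1 - 1) * g.t 2 * X + (g.t 2 - 1) * Y - g.t 2 := by
      apply mul_left_cancel₀ (mul_ne_zero a0 (mul_ne_zero hcd d1))
      linear_combination (g.t 1 * g.t 3 + g.t 4) * q +
        (g.t 3 * g.t 1 ^ 2 * (g.t 2 - 1) - g.t 1 * (g.t 1 - 1) * g.t 2) * x +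
        (g.t 3 * (g.t 1 - 1) - (g.t 2 - 1)) * y
    apply mul_left_cancel₀ (mul_ne_zero a1 n)
    linear_combination u - g.t 1 ^ 2 * g.t 3 * l - g.t 1 ^ 2 * ml

/-- the split numbers of D5 -/
theorem d5_phi {g : GForm F 4} (h : g.Closed) {X Y : F} (hx : g.XY X Y)
    (e1 : g.s 1 = g.t 1) (e2 : g.s 2 = g.t 2) (e3 : g.s 3 = g.t 3) (e4 : g.s 4 = g.t 4)
    (D : D5X (g.t 1) (g.t 2) (g.t 3) (g.t 4) X Y) {f : ℕ → F} (hf : g.IsPhi f) :
    f 1 * (g.t 4 + (g.t 1 + 1) * g.t 3) = (g.t 3 + g.t 4) * (g.t 4 - 1) ∧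
    f 2 * (g.t 1 ^ 2 * g.t 2 * (g.t 4 + (g.t 1 + 1) * g.t 3) - g.t 1 ^ 3 * g.t 3 -
        g.t 1 * g.t 3 * g.t 4 - g.t 4 ^ 2) =
      (g.t 2 - 1) * (g.t 2 - g.t 1) * (g.t 1 ^ 3 * (g.t 4 + (g.t 1 + 1) * g.t 3) +
        g.t 4 * (g.t 1 * g.t 3 + g.t 1 * g.t 4 + g.t 4)) ∧
    f 2 * (g.t 1 ^ 3 * g.t 2 ^ 3 - g.t 4 ^ 2) =
      (g.t 2 - 1) * (g.t 2 - g.t 1) * ((g.t 1 ^ 2 + g.t 1 + 1) *
        (g.t 4 ^ 2 + g.t 1 ^ 2 * g.t 2 ^ 2 * g.t 3)) ∧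
    f 3 * ((g.t 2 - 1) * (g.t 2 - g.t 1) * nn5 (g.t 1) (g.t 2) (g.t 3) (g.t 4)) =
      (g.t 3 - 1) * (g.t 3 - g.t 1) * (g.t 3 - g.t 2) * kn5 (g.t 1) (g.t 2) (g.t 3) (g.t 4) ∧
    f 4 * ((g.t 3 - 1) * (g.t 3 - g.t 1) * (g.t 3 - g.t 2) *
        (g.t 1 * g.t 3 + g.t 1 * g.t 4 + g.t 4)) =
      -((g.t 4 - 1) * (g.t 4 - g.t 1) * (g.t 4 - g.t 2) * (g.t 1 + 1) *
        (g.t 3 ^ 3 - g.t 4 ^ 2)) := by
  have a1 := g.t_sub_one (k := 1) (by omega) (by omega)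
  have d1 := g.t_sub_one (k := 4) (by omega) (by omega)
  have a0 := g.t_ne 1 (by omega)
  have b0 := g.t_ne 2 (by omega)
  have c0 := g.t_ne 3 (by omega)
  have d0 := g.t_ne 4 (by omega)
  have m1 := d5_mu1 hx e1 e2 D
  obtain ⟨x, y, -, -⟩ := D
  have hcd : g.t 3 + g.t 4 ≠ 0 := by
    intro e
    rw [e] at x
    apply mul_ne_zero a0 c0
    linear_combination -x - e
  have o1 := hf.one (by omega) hx
  have o2 := hf.two (by omega) hx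
  have o3 := hf.three (by omega) hx
  have p1 := hf 1 (by omega)
  have p3 := hf 3 (by omega)
  simp only [Finset.prod_range_succ, Finset.range_zero, Finset.prod_empty, one_mul,
    g.s0, Nat.reduceAdd] at p1 p3
  rw [e1, e2] at o2 p1
  rw [e1, e2, e3] at o3
  rw [e1, e2, e3, e4] at p3
  refine ⟨?_, ?_, ?_, ?_, ?_⟩
  · linear_combination ((g.t 3 + g.t 4) * (g.t 4 - 1)) * o1 - f 1 * x
  · linear_combination (g.t 1 * ((g.t 3 + g.t 4) * (g.t 4 - 1))) * o2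
      - (f 2 * (g.t 1 ^ 2 * (g.t 2 - 1)) - (g.t 2 - 1) * (g.t 2 - g.t 1) * g.t 1 ^ 3) * x
      - (f 2 * (g.t 1 - 1) - (g.t 2 - 1) * (g.t 2 - g.t 1)) * y
  · have r := closed_row2 h.swap
    simp only [GForm.swap_s, GForm.swap_t, GForm.swap_lam', GForm.swap_mu'] at r
    rw [e1, e2] at r
    have r2 : (1 - g.lam 1) * ((g.t 1 ^ 3 - 1) *
        (g.t 4 ^ 2 + g.t 1 ^ 2 * g.t 2 ^ 2 * g.t 3)) = g.t 1 ^ 3 * g.t 2 ^ 3 - g.t 4 ^ 2 := by
      linear_combination r - g.t 2 ^ 2 * (g.t 1 ^ 3 - 1) * m1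
    linear_combination (-(f 2)) * r2 + ((g.t 1 ^ 2 + g.t 1 + 1) *
      (g.t 4 ^ 2 + g.t 1 ^ 2 * g.t 2 ^ 2 * g.t 3)) * p1
  · rw [nn5, kn5]
    linear_combination ((g.t 3 + g.t 4) * (g.t 4 - 1)) * o3
      - (f 3 * ((g.t 2 - 1) * (g.t 2 - g.t 1) * (g.t 2 * (g.t 3 - 1))) -
        (g.t 3 - 1) * (g.t 3 - g.t 1) * (g.t 3 - g.t 2) *
          ((g.t 2 - 1) * (g.t 1 * g.t 2))) * x
      - (f 3 * ((g.t 2 - 1) * (g.t 2 - g.t 1) * (g.t 2 - 1)) -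
        (g.t 3 - 1) * (g.t 3 - g.t 1) * (g.t 3 - g.t 2) * (g.t 2 - 1)) * y
  · have l := last_lam3 h hx
    rw [e3, e4] at l
    have l2 : (1 - g.lam 3) * ((g.t 1 + 1) * (g.t 3 ^ 3 - g.t 4 ^ 2)) =
        (g.t 3 - g.t 4) * (g.t 1 * g.t 3 + g.t 1 * g.t 4 + g.t 4) := by
      apply mul_left_cancel₀ d0
      linear_combination ((g.t 3 + g.t 4) * (g.t 4 - 1)) * l
        - (1 - g.lam 3) * g.t 4 * (g.t 3 - 1) * g.t 3 * x
        - ((1 - g.lam 3) * g.t 4 * (g.t 3 - 1) - (g.t 3 - g.t 4)) * y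
    have n : g.t 3 - g.t 4 ≠ 0 := sub_ne_zero.2 (g.t_inj 3 4 (by omega) (by omega))
    apply mul_left_cancel₀ n
    linear_combination ((g.t 1 + 1) * (g.t 3 ^ 3 - g.t 4 ^ 2)) * p3
      - f 4 * ((g.t 3 - 1) * (g.t 3 - g.t 1) * (g.t 3 - g.t 2)) * l2

/-- the polynomial form of `d f_2` on D5 -/
def pf2 (a b c d : F) : F := -(a * d * (1 + a + b - c - d) + a * b * c - b * c * d * (1 + a))

/-- the polynomial form of `d f_3` on D5 -/
def pf3 (a b c d : F) : F :=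
  c * d + a * b * d + a * b * c + a * c * d - b * c * d - c ^ 2 * d - c * d ^ 2 - a * b * c * d

theorem pf2_alg1 {a b c d : F} (hc : c - 1 ≠ 0)
    (q : (1 - b) * (d - a ^ 2 * c) + (a - c) * (d - a * b) = 0)
    (r : (d - b) * (d ^ 2 - a * c ^ 2) + d * (c - a) * (d - b * c) = 0) :
    pf2 a b c d * (a ^ 2 * b * (d + (a + 1) * c) - a ^ 3 * c - a * c * d - d ^ 2) =
      d * ((b - 1) * (b - a) * (a ^ 3 * (d + (a + 1) * c) + d * (a * c + a * d + d))) := by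
  apply mul_left_cancel₀ hc
  rw [pf2]
  linear_combination
    (a^2*b*c^2*d - a^2*b*c^2 - 2*a^2*b*c*d + a^2*c^2*d + a^2*c*d^2 + a*b*c^2*d +
    a*b*c*d^2 - 2*a*b*c*d - 2*a*b*d^2 + a*c*d^2 + a*d^3 + b*c*d^2 - b*d^2) * q + (- a^3 +
    a^2*b - a^2*d + a*b*d) * r

theorem pf2_alg2 {a b c d : F} (hc : c - 1 ≠ 0)
    (q : (1 - b) * (d - a ^ 2 * c) + (a - c) * (d - a * b) = 0)
    (r : (d - b) * (d ^ 2 - a * c ^ 2) + d * (c - a) * (d - b * c) = 0) :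
    pf2 a b c d * (a ^ 3 * b ^ 3 - d ^ 2) =
      d * ((b - 1) * (b - a) * ((a ^ 2 + a + 1) * (d ^ 2 + a ^ 2 * b ^ 2 * c))) := by
  apply mul_left_cancel₀ hc
  rw [pf2]
  linear_combination
    (a^3*b^2*c*d - a^3*b^2*d - a^2*b^3*c - a^2*b^3*d + 2*a^2*b^2*c*d + a^2*b^2*d^2 -
    a^2*b^2*d + a*b*c*d^2 - a*b*c*d - 2*a*b*d^2 + a*c*d^2 + a*d^3 + b*c*d^2 - b*d^2) * q
    + (- a^3*b^2 + a^2*b^3 - a^2*d + a*b*d) * r

theorem pf3_alg {a b c d : F}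
    (q : (1 - b) * (d - a ^ 2 * c) + (a - c) * (d - a * b) = 0)
    (r : (d - b) * (d ^ 2 - a * c ^ 2) + d * (c - a) * (d - b * c) = 0) :
    pf3 a b c d * ((b - 1) * (b - a) * nn5 a b c d) =
      d * ((c - 1) * (c - a) * (c - b) * kn5 a b c d) := by
  rw [pf3, nn5, kn5]
  linear_combination
    (a*b^2*c^2*d - a*b^2*c^2 - a*b^2*c*d + a*b^2*d^2 - a*b*c*d^2 - a*b*d^3 + a*c*d^2 +
    a*d^3 - b^3*c^2*d - b^3*c*d - b^3*d^2 - b^2*c^3 + 2*b^2*c^2*d + b^2*d^3 + b^2*d^2 +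
    b*c^3*d + 2*b*c^2*d^2 + 2*b*c*d^2 - 2*c^2*d^2 - 2*c*d^3 - d^4) * q + (- a^2*b^2 +
    a*b^3*c + a*b^2*c^2 + a*b^2*c*d - 2*a*b^2*c - 2*a*b^2*d - a*b*c^2 - 2*a*b*c*d + a*b*c
    + 2*a*b*d + 2*a*c*d + a*d^2 + b^3*c + b^3*d + b^2*c^2 + 2*b^2*c*d - b^2*c - 2*b^2*d -
    3*b*c*d - b*d^2 + b*d - c^2*d - c*d^2 + c*d + d^2) * r

/-- **the split numbers of D5**, polynomial form -/
theorem d5_phi2 {g : GForm F 4} (h : g.Closed) {X Y : F} (hx : g.XY X Y)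
    (e1 : g.s 1 = g.t 1) (e2 : g.s 2 = g.t 2) (e3 : g.s 3 = g.t 3) (e4 : g.s 4 = g.t 4)
    (D : D5X (g.t 1) (g.t 2) (g.t 3) (g.t 4) X Y) {f : ℕ → F} (hf : g.IsPhi f) :
    f 1 * (g.t 4 + (g.t 1 + 1) * g.t 3) = (g.t 3 + g.t 4) * (g.t 4 - 1) ∧
    g.t 4 * f 2 = pf2 (g.t 1) (g.t 2) (g.t 3) (g.t 4) ∧
    g.t 4 * f 3 = pf3 (g.t 1) (g.t 2) (g.t 3) (g.t 4) ∧
    f 4 * (g.t 1 * g.t 3 + g.t 1 * g.t 4 + g.t 4) =
      -(g.t 4 ^ 2 * (g.t 1 + 1) * (g.t 4 - 1)) := by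
  obtain ⟨p1, p2, p2', p3, p4⟩ := d5_phi h hx e1 e2 e3 e4 D hf
  have a0 := g.t_ne 1 (by omega)
  have b0 := g.t_ne 2 (by omega)
  have c0 := g.t_ne 3 (by omega)
  have d0 := g.t_ne 4 (by omega)
  have a1 := g.t_sub_one (k := 1) (by omega) (by omega)
  have b1 := g.t_sub_one (k := 2) (by omega) (by omega)
  have c1 := g.t_sub_one (k := 3) (by omega) (by omega)
  have d1 := g.t_sub_one (k := 4) (by omega) (by omega)
  have dba : g.t 2 - g.t 1 ≠ 0 := sub_ne_zero.2 (g.t_inj 1 2 (by omega) (by omega)).symm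
  have dca : g.t 3 - g.t 1 ≠ 0 := sub_ne_zero.2 (g.t_inj 1 3 (by omega) (by omega)).symm
  have dcb : g.t 3 - g.t 2 ≠ 0 := sub_ne_zero.2 (g.t_inj 2 3 (by omega) (by omega)).symm
  have k12 := d5_k12 hx e2 D
  have q := D.q
  have r := D.r
  have x := D.x
  have y := D.y
  have hcd : g.t 3 + g.t 4 ≠ 0 := by
    intro e
    rw [e] at x
    apply mul_ne_zero a0 c0
    linear_combination -x - e
  refine ⟨p1, ?_, ?_, ?_⟩
  · have A1 := pf2_alg1 c1 q r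
    have A2 := pf2_alg2 c1 q r
    have B1 : (g.t 4 * f 2 - pf2 (g.t 1) (g.t 2) (g.t 3) (g.t 4)) *
        (g.t 1 ^ 2 * g.t 2 * (g.t 4 + (g.t 1 + 1) * g.t 3) - g.t 1 ^ 3 * g.t 3 -
          g.t 1 * g.t 3 * g.t 4 - g.t 4 ^ 2) = 0 := by
      linear_combination g.t 4 * p2 - A1
    have B2 : (g.t 4 * f 2 - pf2 (g.t 1) (g.t 2) (g.t 3) (g.t 4)) *
        (g.t 1 ^ 3 * g.t 2 ^ 3 - g.t 4 ^ 2) = 0 := by
      linear_combination g.t 4 * p2' - A2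
    rcases mul_eq_zero.1 B1 with e | L0
    · exact sub_eq_zero.1 e
    rcases mul_eq_zero.1 B2 with e | E0
    · exact sub_eq_zero.1 e
    exfalso
    rw [L0, mul_zero] at p2
    rw [E0, mul_zero] at p2'
    have m2 := mul_ne_zero b1 dba
    have D0 := (mul_eq_zero.1 p2.symm).resolve_left m2
    have M0 := (mul_eq_zero.1 p2'.symm).resolve_left m2
    have hZ : g.G 1 1 = g.H 1 1 := by
      by_contra hD
      have n := XY_D_ne (by omega) hx hD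
      rw [e1] at n
      apply mul_ne_zero (mul_ne_zero a0 (mul_ne_zero hcd d1)) n
      linear_combination g.t 1 ^ 3 * x + y + D0
    obtain ⟨-, z2, z3⟩ := Pool.Agent.Helper76.IP.z1_col2 g (by omega) hZ
    rw [e2] at z2
    rw [e1] at z3
    have hq : 1 + g.t 1 * g.t 1 ≠ 0 := by
      intro e
      rw [e, mul_zero] at z3
      exact a1 (by linear_combination z3)
    have rel : g.t 4 ^ 2 = g.t 1 ^ 2 * g.t 3 := by
      apply mul_left_cancel₀ hcd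
      rw [z2] at r
      linear_combination r
    have hc : g.t 3 = -g.t 1 ^ 4 := by
      apply mul_left_cancel₀ (pow_ne_zero 2 a0)
      rw [z2] at E0
      linear_combination -rel - E0
    have p0 : g.t 1 ^ 2 + g.t 1 + 1 = 0 := by
      refine (mul_eq_zero.1 M0).resolve_right ?_
      intro e
      apply mul_ne_zero (mul_ne_zero (pow_ne_zero 2 a0) c0) hq
      rw [z2] at e
      linear_combination e - rel
    apply dcb
    rw [hc, z2]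
    linear_combination (-(g.t 1 * (g.t 1 - 1))) * p0
  · have A3 := pf3_alg q r
    have kn : kn5 (g.t 1) (g.t 2) (g.t 3) (g.t 4) ≠ 0 := by
      intro e
      apply mul_ne_zero (mul_ne_zero a0 (mul_ne_zero hcd d1)) k12
      rw [kn5] at e
      linear_combination e + (g.t 2 - 1) * (g.t 1 * g.t 2) * x + (g.t 2 - 1) * y
    have nn : nn5 (g.t 1) (g.t 2) (g.t 3) (g.t 4) ≠ 0 := by
      intro e
      rw [e, mul_zero, mul_zero] at p3
      exact mul_ne_zero (mul_ne_zero (mul_ne_zero c1 dca) dcb) kn p3.symm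
    apply mul_right_cancel₀ (mul_ne_zero (mul_ne_zero b1 dba) nn)
    linear_combination g.t 4 * p3 - A3
  · apply mul_left_cancel₀ (mul_ne_zero (mul_ne_zero c1 dca) dcb)
    linear_combination p4 - (g.t 4 - 1) * (g.t 1 + 1) * (g.t 3 - g.t 4) * r

end Pool.Agent.Helper82.IP
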