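import Pool.Agent.Helper82.IP.N5Fin
import Pool.Agent.Helper16.IP.D5S
import Pool.Agent.Helper16.IP.RevPhi2
import Pool.Agent.Helper31.IPS.Full

/-!
TH-P phase 2, `m = 4` (pairs of dimension 5): the list of the parameter arrays, from the
constructions of the families D5 and W5 (hypotheses here, proved elsewhere).
-/

namespace Pool.Agent.Helper82.IP

open Pool.Agent.Helper54.IP Pool.Agent.Helper36.IP Pool.Agent.Helper16.IP
  Pool.Agent.Helper31.IPS

variable {F : Type*} [Field F]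

theorem D5L.congr {t s f t' s' : ℕ → F} (h : D5L t s f) (ht : ∀ i, i ≤ 4 → t i = t' i)
    (hs : ∀ i, i ≤ 4 → s i = s' i) : D5L t' s' f := by
  have a0 := ht 0 (by omega)
  have a1 := ht 1 (by omega)
  have a2 := ht 2 (by omega)
  have a3 := ht 3 (by omega)
  have a4 := ht 4 (by omega)
  have b0 := hs 0 (by omega)
  have b1 := hs 1 (by omega)
  have b2 := hs 2 (by omega)
  have b3 := hs 3 (by omega)
  have b4 := hs 4 (by omega)
  obtain ⟨c1, c2, c3, c4, c5, c6, c7, c8, c9, c10, c11, c12, c13, c14, c15, c16, c17, c18, c19,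
    c20, c21, c22, c23, c24, c25, c26, c27, c28, c29, c30, c31, c32, c33, c34⟩ := h
  rw [a0] at c1
  rw [b0] at c2
  rw [a1, b1] at c3
  rw [a2, b2] at c4
  rw [a3, b3] at c5
  rw [a4, b4] at c6
  simp only [a1, a2, a3, a4] at *
  exact ⟨c1, c2, c3, c4, c5, c6, c7, c8, c9, c10, c11, c12, c13, c14, c15, c16, c17, c18, c19,
    c20, c21, c22, c23, c24, c25, c26, c27, c28, c29, c30, c31, c32, c33, c34⟩

/-- **the pairs of dimension 5**, the lists. -/
theorem n5_lists' {g : GForm F 4} (h : g.Closed) {f : ℕ → F} (hf : g.IsPhi f) :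
    (∀ i, i ≤ 4 → g.t i = g.t 1 ^ i ∧ g.s i = g.t 1 ^ i) ∨ D5L g.t g.s f ∨
      D5S g.t g.s f ∨ W5 g := by
  rcases n5_lists h hf with r | r | r | r
  · exact Or.inl r
  · exact Or.inr (Or.inl r)
  · refine Or.inr (Or.inr (Or.inl ?_))
    refine (D5S_iff g.t0 g.s0 g.t_ne (g.s_ne 4 (by omega)) g.t_inj).2 ?_
    exact r
  · exact Or.inr (Or.inr (Or.inr r))

/-- the construction of `D5S` from the construction of `D5L`. -/
theorem d5s_isPA (con : ∀ t s f : ℕ → F, D5L t s f → IsPA 4 t s f) {t s f : ℕ → F}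
    (h : D5S t s f) : IsPA 4 t s f :=
  (IsPA_rev_iff h.t0 h.s0 h.t_ne h.s4_ne h.t_inj).1 (con _ _ _ h.rev)

/-- **the parameter arrays of dimension 5**. -/
theorem isPA4_iff_of (con : ∀ t s f : ℕ → F, D5L t s f → IsPA 4 t s f)
    {WL : (ℕ → F) → (ℕ → F) → (ℕ → F) → Prop}
    (elW : ∀ g : GForm F 4, g.Closed → ∀ f : ℕ → F, g.IsPhi f → W5 g → WL g.t g.s f)
    (congW : ∀ t s f t' s' : ℕ → F, WL t s f → (∀ i, i ≤ 4 → t i = t' i) →
      (∀ i, i ≤ 4 → s i = s' i) → WL t' s' f)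
    (conW : ∀ t s f, WL t s f → IsPA 4 t s f) (t s f : ℕ → F) :
    IsPA 4 t s f ↔ MainL 4 t s f ∨ D5L t s f ∨ D5S t s f ∨ WL t s f := by
  refine isPA_frame (m := 4) (by omega)
    (L := fun t s f => D5L t s f ∨ D5S t s f ∨ WL t s f)
    (fun g hc f hf => ?_) ?_ ?_ t s f
  · rcases n5_lists' hc hf with h | h | h | h
    · exact Or.inl h
    · exact Or.inr (Or.inl h)
    · exact Or.inr (Or.inr (Or.inl h))
    · exact Or.inr (Or.inr (Or.inr (elW g hc f hf h)))
  · rintro t s f t' s' (h | h | h) ht hs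
    · exact Or.inl (h.congr ht hs)
    · exact Or.inr (Or.inl (h.congr ht hs (fun _ _ _ => rfl)))
    · exact Or.inr (Or.inr (congW _ _ _ _ _ h ht hs))
  · rintro t s f (h | h | h)
    · exact con _ _ _ h
    · exact d5s_isPA con h
    · exact conW _ _ _ h

end Pool.Agent.Helper82.IP
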