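import Mathlib

/-!
TH-P phase 2, `m = 4`: the algebra of the diagonal branch.
`a, b, c, d = t_1, t_2, t_3, t_4`.
-/

namespace Pool.Agent.Helper82.IP

variable {F : Type*} [Field F]

/-- the first closure relation of the family D5 -/
def Q5 (a b c d : F) : F := (1 - b) * (d - a ^ 2 * c) + (a - c) * (d - a * b)

/-- the second closure relation of the family D5 -/
def R5 (a b c d : F) : F := (d - b) * (d ^ 2 - a * c ^ 2) + d * (c - a) * (d - b * c)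

/-- the letters `X, Y` when `d ≠ a c` -/
theorem n5_XY {a c d X Y z : F} (ha : a ≠ 0) (hd : d ≠ 0) (hz : c = z * d) (hz1 : z - 1 ≠ 0)
    (hac : d ≠ a * c)
    (C : (d - 1) * (d * X + a ^ 2 * Y) = d * (a ^ 2 + a + 1))
    (E : (d - 1) * (z - 1) * (a * d ^ 2 * X + d * z ^ 2 * a ^ 2 * Y) =
      d * d * (z ^ 3 - 1) * (1 + (a - 1) * X * (d - 1))) :
    X * ((c + d) * (d - 1)) = d + (a + 1) * c ∧
    Y * (a * ((c + d) * (d - 1))) = d * (a * c + a * d + d) := by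
  have h1 : d ^ 2 * (z - 1) * ((1 - a * z) * (X * (d - 1) * (z + 1) - (1 + (a + 1) * z))) = 0 := by
    linear_combination E - d * z ^ 2 * (z - 1) * C
  have h2 := (mul_eq_zero.1 h1).resolve_left (mul_ne_zero (pow_ne_zero 2 hd) hz1)
  have h3 : 1 - a * z ≠ 0 := by
    intro h
    apply hac
    rw [hz]
    linear_combination d * h
  have h4 := (mul_eq_zero.1 h2).resolve_left h3
  have h5 : X * ((c + d) * (d - 1)) = d + (a + 1) * c := by
    rw [hz]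
    linear_combination d * h4
  refine ⟨h5, ?_⟩
  apply mul_left_cancel₀ ha
  linear_combination (c + d) * C - d * h5

/-- `d ≠ a c`, the reversal in the branch N -/
theorem n5_AN {a b c d X Y : F} (ha : a ≠ 0) (hd : d ≠ 0) (hbd : b - d ≠ 0) (hab : b - a ≠ 0)
    (hX0 : X ≠ 0) (hcd : c + d ≠ 0) (hd1 : d - 1 ≠ 0)
    (hX : X * ((c + d) * (d - 1)) = d + (a + 1) * c)
    (hY : Y * (a * ((c + d) * (d - 1))) = d * (a * c + a * d + d))
    (N1 : (b * b - a * d) * (-(a * d ^ 2 * X) + a ^ 2 * Y + d * (1 + (a - 1) * X * (d - 1))) =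
      (b - d) * (-(a * d ^ 2 * X) + a ^ 3 * b * Y))
    (N2 : (c - b * b) * (-(a * d ^ 2 * X) + a ^ 2 * Y + d * (1 + (a - 1) * X * (d - 1))) =
      (1 - b) * (-(a * b * c * d * X) + a ^ 2 * d * Y))
    (R : d ^ 2 * ((a * a * X + Y) + (a ^ 2 + a + 1) * (a * (b - 1) * X + (a - 1) * Y - a)) =
      b ^ 2 * (a ^ 3 * b * (a * a * X + Y) -
        a * a * (a ^ 2 + a + 1) * ((a - 1) * b * X + (b - 1) * Y - b))) :
    Q5 a b c d = 0 ∧ R5 a b c d = 0 := by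
  have n1 : - a^2*b^2*c - a^2*b^2*d + a^2*b*c*d + a^2*b*d^2 - a^2*d^2 + a*b*c*d + a*b*d^2
      - b^2*c*d + b*c*d + b*d^2 - c*d^2 - d^3 = 0 := by
    apply mul_left_cancel₀ (mul_ne_zero ha hd)
    linear_combination ((c + d) * (d - 1)) * N1 -
      ((b * b - a * d) * (-(a * d ^ 2) + d * (a - 1) * (d - 1)) + (b - d) * (a * d ^ 2)) * hX -
      ((b * b - a * d) * a - (b - d) * a ^ 2 * b) * hY
  have n2 : - a*b^2*c^2 - a*b^2*d + a*b*c^2 + a*b*c*d + a*b*d^2 - a*d^2 - b^2*c^2 + b*c^2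
      + b*c*d + b*d^2 - c^2*d - d^2 = 0 := by
    apply mul_left_cancel₀ (mul_ne_zero ha hd)
    linear_combination ((c + d) * (d - 1)) * N2 -
      ((c - b * b) * (-(a * d ^ 2) + d * (a - 1) * (d - 1)) + (1 - b) * (a * b * c * d)) * hX -
      ((c - b * b) * a - (1 - b) * a * d) * hY
  have r : a^3*b^3*c + a^3*b^3*d - a^3*b^2*c*d - a^3*b^2*d^2 + a^3*b*c*d^2 - a^3*c*d^2
      - a^2*b^3*c*d + a^2*b^3*d - a^2*b^2*c*d - 2*a^2*b^2*d^2 + 2*a^2*b*c*d^2 + a^2*b*d^3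
      - a*b^2*c*d - 2*a*b^2*d^2 + 2*a*b*c*d^2 + a*b*d^3 - a*c*d^3 + a*d^3 + b^3*d^2
      - b^2*d^2 + b*c*d^2 + b*d^3 - c*d^3 - d^4 = 0 := by
    apply mul_left_cancel₀ ha
    linear_combination ((c + d) * (d - 1)) * R -
      (d ^ 2 * (a * a + (a ^ 2 + a + 1) * (a * (b - 1))) -
        b ^ 2 * (a ^ 3 * b * (a * a) - a * a * (a ^ 2 + a + 1) * ((a - 1) * b))) * hX -
      (d ^ 2 * a ^ 2 - b ^ 2 * a * (a * b - (a ^ 2 + a + 1) * (b - 1))) * hY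
  have hD : d + (a + 1) * c ≠ 0 := by
    rw [← hX]
    exact mul_ne_zero hX0 (mul_ne_zero hcd hd1)
  have q : Q5 a b c d = 0 := by
    apply mul_left_cancel₀ (mul_ne_zero (mul_ne_zero hd hbd) hD)
    rw [Q5]
    linear_combination (- a*b*c + a*d - b*d + d) * n1 + (- a^2*d + a*b*d) * n2 - c * r
  refine ⟨q, ?_⟩
  apply mul_left_cancel₀ hab
  rw [Q5] at q
  rw [R5]
  linear_combination (c - 1) * n1 - (c + d) * (d - b) * q

/-- `d = b ^ 2`, `d ≠ a c`, the reversal in the branch C3, `b ≠ a ^ 2` -/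
theorem n5_AC {a b c d X Y : F} (ha : a ≠ 0) (hb : b ≠ 0) (hb1 : b - 1 ≠ 0)
    (hcd : c + d ≠ 0) (hd1 : d - 1 ≠ 0) (hdb : d = b ^ 2)
    (hX : X * ((c + d) * (d - 1)) = d + (a + 1) * c)
    (hY : Y * (a * ((c + d) * (d - 1))) = d * (a * c + a * d + d))
    (C3 : (1 - b) * (-(a * d ^ 2 * X) - a ^ 2 * b * Y) = b * d * (1 + (a - 1) * X * (d - 1)))
    (R : d ^ 2 * ((a * a * X + Y) + (a ^ 2 + a + 1) * (a * (b - 1) * X + (a - 1) * Y - a)) =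
      b ^ 2 * (a ^ 3 * b * (a * a * X + Y) -
        a * a * (a ^ 2 + a + 1) * ((a - 1) * b * X + (b - 1) * Y - b))) :
    c = -(a * b) ∧ (b = a ^ 2 ∨ (Q5 a b c d = 0 ∧ R5 a b c d = 0)) := by
  subst hdb
  have hc : c = -(a * b) := by
    apply mul_left_cancel₀ (mul_ne_zero (mul_ne_zero ha (pow_ne_zero 4 hb)) hb1)
    linear_combination ((c + b ^ 2) * (b ^ 2 - 1)) * C3 +
      ((1 - b) * (a * (b ^ 2) ^ 2) + b * b ^ 2 * (a - 1) * (b ^ 2 - 1)) * hX +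
      (1 - b) * a * b * hY
  refine ⟨hc, ?_⟩
  subst hc
  have h : (b - a ^ 2) * (2*a*b + a^2*b - a^2 - b^2 + b) = 0 := by
    apply mul_left_cancel₀ (mul_ne_zero (mul_ne_zero ha (pow_ne_zero 4 hb)) hb1)
    linear_combination ((-(a * b) + b ^ 2) * (b ^ 2 - 1)) * R -
      ((b ^ 2) ^ 2 * (a * a + (a ^ 2 + a + 1) * (a * (b - 1))) -
        b ^ 2 * (a ^ 3 * b * (a * a) - a * a * (a ^ 2 + a + 1) * ((a - 1) * b))) * hX -
      ((b ^ 2) ^ 2 * a ^ 2 - b ^ 2 * a * (a * b - (a ^ 2 + a + 1) * (b - 1))) * hY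
  rcases mul_eq_zero.1 h with h | h
  · left
    exact sub_eq_zero.1 h
  · right
    rw [Q5, R5]
    constructor
    · linear_combination b * (1 - a) * h
    · linear_combination (-(b ^ 3 * (a + b))) * h

/-- `d = b ^ 2 = a c` -/
theorem n5_B0 {a b X Y : F} (ha : a ≠ 0) (hb : b ≠ 0) (hb1 : b - 1 ≠ 0) (hb2 : b + 1 ≠ 0)
    (hX0 : X ≠ 0) (hc1 : b ^ 2 - a ≠ 0)
    (C : (b ^ 2 - 1) * (b ^ 2 * X + a ^ 2 * Y) = b ^ 2 * (a ^ 2 + a + 1))
    (R : (b ^ 2) ^ 2 * ((a * a * X + Y) + (a ^ 2 + a + 1) *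
        (a * (b - 1) * X + (a - 1) * Y - a)) =
      b ^ 2 * (a ^ 3 * b * (a * a * X + Y) -
        a * a * (a ^ 2 + a + 1) * ((a - 1) * b * X + (b - 1) * Y - b)))
    (R' : - a^4*b^4*X + a^4*b^3*X + a^4*b^3*Y - a^4*b^2*Y + a^3*b^3*Y - a^3*b^3 - a^3*b*Y
      + a^2*b^5*X - a^2*b^4*X - a^2*b^4 + a^2*b^3*Y - a^2*b^3 - a^2*b^2*Y + a*b^5*X - a*b^4
      - a*b^3*X - a*b^3 + b^6*X - b^4*X - b^4 = 0) :
    b = a ^ 2 := by
  have c1 : a^2*b^2*Y - a^2*b^2 - a^2*Y - a*b^2 + b^4*X - b^2*X - b^2 = 0 := by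
    linear_combination C
  have r : a^3*b*Y - a^3*b - a^3*Y + a^2*b^3*X - a^2*b^2*X + a^2*b^2*Y - a^2*b^2 - a^2*b
      - a^2*Y + a*b^3*X - a*b^2 - a*b*X + a*b*Y - a*b - a*Y + b^3*X - b^2*X - b^2 = 0 := by
    apply mul_left_cancel₀ (mul_ne_zero ha (pow_ne_zero 2 hb))
    linear_combination R
  by_contra hne
  have hne' : b - a ^ 2 ≠ 0 := sub_ne_zero.2 hne
  have p0 : a ^ 2 + a + 1 = 0 := by
    apply mul_left_cancel₀ (mul_ne_zero (mul_ne_zero (mul_ne_zero ha (pow_ne_zero 3 hb)) hc1) hne')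
    linear_combination (-1 : F) * ((- a^4*b^2 - 2*a^3*b^3 - a^3*b^2 - 2*a^2*b^3 - 3*a^2*b^2
      - a*b^4 - 2*a*b^3 - a*b^2 - a*b - b^3 - b^2) * c1 +
      (a^3*b^3 + a^3*b^2 + a*b^4 + a*b^3) * r + (a*b^2 + a*b + b + 1) * R')
  have q : a * b + 1 = 0 := by
    apply mul_left_cancel₀ (mul_ne_zero (mul_ne_zero (mul_ne_zero hX0 hb)
      (mul_ne_zero hb1 hb2)) hne')
    linear_combination (-(a * b + a)) * r + (a ^ 2 + a * b + a + 1) * c1 +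
      b * (b - a ^ 2) * p0
  apply hc1
  linear_combination (-(b ^ 2 * (a - 1))) * p0 + a * (a * b - 1) * q

theorem n5_rev_R2 {a b X Y X' Y' G : F} (ha : a ≠ 0) (hb : b ≠ 0)
    (r1 : X' * G = -(a * b ^ 2 * X)) (r2 : Y' * (b ^ 2 * G) = -(a ^ 2 * Y))
    (hG : G = 1 + (a - 1) * X * (b ^ 2 - 1))
    (E : (1 / b ^ 2) ^ 2 * ((a⁻¹ * a⁻¹ * X' + Y') + (a⁻¹ ^ 2 + a⁻¹ + 1) *
        (a⁻¹ * (b⁻¹ - 1) * X' + (a⁻¹ - 1) * Y' - a⁻¹)) =
      b⁻¹ ^ 2 * (a⁻¹ ^ 3 * b⁻¹ * (a⁻¹ * a⁻¹ * X' + Y') -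
        a⁻¹ * a⁻¹ * (a⁻¹ ^ 2 + a⁻¹ + 1) * ((a⁻¹ - 1) * b⁻¹ * X' + (b⁻¹ - 1) * Y' - b⁻¹))) :
    - a^4*b^4*X + a^4*b^3*X + a^4*b^3*Y - a^4*b^2*Y + a^3*b^3*Y - a^3*b^3 - a^3*b*Y
      + a^2*b^5*X - a^2*b^4*X - a^2*b^4 + a^2*b^3*Y - a^2*b^3 - a^2*b^2*Y + a*b^5*X - a*b^4
      - a*b^3*X - a*b^3 + b^6*X - b^4*X - b^4 = 0 := by
  field_simp at E
  apply mul_left_cancel₀ ha
  linear_combination (b ^ 2 * G) * E -
    (a ^ 2 * (a * b + (a ^ 2 + a + 1) * (1 - b)) -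
      b ^ 2 * (1 - (a ^ 2 + a + 1) * (1 - a))) * b ^ 2 * r1 -
    (a ^ 2 * (a ^ 3 * b + (a ^ 2 + a + 1) * b * (1 - a)) -
      b ^ 2 * (a ^ 2 - (a ^ 2 + a + 1) * a * (1 - b))) * r2 -
    (-(a ^ 2 * b * (a ^ 2 + a + 1)) - b ^ 2 * (a ^ 2 + a + 1) * a) * b ^ 2 * hG

/-- `d = a c ≠ b ^ 2`: the letters -/
theorem n5_BN {a b c d X Y : F} (ha : a ≠ 0) (hc : c ≠ 0) (hd : d ≠ 0) (hd1 : d - 1 ≠ 0)
    (hac : d = a * c) (hbd : b ^ 2 - d ≠ 0)
    (C : (d - 1) * (d * X + a ^ 2 * Y) = d * (a ^ 2 + a + 1))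
    (N1 : (b * b - a * d) * (-(a * d ^ 2 * X) + a ^ 2 * Y + d * (1 + (a - 1) * X * (d - 1))) =
      (b - d) * (-(a * d ^ 2 * X) + a ^ 3 * b * Y))
    (N2 : (c - b * b) * (-(a * d ^ 2 * X) + a ^ 2 * Y + d * (1 + (a - 1) * X * (d - 1))) =
      (1 - b) * (-(a * b * c * d * X) + a ^ 2 * d * Y)) :
    a + c ≠ 0 ∧ X * ((a + c) * (a * c - 1)) = a + c + a * c ∧ Y = X + 1 := by
  have h1 : X * (-d ^ 2 - (a ^ 2 - 1) * d) + a ^ 2 * Y + (a + 1) * d = 0 := by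
    apply mul_left_cancel₀ hbd
    subst hac
    linear_combination N1 - a * N2
  have h2 : X * ((a + c) * (a * c - 1)) = a + c + a * c := by
    have e : d * a * (X * ((a + c) * (a * c - 1)) - (a + c + a * c)) = 0 := by
      subst hac
      linear_combination C - (a * c - 1) * h1
    exact sub_eq_zero.1 ((mul_eq_zero.1 e).resolve_left (mul_ne_zero hd ha))
  have h3 : a + c ≠ 0 := by
    intro h
    rw [h] at h2
    apply mul_ne_zero ha hc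
    linear_combination -h2
  refine ⟨h3, h2, ?_⟩
  rw [hac] at hd1
  apply mul_left_cancel₀ (mul_ne_zero (mul_ne_zero (pow_ne_zero 2 ha) h3) hd1)
  subst hac
  linear_combination (a + c) * C - (a * c + a ^ 2) * h2

/-- `d = b ^ 2`, `b = a ^ 2`, `c = - a b`: the letters -/
theorem n5_AD {a X Y x y : F} (ha : a ≠ 0) (ha1 : a - 1 ≠ 0) (hb1 : a ^ 2 - 1 ≠ 0)
    (hX : X * ((-(a * a ^ 2) + (a ^ 2) ^ 2) * ((a ^ 2) ^ 2 - 1)) =
      (a ^ 2) ^ 2 + (a + 1) * (-(a * a ^ 2)))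
    (hY : Y * (a * ((-(a * a ^ 2) + (a ^ 2) ^ 2) * ((a ^ 2) ^ 2 - 1))) =
      (a ^ 2) ^ 2 * (a * (-(a * a ^ 2)) + a * (a ^ 2) ^ 2 + (a ^ 2) ^ 2))
    (hx : x = (a - 1) * X) (hy : a * y = (a - 1) * Y) :
    (a ^ 2 - 1) * (a ^ 2 * X + Y) ≠ a ^ 2 ∧
    (((a ^ 2) ^ 2 - -(a * a ^ 2)) * ((1 - x) - a ^ 2 * (1 - y)) +
      (a ^ 2 - 1) * (a ^ 2 * -(a * a ^ 2) * x - a ^ 2 * y) = 0 → -(a * a ^ 2) = a * a ^ 2) := by
  have h1 : X * ((a - 1) * (a ^ 4 - 1)) = -1 := by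
    apply mul_left_cancel₀ (pow_ne_zero 3 ha)
    linear_combination hX
  have h2 : Y * ((a - 1) * (a ^ 4 - 1)) = a ^ 5 := by
    apply mul_left_cancel₀ (pow_ne_zero 4 ha)
    linear_combination hY
  constructor
  · intro h
    have : a ^ 3 * (a - 1) * (a ^ 2 - 1) = 0 := by
      linear_combination ((a - 1) * (a ^ 4 - 1)) * h - (a ^ 2 - 1) * a ^ 2 * h1
        - (a ^ 2 - 1) * h2
    exact mul_ne_zero (mul_ne_zero (pow_ne_zero 3 ha) ha1) hb1 this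
  · intro h
    have x1 : x * (a ^ 4 - 1) = -1 := by
      rw [hx]
      linear_combination h1
    have y1 : y * (a ^ 4 - 1) = a ^ 4 := by
      apply mul_left_cancel₀ ha
      linear_combination (a ^ 4 - 1) * hy + h2
    have h3 : a + 1 ≠ 0 := by
      intro e
      apply hb1
      linear_combination (a - 1) * e
    have h4 : (2 : F) = 0 := by
      apply mul_left_cancel₀ (mul_ne_zero (pow_ne_zero 6 ha) h3)
      linear_combination (a ^ 4 - 1) * h +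
        ((a ^ 4 + a ^ 3) + (a ^ 2 - 1) * a ^ 5) * x1 -
        ((a ^ 4 + a ^ 3) * a ^ 2 - (a ^ 2 - 1) * a ^ 2) * y1
    linear_combination (-(a * a ^ 2)) * h4

/-- `d = a c ≠ b ^ 2`, `kap_12 = 0` -/
theorem n5_BK {a b c X Y : F} (ha : a ≠ 0) (hb1 : b - 1 ≠ 0) (ha1 : a - 1 ≠ 0)
    (hab : a * c ≠ b)
    (h3 : a + c ≠ 0) (hX : X * ((a + c) * (a * c - 1)) = a + c + a * c) (hY : Y = X + 1)
    (K : (b - 1) * (b * X + Y) = b)
    (G : 1 + (a - 1) * X * (c - 1) = a * (1 + (a - 1) * X * (b - 1)))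
    (H : a * (a * c - (a - 1) * Y * (c - 1)) = c * (1 + (a - 1) * X * (b - 1))) : False := by
  subst hY
  have k : (b ^ 2 - 1) * X = 1 := by linear_combination K
  have g : X * (c - 1 - a * b + a) = 1 := by
    apply mul_left_cancel₀ ha1
    linear_combination G
  have hc : c = b ^ 2 + a * b - a := by
    have hX0 : X ≠ 0 := by
      rintro rfl
      rw [mul_zero] at k
      exact zero_ne_one k
    apply mul_left_cancel₀ hX0
    linear_combination g - k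
  have h : c * (a + 1) = a * (c - 1) * (X + 1) + c * (b - 1) * X := by
    apply mul_left_cancel₀ ha1
    linear_combination H
  have e : (b - 1) * ((b ^ 2 - a) * (a + b)) = 0 := by
    have e1 : c * (a + 1) * (b ^ 2 - 1) = a * (c - 1) * b ^ 2 + c * (b - 1) := by
      linear_combination (b ^ 2 - 1) * h + (a * (c - 1) + c * (b - 1)) * k
    rw [hc] at e1
    linear_combination e1
  have hab' : a + b ≠ 0 := by
    intro h0
    apply h3
    rw [hc]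
    linear_combination b * h0
  have e2 : b ^ 2 = a := by
    have e3 := (mul_eq_zero.1 e).resolve_left hb1
    exact sub_eq_zero.1 ((mul_eq_zero.1 e3).resolve_right hab')
  have hc' : c = a * b := by
    rw [hc]
    linear_combination e2
  have a2 : a ^ 2 = 1 := by
    apply mul_left_cancel₀ (pow_ne_zero 2 ha)
    rw [e2] at k
    rw [hc'] at hX
    linear_combination (a - 1) * hX - (a + a * b) * (a * (a * b) - 1) * k - a ^ 3 * e2
  apply hab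
  rw [hc']
  linear_combination b * a2

/-- `d = a c ≠ b ^ 2`, type 1 at step 2 is `lam'_1 = 1` -/
theorem n5_BL {a b c X Y x y : F} (ha1 : a - 1 ≠ 0) (hc1 : c - 1 ≠ 0) (hY : Y = X + 1)
    (hx : x = (a - 1) * X) (hy : a * y = (a - 1) * Y)
    (L : (a - 1) * (b * (1 - x) - a * c * (1 - y)) + a * (b - 1) * (c * x - y) = 0) :
    a * (b - 1) * X + (a - 1) * Y - a = 0 := by
  subst hY
  subst hx
  apply mul_left_cancel₀ (mul_ne_zero ha1 hc1)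
  linear_combination L - ((a - 1) * c - (b - 1)) * hy

/-- `d = a c ≠ b ^ 2`, `c = a b`, `kap_13 = 0` -/
theorem n5_BM {a b c X Y : F} (ha : a ≠ 0) (hb : b ≠ 0) (hab : b - a ≠ 0) (hc : c = a * b)
    (hX : X * ((a + c) * (a * c - 1)) = a + c + a * c) (hY : Y = X + 1)
    (K : (c - 1) * (c * X + a * Y) = c * (a + 1)) : False := by
  subst hY
  subst hc
  apply mul_ne_zero (mul_ne_zero (pow_ne_zero 2 ha) hb) hab
  linear_combination (a * (a * b) - 1) * K - (a * b - 1) * hX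

end Pool.Agent.Helper82.IP
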