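import Pool.Agent.Helper54.IP.CTools
import Pool.Agent.Helper36.IP.Mono
import Pool.Agent.Helper14.IP.Level2
import Pool.Agent.Helper16.IP.Lev3

/-!
TH-P phase 2, closed corners with `m = 4` (pairs of dimension 5): closure in row 2 and the
equality of the two sequences in the diagonal branch.
-/

namespace Pool.Agent.Helper82.IP

open Pool.Agent.Helper54.IP

variable {F : Type*} [Field F] {m : ℕ}

/-- `mu_1` from row 1 -/
theorem XY_mu1 {g : GForm F m} (hm : 2 ≤ m) {X Y : F} (hx : g.XY X Y) :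
    g.mu 1 * ((g.s 1 - 1) * (g.t 1 * g.s 1 * X + Y)) * g.s 2 =
      g.t 1 * g.s 1 * ((g.s 1 - 1) * g.s 2 * X + (g.s 2 - 1) * Y - g.s 2) := by
  have ht := g.t_sub_one (k := 1) (by omega) (by omega)
  have ht0 := g.t_ne 1 (by omega)
  have h1 := hx.G1 (by omega) (k := 1) (by omega)
  have h2 := hx.H1 (by omega) (k := 1) (by omega)
  have h3 := hx.H1 (by omega) (k := 2) (by omega)
  have h4 := g.H_succ (j := 1) (k := 1) (by omega) (by omega)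
  rw [GForm.kap, pow_one] at h4
  norm_num at h4
  have h5 : g.t 1 * g.s 1 * (g.G 1 1 - g.H 1 1) =
      (g.t 1 - 1) * ((g.s 1 - 1) * (g.t 1 * g.s 1 * X + Y)) := by
    linear_combination g.t 1 * g.s 1 * h1 - h2
  have h6 : g.t 1 * g.H 1 2 = g.G 1 1 - g.mu 1 * (g.G 1 1 - g.H 1 1) := by
    apply mul_left_cancel₀ ht0
    linear_combination h4
  apply mul_left_cancel₀ ht
  linear_combination (-g.mu 1 * g.s 2) * h5 + g.t 1 * g.s 1 * g.s 2 * h6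
    - g.t 1 * g.s 1 * h3 + g.t 1 * g.s 1 * g.s 2 * h1

/-- `G_11 ≠ H_11` in the letters `X, Y` -/
theorem XY_D_ne {g : GForm F m} (hm : 1 ≤ m) {X Y : F} (hx : g.XY X Y)
    (hD : g.G 1 1 ≠ g.H 1 1) : g.t 1 * g.s 1 * X + Y ≠ 0 := by
  intro h
  have ht0 := g.t_ne 1 hm
  have hs0 := g.s_ne 1 hm
  have h1 := hx.G1 (by omega) (k := 1) (by omega)
  have h2 := hx.H1 (by omega) (k := 1) (by omega)
  have h5 : g.t 1 * g.s 1 * (g.G 1 1 - g.H 1 1) = 0 := by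
    linear_combination g.t 1 * g.s 1 * h1 - h2 + (g.t 1 - 1) * (g.s 1 - 1) * h
  rcases mul_eq_zero.1 h5 with h6 | h6
  · exact mul_ne_zero ht0 hs0 h6
  · exact hD (sub_eq_zero.1 h6)

/-- closure in row 2, `m = 4` -/
theorem closed_row2 {g : GForm F 4} (h : g.Closed) :
    g.s 4 ^ 2 * (1 + (1 - g.lam' 1) * (g.t 1 ^ 3 - 1)) =
      g.t 2 ^ 3 * (g.t 1 ^ 3 - g.mu' 1 * (g.t 1 ^ 3 - 1)) := by
  have h1 := h.row' (κ := 3) (by omega) (j := 1) (by omega)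
  have h2 := h.row' (κ := 3) (by omega) (j := 2) (by omega)
  have h3 := g.row2G (k := 4) (by omega) (by omega)
  have h4 := g.row2H (k := 4) (by omega) (by omega)
  have h5 := h.H_ne (j := 1) (by omega)
  apply mul_left_cancel₀ h5
  linear_combination (-(g.s 4)) * h3 + g.s 4 * h2 + g.t 2 ^ 3 * h4
    - (g.s 4 ^ 2 * (1 - g.lam' 1)) * h1 + g.t 2 ^ 3 * (1 - g.mu' 1) * h1

theorem closed_row2_ne {g : GForm F 4} (h : g.Closed) :
    1 + (1 - g.lam' 1) * (g.t 1 ^ 3 - 1) ≠ 0 := by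
  intro h0
  have h1 := h.row' (κ := 3) (by omega) (j := 1) (by omega)
  have h3 := g.row2G (k := 4) (by omega) (by omega)
  apply h.G_ne (j := 2) (by omega)
  linear_combination h3 + g.s 4 * (1 - g.lam' 1) * h1 + g.s 4 * g.H 1 4 * h0

/-- closure in row 2 in the letters `X, Y` -/
theorem closed_R2 {g : GForm F 4} (h : g.Closed) {X Y : F} (hx : g.XY X Y) :
    g.s 4 ^ 2 * ((g.t 1 * g.s 1 * X + Y) + (g.t 1 ^ 2 + g.t 1 + 1) *
      (g.t 1 * (g.t 2 - 1) * X + (g.t 1 - 1) * Y - g.t 1)) =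
    g.t 2 ^ 2 * (g.t 1 ^ 3 * g.t 2 * (g.t 1 * g.s 1 * X + Y) -
      g.s 1 * g.t 1 * (g.t 1 ^ 2 + g.t 1 + 1) *
        ((g.t 1 - 1) * g.t 2 * X + (g.t 2 - 1) * Y - g.t 2)) := by
  have h1 := closed_row2 h
  have h2 := hx.swap.lam1 (by omega)
  have h3 := XY_mu1 (by omega) hx.swap
  simp only [GForm.swap_t, GForm.swap_s, GForm.swap_lam, GForm.swap_mu] at h2 h3
  have ht := g.t_sub_one (k := 1) (by omega) (by omega)
  have ht2 := g.t_ne 2 (by omega)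
  apply mul_left_cancel₀ ht2
  linear_combination g.t 2 * (g.t 1 * g.s 1 * X + Y) * h1
    - g.t 2 * g.s 4 ^ 2 * (g.t 1 ^ 2 + g.t 1 + 1) * h2
    - g.t 2 ^ 3 * (g.t 1 ^ 2 + g.t 1 + 1) * h3

/-- in the diagonal branch of a closed corner with `m = 4` the two sequences are equal -/
theorem diag_eq {g : GForm F 4} (h : g.Closed) (hD : g.G 1 1 ≠ g.H 1 1)
    (h1 : g.t 1 = g.s 1) (h2 : g.t 2 = g.s 2) : g.s 4 = g.t 4 ∧ g.s 3 = g.t 3 := by
  obtain ⟨X, Y, hx⟩ := g.exists_XY (by omega)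
  have r := closed_row2 h
  have r' := closed_row2 h.swap
  simp only [GForm.swap_t, GForm.swap_s, GForm.swap_lam', GForm.swap_mu'] at r'
  have n := closed_row2_ne h
  have dne := XY_D_ne (by omega) hx hD
  have l := hx.lam1 (by omega)
  have l' := hx.swap.lam1 (by omega)
  have u := XY_mu1 (by omega) hx
  have u' := XY_mu1 (by omega) hx.swap
  simp only [GForm.swap_t, GForm.swap_s, GForm.swap_lam, GForm.swap_mu] at l' u'
  have s1 := g.s_sub_one (k := 1) (by omega) (by omega)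
  have s2 := g.s_ne 2 (by omega)
  rw [h1, h2] at l' u'
  rw [h1] at l u dne
  have el : g.lam' 1 = g.lam 1 := by
    have e : (g.s 1 - 1) * (g.s 1 * g.s 1 * X + Y) * (g.lam' 1 - g.lam 1) = 0 := by
      linear_combination l - l'
    rcases mul_eq_zero.1 e with e | e
    · exact absurd e (mul_ne_zero s1 dne)
    · exact sub_eq_zero.1 e
  have eu : g.mu' 1 = g.mu 1 := by
    have e : (g.s 1 - 1) * (g.s 1 * g.s 1 * X + Y) * g.s 2 * (g.mu' 1 - g.mu 1) = 0 := by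
      linear_combination u' - u
    rcases mul_eq_zero.1 e with e | e
    · exact absurd e (mul_ne_zero (mul_ne_zero s1 dne) s2)
    · exact sub_eq_zero.1 e
  rw [h1, h2, el, eu] at r
  rw [h1, el] at n
  have t4 := g.t_ne 4 (by omega)
  have s4 := g.s_ne 4 (by omega)
  have q : g.s 4 ^ 2 = g.t 4 ^ 2 := by
    apply mul_right_cancel₀ n
    rw [r, r']
  have c := h.corner (κ := 3) (by omega)
  have e4 : g.s 4 = g.t 4 := by
    have e : g.s 4 ^ 2 * (g.s 4 - g.t 4) = 0 := by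
      linear_combination (-(g.t 4)) * q - c
    rcases mul_eq_zero.1 e with e | e
    · exact absurd e (pow_ne_zero 2 s4)
    · exact sub_eq_zero.1 e
  refine ⟨e4, ?_⟩
  have mo := Pool.Agent.Helper36.IP.mono_closed h (n := 1) (by omega)
  simp only [pow_one, Nat.reduceAdd, h1, e4] at mo
  have s10 := g.s_ne 1 (by omega)
  apply mul_left_cancel₀ (mul_ne_zero s10 (pow_ne_zero 2 t4))
  linear_combination -mo

/-- level 2 in the letters `X, Y` -/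
theorem level2XY {g : GForm F m} (hm : 2 ≤ m) {X Y : F} (hx : g.XY X Y) :
    (g.t 2 = g.s 2 ∧ g.t 1 = g.s 1) ∨
    (g.t 2 = g.s 2 ∧ g.t 1 ≠ g.s 1 ∧ (g.t 2 - 1) * (g.t 2 * X + Y) = g.t 2) ∨
    (g.t 2 ≠ g.s 2 ∧
      (g.s 2 * g.t 1 - g.t 2) * (X - Y + 1) = (g.s 2 - 1) * (g.t 1 * g.t 2 * X - Y) ∧
      (g.t 2 * g.s 1 - g.s 2) * (X - Y + 1) = (g.t 2 - 1) * (g.s 1 * g.s 2 * X - Y)) := by
  obtain ⟨h1, h2⟩ := Pool.Agent.Helper14.IP.lin22 g hm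
  have hT1 := g.t_sub_one (k := 2) (by omega) hm
  have ht1 := g.t_sub_one (k := 1) (by omega) (by omega)
  have hTt : g.t 2 - g.t 1 ≠ 0 := sub_ne_zero.2 (g.t_inj 1 2 (by omega) (by omega)).symm
  have hSu : g.s 2 - g.s 1 ≠ 0 := sub_ne_zero.2 (g.s_inj 1 2 (by omega) (by omega)).symm
  have ex := hx.x
  have ey := hx.y
  by_cases hTS : g.t 2 = g.s 2
  · by_cases htu : g.t 1 = g.s 1
    · exact Or.inl ⟨hTS, htu⟩
    · right
      left
      refine ⟨hTS, htu, ?_⟩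
      rw [← hTS] at h1
      have h3 : (g.t 2 - 1) * (g.t 1 - g.s 1) * ((g.t 1 - 1) *
          ((g.t 2 - 1) * (g.t 2 * X + Y) - g.t 2)) = 0 := by
        linear_combination -h1 - (g.t 2 - 1) ^ 2 * (g.t 1 - g.s 1) * g.t 2 * ex
          - (g.t 2 - 1) ^ 2 * (g.t 1 - g.s 1) * ey
      have h4 := (mul_eq_zero.1 h3).resolve_left (mul_ne_zero hT1 (sub_ne_zero.2 htu))
      exact sub_eq_zero.1 ((mul_eq_zero.1 h4).resolve_left ht1)
  · right
    right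
    have hST : g.s 2 - g.t 2 ≠ 0 := sub_ne_zero.2 (Ne.symm hTS)
    refine ⟨hTS, ?_, ?_⟩
    · have h3 : (g.s 2 - g.t 2) * (g.s 2 - g.s 1) * ((g.t 1 - 1) *
          ((g.s 2 * g.t 1 - g.t 2) * (X - Y + 1) -
          (g.s 2 - 1) * (g.t 1 * g.t 2 * X - Y))) = 0 := by
        linear_combination g.s 2 * h1 - h2 - (g.s 2 - g.t 2) * (g.s 2 - g.s 1) *
          (g.s 2 * g.t 1 - g.t 2 - (g.s 2 - 1) * (g.t 1 * g.t 2)) * ex +
          (g.s 2 - g.t 2) * (g.s 2 - g.s 1) *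
          (g.s 2 * g.t 1 - g.t 2 - (g.s 2 - 1)) * ey
      have h4 := (mul_eq_zero.1 h3).resolve_left (mul_ne_zero hST hSu)
      exact sub_eq_zero.1 ((mul_eq_zero.1 h4).resolve_left ht1)
    · have h3 : (g.s 2 - g.t 2) * (g.t 2 - g.t 1) * ((g.t 1 - 1) *
          ((g.t 2 * g.s 1 - g.s 2) * (X - Y + 1) -
          (g.t 2 - 1) * (g.s 1 * g.s 2 * X - Y))) = 0 := by
        linear_combination g.t 2 * h1 - h2 - (g.s 2 - g.t 2) * (g.t 2 - g.t 1) *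
          (g.t 2 * g.s 1 - g.s 2 - (g.t 2 - 1) * (g.s 1 * g.s 2)) * ex +
          (g.s 2 - g.t 2) * (g.t 2 - g.t 1) *
          (g.t 2 * g.s 1 - g.s 2 - (g.t 2 - 1)) * ey
      have h4 := (mul_eq_zero.1 h3).resolve_left (mul_ne_zero hST hTt)
      exact sub_eq_zero.1 ((mul_eq_zero.1 h4).resolve_left ht1)

/-- level 2 of the reversal, `m = 4`, in the letters of `g` -/
theorem rev_level2 {g : GForm F 4} (h : g.Closed) {X Y : F} (hx : g.XY X Y) :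
    (g.s 4 = g.s 2 * g.t 2 ∧ g.s 4 = g.t 1 * g.s 3) ∨
    (g.s 4 = g.s 2 * g.t 2 ∧ g.s 4 ≠ g.t 1 * g.s 3 ∧
      (1 - g.t 2) * (-(g.t 1 * g.s 4 ^ 2 * X) - g.t 1 ^ 2 * g.t 2 * Y) =
        g.t 2 * g.s 4 * (1 + (g.t 1 - 1) * X * (g.s 4 - 1))) ∨
    (g.s 4 ≠ g.s 2 * g.t 2 ∧
      (g.s 2 * g.t 2 - g.t 1 * g.s 4) * (-(g.t 1 * g.s 4 ^ 2 * X) + g.t 1 ^ 2 * Y +
        g.s 4 * (1 + (g.t 1 - 1) * X * (g.s 4 - 1))) =
      (g.s 2 - g.s 4) * (-(g.t 1 * g.s 4 ^ 2 * X) + g.t 1 ^ 3 * g.t 2 * Y) ∧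
      (g.s 3 - g.s 2 * g.t 2) * (-(g.t 1 * g.s 4 ^ 2 * X) + g.t 1 ^ 2 * Y +
        g.s 4 * (1 + (g.t 1 - 1) * X * (g.s 4 - 1))) =
      (1 - g.t 2) * (-(g.t 1 * g.s 2 * g.s 3 * g.s 4 * X) + g.t 1 ^ 2 * g.s 4 * Y)) := by
  obtain ⟨X', Y', hx'⟩ := (g.rev h).exists_XY (by omega)
  obtain ⟨r1, r2⟩ := h.rev_XY (ι := 2) (by omega) hx hx'
  have l := level2XY (by omega) hx'
  have eG := hx.G1 (by omega) (k := 4) (by omega)
  have G0 := h.G_ne (j := 1) (by omega)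
  simp only [GForm.rev_t, GForm.rev_s, Nat.reduceSub] at l
  rw [← eG]
  have t1 := g.t_ne 1 (by omega)
  have t2 := g.t_ne 2 (by omega)
  have s4 := g.s_ne 4 (by omega)
  have c1 : (g.t 2)⁻¹ = g.s 2 / g.s 4 ↔ g.s 4 = g.s 2 * g.t 2 := by
    rw [inv_eq_one_div, div_eq_div_iff t2 s4, one_mul]
  have c2 : (g.t 1)⁻¹ = g.s 3 / g.s 4 ↔ g.s 4 = g.t 1 * g.s 3 := by
    rw [inv_eq_one_div, div_eq_div_iff t1 s4, one_mul, mul_comm (g.s 3)]
  rcases l with ⟨l1, l2⟩ | ⟨l1, l2, l3⟩ | ⟨l1, l2, l3⟩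
  · left
    exact ⟨c1.1 l1, c2.1 l2⟩
  · right
    left
    refine ⟨c1.1 l1, fun e => l2 (c2.2 e), ?_⟩
    field_simp at l3
    linear_combination (g.s 4 * g.G 1 4) * l3 - (1 - g.t 2) * g.s 4 * r1
      - (1 - g.t 2) * g.t 2 * r2
  · right
    right
    refine ⟨fun e => l1 (c1.2 e), ?_, ?_⟩
    · field_simp at l2
      linear_combination (g.s 4 * g.G 1 4) * l2 +
        (-(g.s 2 * g.t 2 - g.t 1 * g.s 4) * g.s 4 + (g.s 2 - g.s 4) * g.s 4) * r1 +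
        ((g.s 2 * g.t 2 - g.t 1 * g.s 4) - (g.s 2 - g.s 4) * g.t 1 * g.t 2) * r2
    · field_simp at l3
      linear_combination g.G 1 4 * l3 +
        (-(g.s 3 - g.t 2 * g.s 2) * g.s 4 + (1 - g.t 2) * g.s 3 * g.s 2) * r1 +
        ((g.s 3 - g.t 2 * g.s 2) - (1 - g.t 2) * g.s 4) * r2

end Pool.Agent.Helper82.IP
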