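import Pool.Agent.Helper82.IP.N5Base

/-!
TH-P phase 2, `m = 4` (pairs of dimension 5): the branch `t_2 = s_2`, `t_1 ≠ s_1` is empty
(`G 1 1 ≠ H 1 1` is not assumed).
-/

namespace Pool.Agent.Helper82.IP

open Pool.Agent.Helper54.IP

variable {F : Type*} [Field F] {m : ℕ}

/-- the branch C3: the two rows force `(b (b-1) X - 1) a + (b-1) (X+1) = 0` -/
theorem c3_row {g : GForm F m} (hm : 3 ≤ m) {X Y : F} (hx : g.XY X Y) (h2 : g.t 2 = g.s 2)
    (K : (g.t 2 - 1) * (g.t 2 * X + Y) = g.t 2) :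
    ((g.t 2 - 1) * g.t 2 * X - 1) * g.t 1 + (g.t 2 - 1) * (X + 1) = 0 ∧
      X * (g.s 3 - 1 - g.t 1 * (g.t 2 - 1)) = 1 := by
  have a0 := g.t_ne 1 (by omega)
  have a1 := g.t_sub_one (k := 1) (by omega) (by omega)
  have hk : g.kap 1 2 = 0 := by
    have e := kap2_eq (by omega) hx.x hx.y
    rw [← h2, K, sub_self, mul_zero] at e
    exact (mul_eq_zero.1 e).resolve_left (g.t_ne 2 (by omega))
  have g3 := hx.G1 (by omega) (k := 3) (by omega)
  have k3 := hx.H1 (by omega) (k := 3) (by omega)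
  have g2 := hx.G1 (by omega) (k := 2) (by omega)
  have u := g.G_succ (j := 1) (k := 2) (by omega) (by omega)
  have v := g.H_succ (j := 1) (k := 2) (by omega) (by omega)
  rw [hk, mul_zero, sub_zero] at u v
  norm_num at u v
  rw [← h2] at g2
  have hG : X * (g.s 3 - 1 - g.t 1 * (g.t 2 - 1)) = 1 := by
    apply mul_left_cancel₀ a1
    linear_combination u - g3 + g.t 1 * g2
  refine ⟨?_, hG⟩
  have hH : g.s 3 * (g.t 1 + 1) = g.t 1 * (g.s 3 - 1) * Y + g.s 3 * (g.t 2 - 1) * X := by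
    apply mul_left_cancel₀ (mul_ne_zero a0 a1)
    linear_combination g.s 3 * v - g.t 1 ^ 2 * k3 + g.t 1 * g.s 3 * g2
  have hs : g.s 3 - g.t 2 ≠ 0 := by
    rw [h2]
    exact sub_ne_zero.2 (g.s_inj 2 3 (by omega) (by omega)).symm
  apply mul_left_cancel₀ hs
  linear_combination (g.t 2 - 1) * hH + g.t 1 * (g.s 3 - 1) * K
    + g.t 2 * (g.t 2 - 1) * hG

/-- the branch C3 is empty for `m = 4` -/
theorem n5_c3_dead {g : GForm F 4} (h : g.Closed) {X Y : F} (hx : g.XY X Y)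
    (h2 : g.t 2 = g.s 2) (h1 : g.t 1 ≠ g.s 1)
    (K : (g.t 2 - 1) * (g.t 2 * X + Y) = g.t 2) : False := by
  obtain ⟨e1, f1⟩ := c3_row (by omega) hx h2 K
  obtain ⟨e2, f2⟩ := c3_row (g := g.swap) (by omega) hx.swap h2.symm
    (by simp only [GForm.swap_t]; rw [← h2]; exact K)
  simp only [GForm.swap_t, GForm.swap_s] at e2 f2
  rw [← h2] at e2 f2
  have b1 := g.t_sub_one (k := 2) (by omega) (by omega)
  have hb : (g.t 2 - 1) * g.t 2 * X - 1 = 0 := by
    have e : (g.t 1 - g.s 1) * ((g.t 2 - 1) * g.t 2 * X - 1) = 0 := by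
      linear_combination e1 - e2
    exact (mul_eq_zero.1 e).resolve_left (sub_ne_zero.2 h1)
  have hX : X = -1 := by
    rw [hb, zero_mul, zero_add] at e1
    linear_combination (mul_eq_zero.1 e1).resolve_left b1
  subst hX
  have hs3 : g.s 3 = g.t 1 * (g.t 2 - 1) := by linear_combination -f1
  have ht3 : g.t 3 = g.s 1 * (g.t 2 - 1) := by linear_combination -f2
  have hY : Y = 1 := by
    apply mul_left_cancel₀ b1
    linear_combination K - hb
  subst hY
  have c := h.cX (ι := 2) (by omega) hx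
  have c' := h.cX' (ι := 2) (by omega) hx
  have a1 := g.t_sub_one (k := 1) (by omega) (by omega)
  have u1 := g.s_sub_one (k := 1) (by omega) (by omega)
  have q1 : g.s 4 ^ 2 + g.t 1 * g.s 4 + g.t 1 ^ 2 = 0 := by
    apply mul_left_cancel₀ a1
    linear_combination -c
  have q2 : g.t 4 ^ 2 + g.s 1 * g.t 4 + g.s 1 ^ 2 = 0 := by
    apply mul_left_cancel₀ u1
    linear_combination -c'
  have q3 : g.s 3 ^ 2 + g.t 1 * g.s 3 + g.t 1 ^ 2 = 0 := by
    rw [hs3]
    linear_combination (-(g.t 1 ^ 2)) * hb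
  have n34 : g.s 3 - g.s 4 ≠ 0 := sub_ne_zero.2 (g.s_inj 3 4 (by omega) (by omega))
  have n13 : g.s 1 - g.s 3 ≠ 0 := sub_ne_zero.2 (g.s_inj 1 3 (by omega) (by omega))
  have n14 : g.s 1 - g.s 4 ≠ 0 := sub_ne_zero.2 (g.s_inj 1 4 (by omega) (by omega))
  have r : g.s 3 + g.s 4 + g.t 1 = 0 := by
    apply mul_left_cancel₀ n34
    linear_combination q3 - q1
  have k := h.corner (κ := 3) (by omega)
  have p : g.t 1 ^ 3 = g.s 1 ^ 3 := by
    linear_combination (g.t 1 - g.s 4) * q1 - (g.s 1 - g.t 4) * q2 - k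
  have p2 : g.t 1 ^ 2 + g.t 1 * g.s 1 + g.s 1 ^ 2 = 0 := by
    apply mul_left_cancel₀ (sub_ne_zero.2 h1)
    linear_combination p
  apply mul_ne_zero n13 n14
  linear_combination p2 - g.s 1 * r + g.s 4 * r - q1

end Pool.Agent.Helper82.IP
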