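import Pool.Agent.Helper82.IP.N5Phi
import Pool.Agent.Helper82.IP.N5List

/-!
TH-P phase 2, `m = 4` (pairs of dimension 5): a closed corner with equal sequences is in the main
family or in the list D5L.
-/

namespace Pool.Agent.Helper82.IP

open Pool.Agent.Helper54.IP Pool.Agent.Helper36.IP

variable {F : Type*} [Field F]

theorem d5_list {g : GForm F 4} (h : g.Closed) (D : Dg g)
    (hm : ¬ (∀ i, i ≤ 4 → g.t i = g.t 1 ^ i)) {f : ℕ → F} (hf : g.IsPhi f) : D5L g.t g.s f := by
  obtain ⟨X, Y, hx⟩ := g.exists_XY (by omega)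
  have e := D.e
  have DX := D.c.resolve_left hm X Y hx
  have e1 := e 1 (by omega)
  have e2 := e 2 (by omega)
  have e3 := e 3 (by omega)
  have e4 := e 4 (by omega)
  obtain ⟨p1, p2, p3, p4⟩ := d5_phi2 h hx e1 e2 e3 e4 DX hf
  have q := DX.q
  have r := DX.r
  have x := DX.x
  have y := DX.y
  have a0 := g.t_ne 1 (by omega)
  have b0 := g.t_ne 2 (by omega)
  have c0 := g.t_ne 3 (by omega)
  have d0 := g.t_ne 4 (by omega)
  have a1 := g.t_sub_one (k := 1) (by omega) (by omega)
  have b1 := g.t_sub_one (k := 2) (by omega) (by omega)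
  have c1 := g.t_sub_one (k := 3) (by omega) (by omega)
  have d1 := g.t_sub_one (k := 4) (by omega) (by omega)
  have X0 := hx.X_ne (by omega)
  have Y0 := hx.Y_ne (by omega)
  have hcd : g.t 3 + g.t 4 ≠ 0 := by
    intro e
    rw [e] at x
    apply mul_ne_zero a0 c0
    linear_combination -x - e
  have hP := mul_ne_zero hcd d1
  have fne : ∀ k, k < 4 → f (k + 1) ≠ 0 := by
    intro k hk e0
    have e5 := hf k hk
    rw [e0, zero_mul] at e5
    refine (Finset.prod_ne_zero_iff.2 ?_) e5.symm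
    intro l hl
    rw [Finset.mem_range] at hl
    exact sub_ne_zero.2 (g.s_inj l (k + 1) hl (by omega)).symm
  refine ⟨g.t0, g.s0, e1, e2, e3, e4, a0, b0, c0, d0, sub_ne_zero.1 a1, sub_ne_zero.1 b1,
    sub_ne_zero.1 c1, sub_ne_zero.1 d1, g.t_inj 1 2 (by omega) (by omega),
    g.t_inj 1 3 (by omega) (by omega), g.t_inj 1 4 (by omega) (by omega),
    g.t_inj 2 3 (by omega) (by omega), g.t_inj 2 4 (by omega) (by omega),
    g.t_inj 3 4 (by omega) (by omega), q, r, hcd, ?_, ?_, ?_, ?_, ?_, p1, ?_, ?_, p4,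
    fne 1 (by omega), fne 2 (by omega)⟩
  · rw [← x]
    exact mul_ne_zero X0 hP
  · intro e0
    rw [e0, mul_zero] at y
    exact mul_ne_zero Y0 (mul_ne_zero a0 hP) y
  · intro e0
    have k := k13_ne h hx
    rw [e3] at k
    apply mul_ne_zero hP k
    linear_combination (g.t 3 - 1) * g.t 3 * x + (g.t 3 - 1) * y +
      (g.t 3 ^ 3 - g.t 4 ^ 2) * e0
  · intro e0
    apply g.lm_ne 0 (by omega)
    have x' := hx.x'
    have y' := hx.y'
    rw [e1] at x' y'
    apply mul_left_cancel₀ (mul_ne_zero (pow_ne_zero 2 a0) hP)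
    linear_combination (-(g.t 1 ^ 2 * ((g.t 3 + g.t 4) * (g.t 4 - 1)))) * x' -
      (g.t 1 * ((g.t 3 + g.t 4) * (g.t 4 - 1))) * y' - (g.t 1 ^ 2 * (g.t 1 - 1)) * x
      - (g.t 1 - 1) * y + (g.t 4 - g.t 1 ^ 3) * e0
  · intro hd
    have main : (g.t 2 = g.t 1 ^ 2 ∧ g.t 3 = g.t 1 ^ 3 ∧ g.t 4 = g.t 1 ^ 4) → False := by
      intro hm'
      apply hm
      intro i hi
      interval_cases i
      · rw [g.t0, pow_zero]
      · rw [pow_one]
      · exact hm'.1
      · exact hm'.2.1
      · exact hm'.2.2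
    have hd' : g.s 4 = g.s 2 * g.t 2 := by
      rw [e4, e2, ← hd]
      ring
    have rt : (g.rev h).t 2 = (g.rev h).s 2 := by
      simp only [GForm.rev_t, GForm.rev_s, Nat.reduceSub]
      rw [hd', e2]
      field_simp
    obtain ⟨X', Y', hx'⟩ := (g.rev h).exists_XY (by omega)
    have hac : g.t 4 = g.t 1 * g.t 3 := by
      rcases level2XY (by omega) hx' with ⟨l1, l2⟩ | ⟨l1, l2, l3⟩ | ⟨l1, -, -⟩
      · simp only [GForm.rev_t, GForm.rev_s, Nat.reduceSub] at l2
        rw [e3, e4] at l2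
        field_simp at l2
        linear_combination l2
      · exact (n5_c3_dead h.rev hx' l1 l2 l3).elim
      · exact absurd rt l1
    by_cases hD : g.G 1 1 = g.H 1 1
    · obtain ⟨-, z2, -⟩ := Pool.Agent.Helper76.IP.z1_col2 g (by omega) hD
      rw [e2] at z2
      apply g.t_inj 1 3 (by omega) (by omega)
      apply mul_left_cancel₀ a0
      rw [z2] at hd
      linear_combination hd + hac
    · exact main (n5_diag_ac h hD e1.symm e2.symm hx hac)
  · rw [p2, pf2]
  · rw [p3, pf3]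

end Pool.Agent.Helper82.IP
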