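import Pool.Agent.Helper82.IP.N5Base
import Pool.Agent.Helper82.IP.N5Alg

/-!
TH-P phase 2, `m = 4` (pairs of dimension 5): the diagonal branch `t_1 = s_1`, `t_2 = s_2`.
The pair is the main family or the family D5.
-/

namespace Pool.Agent.Helper82.IP

open Pool.Agent.Helper54.IP

variable {F : Type*} [Field F]

/-- the diagonal branch, `t_4 = t_1 t_3`: the main family -/
theorem n5_diag_ac {g : GForm F 4} (h : g.Closed) (hD : g.G 1 1 ≠ g.H 1 1)
    (h1 : g.t 1 = g.s 1) (h2 : g.t 2 = g.s 2) {X Y : F} (hx : g.XY X Y)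
    (hac : g.t 4 = g.t 1 * g.t 3) :
    g.t 2 = g.t 1 ^ 2 ∧ g.t 3 = g.t 1 ^ 3 ∧ g.t 4 = g.t 1 ^ 4 := by
  obtain ⟨e4, e3⟩ := diag_eq h hD h1 h2
  have a0 := g.t_ne 1 (by omega)
  have b0 := g.t_ne 2 (by omega)
  have c0 := g.t_ne 3 (by omega)
  have d0 := g.t_ne 4 (by omega)
  have a1 := g.t_sub_one (k := 1) (by omega) (by omega)
  have b1 := g.t_sub_one (k := 2) (by omega) (by omega)
  have c1 := g.t_sub_one (k := 3) (by omega) (by omega)
  have d1 := g.t_sub_one (k := 4) (by omega) (by omega)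
  have X0 := hx.X_ne (by omega)
  have hxx := hx.x
  have hyy := hx.y
  have C := h.cX (ι := 2) (by omega) hx
  have C' : (g.t 4 - 1) * (g.t 4 * X + g.t 1 ^ 2 * Y) =
      g.t 4 * (g.t 1 ^ 2 + g.t 1 + 1) := by
    apply mul_left_cancel₀ a1
    rw [e4] at C
    linear_combination C
  have R := closed_R2 h hx
  rw [e4, ← h1] at R
  have L := rev_level2 h hx
  rw [e4, e3, ← h2] at L
  have dcd : g.t 3 - g.t 4 ≠ 0 := sub_ne_zero.2 (g.t_inj 3 4 (by omega) (by omega))
  have dbd : g.t 2 - g.t 4 ≠ 0 := sub_ne_zero.2 (g.t_inj 2 4 (by omega) (by omega))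
  have dab : g.t 2 - g.t 1 ≠ 0 := sub_ne_zero.2 (g.t_inj 1 2 (by omega) (by omega)).symm
  have hkap : g.kap 1 2 = 0 → (g.t 2 - 1) * (g.t 2 * X + Y) = g.t 2 := by
    intro hk
    have e := kap2_eq (by omega) hx.x hx.y
    rw [hk, mul_zero, ← h2] at e
    have e' := (mul_eq_zero.1 e.symm).resolve_left (mul_ne_zero a0 a1)
    linear_combination e'
  have hmain : g.t 2 = g.t 1 ^ 2 → g.t 4 = g.t 2 ^ 2 →
      g.t 2 = g.t 1 ^ 2 ∧ g.t 3 = g.t 1 ^ 3 ∧ g.t 4 = g.t 1 ^ 4 := by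
    intro hb hd
    have hd' : g.t 4 = g.t 1 ^ 4 := by rw [hd, hb]; ring
    refine ⟨hb, ?_, hd'⟩
    apply mul_left_cancel₀ a0
    rw [← hac, hd']
    ring
  rcases L with ⟨l1, -⟩ | ⟨-, l2, -⟩ | ⟨l1, l2, l3⟩
  · -- the reversal is diagonal
    have hd : g.t 4 = g.t 2 ^ 2 := by rw [l1]; ring
    obtain ⟨X', Y', hx'⟩ := (g.rev h).exists_XY (by omega)
    obtain ⟨r1, r2⟩ := h.rev_XY (ι := 2) (by omega) hx hx'
    have R' := closed_R2 h.rev hx'
    simp only [GForm.rev_t, GForm.rev_s, Nat.reduceSub, Nat.sub_self, g.s0] at R'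
    have e5 : g.s 3 / g.s 4 = (g.t 1)⁻¹ := by
      rw [e3, e4, hac]
      field_simp
    rw [e5, e4, hd] at R'
    rw [e4, hd] at r1 r2
    have eG := hx.G1 (by omega) (k := 4) (by omega)
    rw [e4, hd] at eG
    have R'' := n5_rev_R2 a0 b0 r1 r2 eG R'
    rw [hd] at C' R d1
    refine hmain (n5_B0 a0 b0 b1 ?_ X0 ?_ C' R R'') hd
    · intro e
      apply d1
      linear_combination (g.t 2 - 1) * e
    · intro e
      apply mul_ne_zero a0 c1
      linear_combination e + hd - hac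
  · exact absurd hac l2
  · exfalso
    have hbd : g.t 2 ^ 2 - g.t 4 ≠ 0 := by
      intro e
      apply l1
      linear_combination -e
    obtain ⟨m3, mX, mY⟩ := n5_BN a0 c0 d0 d1 hac hbd C' l2 l3
    have dbd' : g.t 1 * g.t 3 ≠ g.t 2 := by
      rw [← hac]
      exact g.t_inj 2 4 (by omega) (by omega) |>.symm
    by_cases hk : g.kap 1 2 = 0
    · have g3 := hx.G1 (by omega) (k := 3) (by omega)
      have k3 := hx.H1 (by omega) (k := 3) (by omega)
      have g2 := hx.G1 (by omega) (k := 2) (by omega)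
      have u := g.G_succ (j := 1) (k := 2) (by omega) (by omega)
      have v := g.H_succ (j := 1) (k := 2) (by omega) (by omega)
      rw [hk, mul_zero, sub_zero] at u v
      norm_num at u v
      rw [e3] at g3 k3
      rw [← h2] at g2
      refine n5_BK a0 b1 a1 dbd' m3 mX mY (hkap hk) ?_ ?_
      · rw [← g3, ← g2, u]
      · rw [← g2]
        apply mul_left_cancel₀ a0
        linear_combination g.t 3 * v - g.t 1 ^ 2 * k3
    · rcases Pool.Agent.Helper16.IP.lev3 g (by omega) h1 h2 hk with ⟨l4, l5⟩ | ⟨_, l5, _⟩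
      · rw [e3] at l4
        rcases l5 with l5 | l5
        · apply hbd
          rw [hac, l4, l5]
          ring
        · refine n5_BM a0 b0 dab l4 mX mY ?_
          have g3 := hx.G1 (by omega) (k := 3) (by omega)
          have k3 := hx.H1 (by omega) (k := 3) (by omega)
          rw [GForm.kap] at l5
          rw [e3] at g3 k3
          apply mul_left_cancel₀ (mul_ne_zero a0 a1)
          linear_combination g.t 3 * l5 - g.t 1 * g.t 3 * g3 + g.t 1 ^ 2 * k3
      · rw [Pool.Agent.Helper16.IP.LL, e3] at l5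
        have l6 := n5_BL a1 c1 mY hxx hyy l5
        have l7 := hx.swap.lam1 (by omega)
        simp only [GForm.swap_t, GForm.swap_s, GForm.swap_lam] at l7
        have l8 : (1 - g.lam' 1) * ((g.t 1 - 1) * (g.s 1 * g.t 1 * X + Y)) = 0 := by
          linear_combination l7 + l6
        have n1 : 1 - g.lam' 1 ≠ 0 := sub_ne_zero.2 (g.lam'_ne 1 (by omega)).symm
        have n2 := XY_D_ne (by omega) hx hD
        rw [mul_comm (g.t 1)] at n2
        exact mul_ne_zero n1 (mul_ne_zero a1 n2) l8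

theorem n5_diag {g : GForm F 4} (h : g.Closed) (hD : g.G 1 1 ≠ g.H 1 1)
    (h1 : g.t 1 = g.s 1) (h2 : g.t 2 = g.s 2) {X Y : F} (hx : g.XY X Y) :
    (g.s 3 = g.t 3 ∧ g.s 4 = g.t 4) ∧
    ((g.t 2 = g.t 1 ^ 2 ∧ g.t 3 = g.t 1 ^ 3 ∧ g.t 4 = g.t 1 ^ 4) ∨
      (X * ((g.t 3 + g.t 4) * (g.t 4 - 1)) = g.t 4 + (g.t 1 + 1) * g.t 3 ∧
        Y * (g.t 1 * ((g.t 3 + g.t 4) * (g.t 4 - 1))) =
          g.t 4 * (g.t 1 * g.t 3 + g.t 1 * g.t 4 + g.t 4) ∧
        Q5 (g.t 1) (g.t 2) (g.t 3) (g.t 4) = 0 ∧ R5 (g.t 1) (g.t 2) (g.t 3) (g.t 4) = 0)) := by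
  obtain ⟨e4, e3⟩ := diag_eq h hD h1 h2
  refine ⟨⟨e3, e4⟩, ?_⟩
  have a0 := g.t_ne 1 (by omega)
  have b0 := g.t_ne 2 (by omega)
  have c0 := g.t_ne 3 (by omega)
  have d0 := g.t_ne 4 (by omega)
  have a1 := g.t_sub_one (k := 1) (by omega) (by omega)
  have b1 := g.t_sub_one (k := 2) (by omega) (by omega)
  have c1 := g.t_sub_one (k := 3) (by omega) (by omega)
  have d1 := g.t_sub_one (k := 4) (by omega) (by omega)
  have X0 := hx.X_ne (by omega)
  have hxx := hx.x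
  have hyy := hx.y
  have C := h.cX (ι := 2) (by omega) hx
  have C' : (g.t 4 - 1) * (g.t 4 * X + g.t 1 ^ 2 * Y) =
      g.t 4 * (g.t 1 ^ 2 + g.t 1 + 1) := by
    apply mul_left_cancel₀ a1
    rw [e4] at C
    linear_combination C
  have R := closed_R2 h hx
  rw [e4, ← h1] at R
  have L := rev_level2 h hx
  rw [e4, e3, ← h2] at L
  have dcd : g.t 3 - g.t 4 ≠ 0 := sub_ne_zero.2 (g.t_inj 3 4 (by omega) (by omega))
  have dbd : g.t 2 - g.t 4 ≠ 0 := sub_ne_zero.2 (g.t_inj 2 4 (by omega) (by omega))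
  have dab : g.t 2 - g.t 1 ≠ 0 := sub_ne_zero.2 (g.t_inj 1 2 (by omega) (by omega)).symm
  have hkap : g.kap 1 2 = 0 → (g.t 2 - 1) * (g.t 2 * X + Y) = g.t 2 := by
    intro hk
    have e := kap2_eq (by omega) hx.x hx.y
    rw [hk, mul_zero, ← h2] at e
    have e' := (mul_eq_zero.1 e.symm).resolve_left (mul_ne_zero a0 a1)
    linear_combination e'
  by_cases hac : g.t 4 = g.t 1 * g.t 3
  · exact Or.inl (n5_diag_ac h hD h1 h2 hx hac)
  · right
    obtain ⟨z, hz⟩ : ∃ z, g.s 3 = z * g.s 4 :=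
      ⟨g.s 3 / g.s 4, by rw [e4]; field_simp⟩
    have E := h.E1 (ι := 2) (by omega) hx hz
    rw [hx.G1 (by omega) (by omega), e4] at E
    rw [e3, e4] at hz
    have z1 : z - 1 ≠ 0 := by
      intro e
      apply dcd
      rw [hz]
      linear_combination g.t 4 * e
    obtain ⟨hX, hY⟩ := n5_XY a0 d0 hz z1 hac C' (by linear_combination E)
    have hcd : g.t 3 + g.t 4 ≠ 0 := by
      intro e
      rw [e] at hX
      apply mul_ne_zero a0 c0
      linear_combination -hX - e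
    refine ⟨hX, hY, ?_⟩
    rcases L with ⟨-, l2⟩ | ⟨l1, l2, l3⟩ | ⟨l1, l2, l3⟩
    · exact absurd l2 hac
    · have hd : g.t 4 = g.t 2 ^ 2 := by rw [l1]; ring
      obtain ⟨hc, hb | hq⟩ := n5_AC a0 b0 b1 hcd d1 hd hX hY l3 R
      · exfalso
        rw [hb] at hc hd b1
        rw [hc, hd] at hX hY
        obtain ⟨p1, p2⟩ := n5_AD a0 a1 b1 hX hY hxx hyy
        have hk : g.kap 1 2 ≠ 0 := by
          intro hk
          have := hkap hk
          rw [hb] at this
          exact p1 this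
        rcases Pool.Agent.Helper16.IP.lev3 g (by omega) h1 h2 hk with ⟨l4, -⟩ | ⟨l4, -, l6⟩
        · apply hac
          rw [e3, hb] at l4
          rw [hd, l4]
          ring
        · rw [Pool.Agent.Helper16.IP.TT, e3, hb, hc] at l6
          apply l4
          rw [e3, hc, hb]
          exact p2 l6
      · exact hq
    · exact n5_AN a0 d0 dbd dab X0 hcd d1 hX hY l2 l3 R

end Pool.Agent.Helper82.IP
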