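import Pool.Agent.Helper82.IP.N5D5
import Pool.Agent.Helper16.IP.RevPhi

/-!
TH-P phase 2, `m = 4` (pairs of dimension 5): the complete elimination in terms of parameter
arrays: main, D5, the reversal of D5, or W5.
-/

namespace Pool.Agent.Helper82.IP

open Pool.Agent.Helper54.IP Pool.Agent.Helper36.IP

variable {F : Type*} [Field F]

/-- **the pairs of dimension 5.** -/
theorem n5_lists {g : GForm F 4} (h : g.Closed) {f : ℕ → F} (hf : g.IsPhi f) :
    (∀ i, i ≤ 4 → g.t i = g.t 1 ^ i ∧ g.s i = g.t 1 ^ i) ∨ D5L g.t g.s f ∨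
      D5L (g.rev h).t (g.rev h).s (Pool.Agent.Helper16.IP.revF 4 g.t g.s f) ∨ W5 g := by
  rcases n5_elim h with D | D | w
  · by_cases hm : ∀ i, i ≤ 4 → g.t i = g.t 1 ^ i
    · left
      intro i hi
      exact ⟨hm i hi, by rw [D.e i hi, hm i hi]⟩
    · exact Or.inr (Or.inl (d5_list h D hm hf))
  · by_cases hm : ∀ i, i ≤ 4 → (g.rev h).t i = (g.rev h).t 1 ^ i
    · left
      have ht : ∀ i, i ≤ 4 → g.t i = g.t 1 ^ i := by
        intro i hi
        have e := hm i hi
        simp only [GForm.rev_t, inv_pow] at e
        exact inv_injective e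
      have hs : ∀ i, i ≤ 4 → g.s (4 - i) * g.t i = g.s 4 := by
        intro i hi
        have e := D.e i hi
        simp only [GForm.rev_t, GForm.rev_s] at e
        have t0 := g.t_ne i hi
        have s4 := g.s_ne 4 (by omega)
        field_simp at e
        exact e
      have t1 := g.t_ne 1 (by omega)
      have s4 : g.s 4 = g.t 1 ^ 4 := by
        have e := hs 4 (by omega)
        rw [Nat.sub_self, g.s0, one_mul, ht 4 (by omega)] at e
        exact e.symm
      intro i hi
      refine ⟨ht i hi, ?_⟩
      have e := hs (4 - i) (by omega)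
      rw [ht (4 - i) (by omega), s4, Nat.sub_sub_self hi] at e
      apply mul_right_cancel₀ (pow_ne_zero (4 - i) t1)
      rw [e, ← pow_add]
      congr 1
      omega
    · right; right; left
      exact d5_list h.rev D hm (Pool.Agent.Helper16.IP.isPhi_rev h hf)
  · exact Or.inr (Or.inr (Or.inr w))

end Pool.Agent.Helper82.IP
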