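import Pool.Agent.Helper82.IP.N5Diag
import Pool.Agent.Helper82.IP.N5C3
import Pool.Agent.Helper76.IP.ZRev
import Pool.Agent.Helper36.IP.N5

/-!
TH-P phase 2, `m = 4` (pairs of dimension 5): type Z and the complete elimination.
-/

namespace Pool.Agent.Helper82.IP

open Pool.Agent.Helper54.IP Pool.Agent.Helper36.IP

variable {F : Type*} [Field F]

/-- the family D5: `t = s = (1, a, b, c, d)` and the letters `X, Y`. -/
structure D5X (a b c d X Y : F) : Prop where
  x : X * ((c + d) * (d - 1)) = d + (a + 1) * c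
  y : Y * (a * ((c + d) * (d - 1))) = d * (a * c + a * d + d)
  q : (1 - b) * (d - a ^ 2 * c) + (a - c) * (d - a * b) = 0
  r : (d - b) * (d ^ 2 - a * c ^ 2) + d * (c - a) * (d - b * c) = 0

/-- type Z, `d ≠ a c` : the two closure relations -/
theorem n5_z_alg {a c d X : F} (ha : a ≠ 0) (hz : X * (1 + a * a) = -1)
    (hx : X * ((c + d) * (d - 1)) = d + (a + 1) * c) (hr : d ^ 2 = a ^ 2 * c)
    (C : (d - 1) * (d * X + a ^ 2 * (-(a * a) * X)) = d * (a ^ 2 + a + 1)) :
    (1 - -a) * (d - a ^ 2 * c) + (a - c) * (d - a * -a) = 0 := by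
  have T : (c + d) * (d - 1) + (1 + a * a) * (d + (a + 1) * c) = 0 := by
    linear_combination (c + d) * (d - 1) * hz - (1 + a * a) * hx
  have C1 : (d - 1) * (a ^ 4 - d) - d * (a ^ 2 + a + 1) * (1 + a * a) = 0 := by
    linear_combination (1 + a * a) * C - (d - 1) * (d - a ^ 4) * hz
  apply mul_left_cancel₀ ha
  linear_combination (-a) * T - C1 + (a - 1) * hr

/-- type Z corners with equal sequences are of type D5 -/
theorem n5_z_diag {g : GForm F 4} (h : g.Closed) (hZ : g.G 1 1 = g.H 1 1)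
    (e1 : g.s 1 = g.t 1) (e2 : g.s 2 = g.t 2) (e3 : g.s 3 = g.t 3) (e4 : g.s 4 = g.t 4)
    {X Y : F} (hx : g.XY X Y) : D5X (g.t 1) (g.t 2) (g.t 3) (g.t 4) X Y := by
  have a0 := g.t_ne 1 (by omega)
  have b0 := g.t_ne 2 (by omega)
  have c0 := g.t_ne 3 (by omega)
  have d0 := g.t_ne 4 (by omega)
  have a1 := g.t_sub_one (k := 1) (by omega) (by omega)
  have c1 := g.t_sub_one (k := 3) (by omega) (by omega)
  have d1 := g.t_sub_one (k := 4) (by omega) (by omega)
  have dac : g.t 1 - g.t 3 ≠ 0 := sub_ne_zero.2 (g.t_inj 1 3 (by omega) (by omega))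
  have dab : g.t 1 - g.t 2 ≠ 0 := sub_ne_zero.2 (g.t_inj 1 2 (by omega) (by omega))
  have dcd : g.t 3 - g.t 4 ≠ 0 := sub_ne_zero.2 (g.t_inj 3 4 (by omega) (by omega))
  obtain ⟨z1, z2, z3⟩ := Pool.Agent.Helper76.IP.z1_col2 g (by omega) hZ
  rw [e2] at z2
  rw [e1] at z1 z3
  have hX : X * (1 + g.t 1 * g.t 1) = -1 := by
    apply mul_left_cancel₀ a1
    linear_combination z3 - (1 + g.t 1 * g.t 1) * hx.x
  have hY : Y = -(g.t 1 * g.t 1) * X := by
    apply mul_left_cancel₀ a1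
    linear_combination g.t 1 * z1 - hx.y - g.t 1 * g.t 1 * hx.x
  -- the reversal
  have hD := Pool.Agent.Helper76.IP.z_rev_ne g h (by omega) hZ
  have hk : (g.rev h).kap 1 2 = 0 := by
    rw [Pool.Agent.Helper76.IP.rev_kap_iff' g h (j := 1) (k := 2) (κ := 1) (by omega) (by omega),
      GForm.kap, hZ, pow_one, sub_self]
  have hrel : g.t 4 ^ 2 = g.t 1 ^ 2 * g.t 3 := by
    rcases Pool.Agent.Helper14.IP.level2 (g.rev h) (by omega) hD with
      ⟨l1, l2⟩ | ⟨l1, l2, l3⟩ | ⟨l1, l2, l3⟩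
    · exfalso
      simp only [GForm.rev_t, GForm.rev_s, Nat.reduceSub] at l1 l2
      rw [e2, e4] at l1
      rw [e3, e4] at l2
      field_simp at l1 l2
      apply mul_ne_zero a0 dac
      have : g.t 1 * g.t 1 = g.t 4 := by
        rw [l1, z2]
        ring
      rw [l2] at this
      linear_combination this
    · exfalso
      obtain ⟨X', Y', hx'⟩ := (g.rev h).exists_XY (by omega)
      refine n5_c3_dead h.rev hx' l1 l2 ?_
      have t1 := (g.rev h).t_sub_one (k := 1) (by omega) (by omega)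
      apply mul_left_cancel₀ t1
      linear_combination l3 - ((g.rev h).t 2 - 1) * (g.rev h).t 2 * hx'.x
        - ((g.rev h).t 2 - 1) * hx'.y
    · have hk' : (g.rev h).swap.kap 1 2 ≠ 0 := fun hk' =>
        n5_kk h.rev hD l1 l2 l3 hk hk'
      obtain ⟨v, D⟩ := Pool.Agent.Helper27.IP.k2_data (g.rev h) (by omega) hD l2 l3 hk
      have hS := D.hS
      simp only [GForm.rev_t, GForm.rev_s, Nat.reduceSub] at hS
      rcases D.step2 (by omega) hD hk' (n5_kap3 h.rev.swap) with ⟨q1, q2⟩ | ⟨q1, -⟩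
      · simp only [GForm.rev_t, GForm.rev_s, Nat.reduceSub] at q2
        rw [e2, e4, z2] at q2
        field_simp at q2
        linear_combination q2
      · exfalso
        simp only [GForm.rev_t, GForm.rev_s, Nat.reduceSub] at q1
        rw [e2, e3, e4] at q1
        field_simp at q1
        apply dab
        linear_combination q1
  have hac : g.t 4 ≠ g.t 1 * g.t 3 := by
    intro e
    rw [e] at hrel
    apply mul_ne_zero (mul_ne_zero (pow_ne_zero 2 a0) c0) c1
    linear_combination hrel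
  have C := h.cX (ι := 2) (by omega) hx
  have C' : (g.t 4 - 1) * (g.t 4 * X + g.t 1 ^ 2 * Y) =
      g.t 4 * (g.t 1 ^ 2 + g.t 1 + 1) := by
    apply mul_left_cancel₀ a1
    rw [e4] at C
    linear_combination C
  obtain ⟨z, hz⟩ : ∃ z, g.s 3 = z * g.s 4 :=
    ⟨g.s 3 / g.s 4, by rw [e4]; field_simp⟩
  have E := h.E1 (ι := 2) (by omega) hx hz
  rw [hx.G1 (by omega) (by omega), e4] at E
  rw [e3, e4] at hz
  have z1' : z - 1 ≠ 0 := by
    intro e
    apply dcd
    rw [hz]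
    linear_combination g.t 4 * e
  obtain ⟨hX', hY'⟩ := n5_XY a0 d0 hz z1' hac C' (by linear_combination E)
  refine ⟨hX', hY', ?_, ?_⟩
  · rw [z2]
    rw [hY] at C'
    exact n5_z_alg a0 hX hX' hrel C'
  · rw [z2]
    linear_combination (g.t 3 + g.t 4) * hrel

theorem w5_of_rev {g : GForm F 4} {h : g.Closed} (w : W5 (g.rev h)) : W5 g := by
  obtain ⟨t2, t3, t4, s2, s3, s4, q, r⟩ := w
  simp only [GForm.rev_t, GForm.rev_s, Nat.reduceSub, Nat.sub_self, g.s0] at t2 t3 t4 s2 s3 s4 q r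
  have a0 := g.t_ne 1 (by omega)
  have d0 := g.s_ne 4 (by omega)
  have b0 := g.t_ne 2 (by omega)
  have c0 := g.t_ne 3 (by omega)
  have e0 := g.t_ne 4 (by omega)
  have f0 := g.s_ne 3 (by omega)
  have hs4 : g.s 4 = g.t 1 ^ 2 := by
    field_simp at s4
    exact s4.symm
  rw [hs4] at t2 t3 t4 s2 s3 q r
  have hs2 : g.s 2 = -g.t 1 := by
    field_simp at s2
    linear_combination s2
  have hs1 : g.s 1 = g.t 1 - g.s 3 := by
    field_simp at s3
    linear_combination s3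
  have q' : g.t 1 ^ 2 - g.t 1 * g.s 3 + g.s 3 ^ 2 = 0 := by
    field_simp at q
    linear_combination q
  have ht2 : g.t 2 * g.s 3 = -g.t 1 ^ 2 := by
    field_simp at t2
    linear_combination t2
  have t2' : g.t 2 = -g.s 1 := by
    apply mul_right_cancel₀ f0
    rw [hs1]
    linear_combination ht2 - q'
  have ht3 : g.t 3 * (g.s 3 - g.t 1) = g.t 1 ^ 2 := by
    field_simp at t3
    linear_combination -t3
  have t3' : g.t 3 = g.s 1 - g.t 1 := by
    have n : g.s 3 - g.t 1 ≠ 0 := by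
      intro e
      rw [e, mul_zero] at ht3
      exact pow_ne_zero 2 a0 ht3.symm
    apply mul_right_cancel₀ n
    rw [hs1]
    linear_combination ht3 + q'
  have ht4 : g.t 4 * g.s 3 ^ 2 = g.t 1 ^ 4 := by
    field_simp at t4
    linear_combination -t4
  have t4' : g.t 4 = g.s 1 ^ 2 := by
    apply mul_right_cancel₀ (pow_ne_zero 2 f0)
    rw [hs1]
    linear_combination ht4 + (g.t 1 ^ 2 + g.t 1 * g.s 3 - g.s 3 ^ 2) * q'
  have hr : g.s 3 + 2 * g.t 1 ^ 2 + 2 * g.s 3 * g.t 1 + g.t 1 ^ 3 = 0 := by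
    field_simp at r
    linear_combination r
  refine ⟨t2', t3', t4', hs2, by rw [hs1]; ring, hs4, ?_, ?_⟩
  · rw [hs1]
    linear_combination q'
  · apply mul_right_cancel₀ f0
    rw [hs1]
    linear_combination hr - (g.t 1 + 2) * q'

/-- type Dg: the two sequences are equal; main or D5. -/
structure Dg (g : GForm F 4) : Prop where
  e : ∀ i, i ≤ 4 → g.s i = g.t i
  c : (∀ i, i ≤ 4 → g.t i = g.t 1 ^ i) ∨
    ∀ X Y, g.XY X Y → D5X (g.t 1) (g.t 2) (g.t 3) (g.t 4) X Y

theorem dg_of {g : GForm F 4} (h : g.Closed) (hD : g.G 1 1 ≠ g.H 1 1)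
    (h1 : g.t 1 = g.s 1) (h2 : g.t 2 = g.s 2) : Dg g := by
  obtain ⟨X, Y, hx⟩ := g.exists_XY (by omega)
  obtain ⟨⟨e3, e4⟩, -⟩ := n5_diag h hD h1 h2 hx
  refine ⟨?_, ?_⟩
  · intro i hi
    interval_cases i
    · rw [g.t0, g.s0]
    · exact h1.symm
    · exact h2.symm
    · exact e3
    · exact e4
  · by_cases hm : g.t 2 = g.t 1 ^ 2 ∧ g.t 3 = g.t 1 ^ 3 ∧ g.t 4 = g.t 1 ^ 4
    · left
      intro i hi
      interval_cases i
      · rw [g.t0, pow_zero]
      · rw [pow_one]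
      · exact hm.1
      · exact hm.2.1
      · exact hm.2.2
    · right
      intro X Y hx
      obtain ⟨-, h3 | ⟨p1, p2, p3, p4⟩⟩ := n5_diag h hD h1 h2 hx
      · exact absurd h3 hm
      · exact ⟨p1, p2, by rw [Q5] at p3; exact p3, by rw [R5] at p4; exact p4⟩

theorem dg_of_e {g : GForm F 4} (h : g.Closed) (e : ∀ i, i ≤ 4 → g.s i = g.t i) : Dg g := by
  by_cases hD : g.G 1 1 = g.H 1 1
  · refine ⟨e, Or.inr ?_⟩
    intro X Y hx
    exact n5_z_diag h hD (e 1 (by omega)) (e 2 (by omega)) (e 3 (by omega)) (e 4 (by omega)) hx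
  · exact dg_of h hD (e 1 (by omega)).symm (e 2 (by omega)).symm

theorem n5_elim_ne {g : GForm F 4} (h : g.Closed) (hD : g.G 1 1 ≠ g.H 1 1) :
    Dg g ∨ D5s g ∨ W5 g := by
  rcases Pool.Agent.Helper14.IP.level2 g (by omega) hD with
    ⟨l1, l2⟩ | ⟨l1, l2, l3⟩ | ⟨l1, l2, l3⟩
  · exact Or.inl (dg_of h hD l2 l1)
  · exfalso
    obtain ⟨X, Y, hx⟩ := g.exists_XY (by omega)
    refine n5_c3_dead h hx l1 l2 ?_
    have t1 := g.t_sub_one (k := 1) (by omega) (by omega)
    apply mul_left_cancel₀ t1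
    linear_combination l3 - (g.t 2 - 1) * g.t 2 * hx.x - (g.t 2 - 1) * hx.y
  · exact Or.inr (n5_n h hD l1 l2 l3)

theorem d5s_rev_e {g : GForm F 4} (h : g.Closed) (d : D5s g) :
    ∀ i, i ≤ 4 → (g.rev h).s i = (g.rev h).t i := by
  intro i hi
  have e := d i hi
  have t0 := g.t_ne i hi
  have s4 := g.s_ne 4 (by omega)
  simp only [GForm.rev_s, GForm.rev_t]
  field_simp
  linear_combination e

theorem e_of_rev {g : GForm F 4} {h : g.Closed} (d : D5s (g.rev h)) :
    ∀ i, i ≤ 4 → g.s i = g.t i := by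
  intro i hi
  have e := d i hi
  have t0 := g.t_ne i hi
  have s4 := g.s_ne 4 (by omega)
  simp only [GForm.rev_s, GForm.rev_t, Nat.sub_self, g.s0, Nat.sub_sub_self hi] at e
  field_simp at e
  exact e

/-- **the pairs of dimension 5**: `Dg` (main or D5), the reversal of `Dg`, or W5. -/
theorem n5_elim {g : GForm F 4} (h : g.Closed) : Dg g ∨ Dg (g.rev h) ∨ W5 g := by
  by_cases hD : g.G 1 1 = g.H 1 1
  · have hD' := Pool.Agent.Helper76.IP.z_rev_ne g h (by omega) hD
    rcases n5_elim_ne h.rev hD' with d | d | d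
    · exact Or.inr (Or.inl d)
    · exact Or.inl (dg_of_e h (e_of_rev d))
    · exact Or.inr (Or.inr (w5_of_rev d))
  · rcases n5_elim_ne h hD with d | d | d
    · exact Or.inl d
    · exact Or.inr (Or.inl (dg_of_e h.rev (d5s_rev_e h d)))
    · exact Or.inr (Or.inr d)

end Pool.Agent.Helper82.IP
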