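import Pool.Agent.Helper82.IP.T1Alg

/-!
TH-P, N branch, state (11)/(11): the scalar conclusion of level 3.
-/

namespace Pool.Agent.Helper82.IP

variable {F : Type*} [Field F]

theorem t1_level3 {a b c e S T X Y l l' u u' : F}
    (ha : a ≠ 0) (hb : b ≠ 0) (hc : c ≠ 0) (he : e ≠ 0) (hX0 : X ≠ 0)
    (hc1 : c - 1 ≠ 0) (he1 : e - 1 ≠ 0)
    (hca : c - a ≠ 0) (heb : e - b ≠ 0) (hce : c ≠ e)
    (hS1 : S - 1 ≠ 0) (hSe : S - e ≠ 0)
    (hT1 : T - 1 ≠ 0) (hTa : T - a ≠ 0) (hTc : T - c ≠ 0)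
    (hl0 : l ≠ 0)
    (hS : S * a = b * c) (hT : T * b = a * e)
    (hN1 : (e * a - c) * (X - Y + 1) = (e - 1) * (a * c * X - Y))
    (hN2 : (c * b - e) * (X - Y + 1) = (c - 1) * (b * e * X - Y))
    (hK2 : (e - 1) * (e * X + Y) - e ≠ 0) (hK2' : (c - 1) * (c * X + Y) - c ≠ 0)
    (hl : l * (a * ((e - 1) * (e * X + Y) - e)) =
      e * X * (S - 1) + a * (e - 1) * Y - (a + 1) * e)
    (hl' : l' * (b * ((c - 1) * (c * X + Y) - c)) =
      c * X * (T - 1) + b * (c - 1) * Y - (b + 1) * c)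
    (hu : u * ((e - 1) * (e * X + Y) - e) * S =
      e * (S * X * (e - 1) + a * (S - 1) * Y - (a + 1) * S))
    (hu' : u' * ((c - 1) * (c * X + Y) - c) * T =
      c * (T * X * (c - 1) + b * (T - 1) * Y - (b + 1) * T))
    (hM : S * X * (e - 1) + a * (S - 1) * Y - (a + 1) * S =
      c * (e * X * (S - 1) + a * (e - 1) * Y - (a + 1) * e))
    (hM' : T * X * (c - 1) + b * (T - 1) * Y - (b + 1) * T =
      e * (c * X * (T - 1) + b * (c - 1) * Y - (b + 1) * c))
    (hdg : l * ((T - 1) * (T - a) * (T - c)) * ((e - 1) * (e - b)) =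
      l' * ((S - 1) * (S - b) * (S - e)) * ((c - 1) * (c - a)))
    (hdh : u * ((T - 1) * (T - a) * (T - c)) * ((e - 1) * (e - b)) * (S ^ 3 * c) =
      u' * ((S - 1) * (S - b) * (S - e)) * ((c - 1) * (c - a)) * (T ^ 3 * e))
    (hD : a * b * X + Y ≠ 0)
    (hK3 : (S - 1) * (S * X + a * Y) ≠ (a + 1) * S) :
    ∃ w : F, w ^ 2 + w + 1 = 0 ∧ w - 1 ≠ 0 ∧ a = -w * b ∧ c = -b ∧ e = w * b ∧
      w * b ^ 2 = 2 * (1 - w) * b + 1 := by
  have hL3 : c * (a * e - b) * (X - a * Y + a + 1) = (c - 1) * (b * c * e * X - a ^ 2 * Y) := by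
    linear_combination (a) * hM + (X * (1 - e) - a * Y + (a + 1) + c * e * X) * hS
  have hL4 : e * (b * c - a) * (X - b * Y + b + 1) = (e - 1) * (a * e * c * X - b ^ 2 * Y) := by
    linear_combination (b) * hM' + (X * (1 - c) - b * Y + (b + 1) + e * c * X) * hT
  have hPQ : b * c - a * e ≠ 0 := by
    intro h
    apply hSe
    apply mul_right_cancel₀ ha
    linear_combination hS + h
  have hB : l * (a ^ 2 * ((e - 1) * (e * X + Y) - e)) * (c - 1) =
      -((b * c - a * e) * (X - a * Y + a + 1)) := by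
    linear_combination a * (c - 1) * hl - hL3 + (c - 1) * e * X * hS
  have hB' : l' * (b ^ 2 * ((c - 1) * (c * X + Y) - c)) * (e - 1) =
      (b * c - a * e) * (X - b * Y + b + 1) := by
    linear_combination b * (e - 1) * hl' - hL4 + (e - 1) * c * X * hT
  have hcube := t1_cube ha hb hc he (T := T) (S := S) (by
      rintro rfl
      rw [zero_mul] at hT
      exact mul_ne_zero ha he hT.symm) (by
      rintro rfl
      rw [zero_mul] at hS
      exact mul_ne_zero hb hc hS.symm) hK2 hK2' hS hT hl hl' hu hu' hM hM' hdg hdh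
    (mul_ne_zero (mul_ne_zero hl0 (mul_ne_zero (mul_ne_zero hT1 hTa) hTc)) (mul_ne_zero he1 heb))
  have hquad : (b * c) ^ 2 + (b * c) * (a * e) + (a * e) ^ 2 = 0 := by
    apply (mul_eq_zero.1 _).resolve_left hPQ
    linear_combination hcube
  obtain ⟨w, hw⟩ : ∃ w, b * c = w * (a * e) := ⟨b * c / (a * e), by field_simp⟩
  have hae : a * e ≠ 0 := mul_ne_zero ha he
  have hww : w ^ 2 + w + 1 = 0 := by
    have : (a * e) ^ 2 * (w ^ 2 + w + 1) = 0 := by
      linear_combination hquad - (b * c + w * (a * e) + a * e) * hw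
    exact (mul_eq_zero.1 this).resolve_left (pow_ne_zero _ hae)
  have hw3 : w ^ 3 = 1 := by linear_combination (w - 1) * hww
  have hw0 : w ≠ 0 := by
    rintro rfl
    norm_num at hww
  have hw1 : w - 1 ≠ 0 := by
    intro h
    apply hPQ
    linear_combination hw + a * e * h
  rcases t1_I_all hc he hce hN1 hN2 with hI | ⟨hbe, hW⟩
  swap
  · exact (hK3 (t1_exc ha hb hc hc1 he1 hS hD hbe hW hN1 hL3)).elim
  have hBne : X - a * Y + a + 1 ≠ 0 := by
    intro h
    rw [h, mul_zero, neg_zero] at hB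
    exact mul_ne_zero (mul_ne_zero hl0 (mul_ne_zero (pow_ne_zero _ ha) hK2)) hc1 hB
  have hG := t1_gG ha hb hK2 hK2' hc1 he1 hS hT hB hB' hdg hI
    (mul_ne_zero (mul_ne_zero (mul_ne_zero he1 heb) hK2') hBne) hPQ
  obtain ⟨r, hr⟩ : ∃ r, e = w * (r * b) := ⟨w ^ 2 * e / b, by
    field_simp
    linear_combination (-1 : F) * hw3⟩
  have hr0 : r ≠ 0 := by
    rintro rfl
    apply he
    rw [hr]
    ring
  have hcr : c = w ^ 2 * (r * a) := by
    apply mul_left_cancel₀ hb
    linear_combination hw + w * a * hr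
  subst hr hcr
  have hR := t1_R ha hb hr0 hww hw1 hG
  have hwr : ∀ z : F, w ^ 2 * z - 1 = w ^ 2 * (z - w) := by
    intro z
    linear_combination hw3
  have hwr' : ∀ z : F, w * z - 1 = w * (z - w ^ 2) := by
    intro z
    linear_combination hw3
  have hSv : S = w ^ 2 * (r * b) := by
    apply mul_right_cancel₀ ha
    linear_combination hS
  have hTv : T = w * (r * a) := by
    apply mul_right_cancel₀ hb
    linear_combination hT
  subst hSv hTv
  have core := t1_core (A := r * a) (B := r * b) (r := r) (w := w) (X := X) (Y := Y) hww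
    (mul_ne_zero hr0 ha) (mul_ne_zero hr0 hb) hr0 hX0 ?_ ?_ ?_ ?_ ?_ ?_ ?_ ?_ ?_ ?_ ?_ ?_
  · obtain ⟨h1, h2⟩ := core
    subst h1
    rw [one_mul, one_mul] at h2
    refine ⟨w, hww, hw1, h2, ?_, ?_, ?_⟩
    · rw [h2]
      linear_combination (-b) * hw3
    · ring
    · rw [h2] at hR
      linear_combination -hR
  · intro h
    apply hc1
    rw [hwr, h, mul_zero]
  · intro h
    apply he1
    rw [hwr', h, mul_zero]
  · intro h
    apply hS1
    rw [hwr, h, mul_zero]
  · intro h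
    apply hca
    linear_combination (a * w ^ 2) * h + a * hw3
  · intro h
    apply heb
    linear_combination (b * w) * h + b * hw3
  · linear_combination r * hR
  · linear_combination (r * w ^ 2) * hN1
      + (-(r ^ 2 * a * (b - w) * (X - Y + 1)) + r * b * (w ^ 2 * (r * a) ^ 2 * X - r * Y)) * hw3
  · linear_combination (r * w) * hN2
      + (-(r ^ 2 * b * a * (X - Y + 1)) + r * a * (w * (r * b) ^ 2 * X - r * Y)) * hw3
  · apply mul_left_cancel₀ (mul_ne_zero hr0 ha)
    linear_combination (r ^ 2 * w) * hL3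
      + (-((r * a) ^ 2 * (r * b) * w * (r * X - (r * a) * Y + r * a + r))
        + (r * a) * ((r * a - w) * (r * (r * b) ^ 2 * X)
          + (r * a) * (r * (r * b) ^ 2 * X - (r * a) * Y)
          + (r * a) * (w ^ 3 - 1) * (r * (r * b) ^ 2 * X))) * hw3
  · apply mul_left_cancel₀ (mul_ne_zero hr0 hb)
    linear_combination (r ^ 2 * w ^ 2) * hL4
      + (-((r * a) * (r * b) ^ 2 * w ^ 2 * (r * X - (r * b) * Y + r * b + r))
        + (r * b) * ((r * b - w ^ 2) * (r * (r * a) ^ 2 * X)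
          + (r * b) * (r * (r * a) ^ 2 * X - (r * b) * Y)
          + (r * b) * (w ^ 3 - 1) * (r * (r * a) ^ 2 * X))) * hw3
  · intro h
    apply hD
    apply (mul_eq_zero.1 _).resolve_left (pow_ne_zero 2 hr0)
    linear_combination h
  · intro h
    apply hK3
    apply mul_left_cancel₀ hr0
    linear_combination h

end Pool.Agent.Helper82.IP
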