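import Pool.Agent.Helper82.IP.T1Alg

/-!
TH-P, N branch, state (11)/(11): the special family `a = -w b, c = -b, e = w b,
w b^2 = 2 (1 - w) b + 1` has no exceptional degenerate column 4.
-/

namespace Pool.Agent.Helper82.IP

variable {F : Type*} [Field F]

theorem t1_special_a {b w X Y : F} (hw : w ^ 2 + w + 1 = 0)
    (hrel : w * b ^ 2 = 2 * (1 - w) * b + 1)
    (hC : ((-w * b) ^ 2 - 1) * (X + Y) = (-w * b) ^ 2 + (-w * b) + 1)
    (h3 : X - (-w * b) ^ 3 * Y + (-w * b) ^ 3 + (-w * b) ^ 2 + (-w * b) + 1 = 0)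
    (hE : (-b - 1) * (1 + (-w * b - 1) * X * ((-w * b) ^ 2 - 1)) =
      (-b - -w * b) * ((-w * b) ^ 3 - (-w * b) ^ 2 * (-w * b - 1) * Y)) :
    (2 : F) ^ 1 * 3 ^ 3 = 0 := by
  linear_combination (- 78*b^2*w + 109*b^2 + 44*b*w + 628*b + 127*w + 259) * hC + (108*b^2*w
    + 501*b^2 + 1056*b*w + 1464*b - 363*w - 525) * h3 + (- 240*b*w - 372*b - 1110*w - 924) * hE
    + (132*b^3*w^2*X + 111*b^3*w^2*Y - 111*b^3*w^2 - 240*b^3*w*X + 294*b^2*w^2*Y - 294*b^2*w^2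
    - 343*b^2*w*X + 485*b^2*w*Y - 374*b^2*w - 480*b^2*X + 1120*b*w^2*X + 826*b*w^2*Y -
    586*b*w^2 + 1096*b*w*X + 772*b*w*Y - 238*b*w + 622*b*X + 970*b*Y - 356*b - 1257*w^2*X -
    1779*w^2*Y + 1662*w^2 - 637*w*X - 1906*w*Y + 2282*w - 1117*X - 2038*Y + 1748) * hrel + (-
    240*b^5*w^3*Y + 240*b^5*w^3 + 240*b^5*w^2*X - 1110*b^4*w^3*Y + 1110*b^4*w^3 +
    1350*b^4*w^2*X - 240*b^4*w^2 + 1110*b^3*w^2*X - 747*b^3*w^2*Y - 363*b^3*w^2 - 960*b^3*X +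
    2049*b^2*Y - 1476*b^2 + 2514*b*w*X + 3558*b*w*Y - 3324*b*w - 3744*b*X - 2478*b*Y + 1008*b -
    1257*X - 1779*Y + 1662) * hw

theorem t1_special_b {b w X Y : F} (hw : w ^ 2 + w + 1 = 0)
    (hrel : w * b ^ 2 = 2 * (1 - w) * b + 1)
    (hC : ((-w * b) ^ 2 - 1) * (X + Y) = (-w * b) ^ 2 + (-w * b) + 1)
    (h3 : X - (-w * b) ^ 3 * Y + (-w * b) ^ 3 + (-w * b) ^ 2 + (-w * b) + 1 = 0)
    (hE : (-b - 1) * (1 - (-w * b - 1) * (X + Y)) =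
      (-b - -w * b) * ((-w * b) ^ 3 - (-w * b) ^ 2 * (-w * b - 1) * Y)) :
    (2 : F) ^ 0 * 3 ^ 5 = 0 := by
  linear_combination (995*b^2 + 1567*b*w + 3152*b - 1309*w - 1282) * hC + (- 675*b^2*w -
    870*b^2 - 3036*b*w - 2184*b - 924*w - 384) * h3 + (690*b*w + 705*b + 2523*w + 1320) * hE +
    (- 525*b^3*w^2*Y + 525*b^3*w^2 - 594*b^2*w^2*Y + 594*b^2*w^2 - 995*b^2*w*X - 2750*b^2*w*Y +
    2225*b^2*w - 1567*b*w^2*X - 4645*b*w^2*Y + 3955*b*w^2 - 472*b*w*X - 3442*b*w*Y + 2848*b*w -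
    1285*b*X - 4795*b*Y + 2585*b + 4443*w^2*X + 10599*w^2*Y - 8295*w^2 + 2305*w*X + 9385*w*Y -
    10433*w + 4021*X + 10561*Y - 8960) * hrel + (690*b^5*w^3*Y - 690*b^5*w^3 + 2523*b^4*w^3*Y -
    2523*b^4*w^3 + 690*b^4*w^2 + 3447*b^3*w^2*Y - 924*b^3*w^2 - 7890*b^2*Y + 7740*b^2 -
    8886*b*w*X - 21198*b*w*Y + 16590*b*w + 14118*b*X + 21504*b*Y - 7974*b + 4443*X + 10599*Y -
    8295) * hw

theorem t1_special {b w X Y v : F} (hw : w ^ 2 + w + 1 = 0) (hw1 : w - 1 ≠ 0) (hb : b ≠ 0)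
    (hrel : w * b ^ 2 = 2 * (1 - w) * b + 1)
    (hS1 : w ^ 2 * b - 1 ≠ 0) (hT1 : -w ^ 2 * b - 1 ≠ 0) (ha1 : -w * b - 1 ≠ 0)
    (hN2 : (-b * b - w * b) * (X - Y + 1) = (-b - 1) * (b * (w * b) * X - Y))
    (hk : (v - 1) * (X * v + (-w * b) ^ 2 * Y) = ((-w * b) ^ 2 + (-w * b) + 1) * v)
    (hE1 : (-b - 1) * (1 + (-w * b - 1) * X * (v - 1)) =
      (-b - -w * b) * ((-w * b) ^ 3 - (-w * b) ^ 2 * (-w * b - 1) * Y))
    (hE2 : -w * b * ((-b - 1) * (1 + (-w * b - 1) * X * (v - 1))) =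
      (-b - -w * b) * (1 - (-w * b - 1) * X)) : False := by
  have hw3 : w ^ 3 = 1 := by linear_combination (w - 1) * hw
  have h30 : (3 : F) ≠ 0 := by
    intro h
    apply pow_ne_zero 2 hw1
    linear_combination hw - w * h
  have h20 : (2 : F) ≠ 0 := by
    intro h
    have h1 : (w ^ 2 * b - 1) * (-w ^ 2 * b - 1) = 0 := by
      linear_combination (-w ^ 3) * hrel - w ^ 3 * (1 - w) * b * h + (-1 : F) * hw3
    rcases mul_eq_zero.1 h1 with h | h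
    · exact hS1 h
    · exact hT1 h
  have hC : ((-w * b) ^ 2 - 1) * (X + Y) = (-w * b) ^ 2 + (-w * b) + 1 := by
    linear_combination (b + w + 3) * hN2 + (- b^2*X + b*w*Y - b*w - b*X + b*Y - b - w*Y + X -
      2*Y + 1) * hrel + (- b^3*X - b^3*Y + b^3 + b^2 + b*X + b*Y + b) * hw
  have h3 : X - (-w * b) ^ 3 * Y + (-w * b) ^ 3 + (-w * b) ^ 2 + (-w * b) + 1 = 0 := by
    have : (b * (w - 1)) * ((-w * b - 1) *
        (X - (-w * b) ^ 3 * Y + (-w * b) ^ 3 + (-w * b) ^ 2 + (-w * b) + 1)) = 0 := by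
      linear_combination (w * b) * hE1 + hE2
    exact (mul_eq_zero.1 ((mul_eq_zero.1 this).resolve_left (mul_ne_zero hb hw1))).resolve_left ha1
  have hv : (v - (-w * b) ^ 2) * (X * v + Y) = 0 := by
    linear_combination hk - v * hC
  rcases mul_eq_zero.1 hv with h | h
  · have hv' : v = (-w * b) ^ 2 := sub_eq_zero.1 h
    rw [hv'] at hE1
    exact mul_ne_zero (pow_ne_zero _ h20) (pow_ne_zero _ h30) (t1_special_a hw hrel hC h3 hE1)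
  · refine mul_ne_zero (pow_ne_zero _ h20) (pow_ne_zero _ h30) (t1_special_b hw hrel hC h3 ?_)
    linear_combination hE1 - (-b - 1) * (-w * b - 1) * h

end Pool.Agent.Helper82.IP
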