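import Pool.Agent.Helper82.IP.NSetup
import Pool.Agent.Helper82.IP.T1Level3
import Pool.Agent.Helper82.IP.T1Special
import Pool.Agent.Helper27.IP.Type0
import Pool.Agent.Helper36.IP.Corner

/-!
TH-P, N branch: the state (11)/(11) is impossible.
-/

namespace Pool.Agent.Helper82.IP

open Pool.Agent.Helper54.IP

variable {F : Type*} [Field F] {m : ℕ} (g : GForm F m)

/-- `b x + x' ≠ 0`. -/
theorem d11_ne (hm : 1 ≤ m) (hD : g.G 1 1 ≠ g.H 1 1) :
    g.s 1 * (1 - g.lam' 0) + g.mu' 0 ≠ 0 := by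
  intro h
  apply hD
  have hs := g.s_ne 1 hm
  have h1 := g.row1G (k := 1) hm hm
  have h2 := g.row1H (k := 1) hm hm
  apply mul_left_cancel₀ hs
  linear_combination g.s 1 * h1 - h2 + (g.s 1 - 1) * h

/-- type 1 at step 1, multiplicative form. -/
theorem ns_mult1 (hm : 2 ≤ m) (hD : g.G 1 1 ≠ g.H 1 1)
    (hn1 : (g.s 2 * g.t 1 - g.t 2) * ((1 - g.lam' 0) - g.t 1 * g.mu' 0 + g.t 1 - 1) =
        (g.s 2 - 1) * (g.t 1 * g.t 2 * (1 - g.lam' 0) - g.t 1 * g.mu' 0)) :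
    g.mu' 1 * g.t 2 = (1 - g.lam' 1) * (g.t 1 * g.s 1 * g.s 2) := by
  have h1 := Pool.Agent.Helper36.IP.al_eq g hm
  have h2 := Pool.Agent.Helper36.IP.de_eq g hm
  have ht := t_sub_one g (k := 1) (by omega) (by omega)
  have hd := d11_ne g (by omega) hD
  apply mul_left_cancel₀ (mul_ne_zero ht hd)
  linear_combination h2 - g.t 1 * g.s 1 * g.s 2 * h1 + g.s 1 * hn1

/-- `D_1^(2) ≠ 0`. -/
theorem d12_ne (hm : 2 ≤ m) (hD : g.G 1 1 ≠ g.H 1 1) :
    g.G 1 2 - g.t 1 ^ 2 * g.H 1 2 ≠ 0 := by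
  have h := g.D_succ (j := 1) (k := 1) (by omega) (by omega)
  rw [GForm.D] at h
  rw [h]
  refine mul_ne_zero (sub_ne_zero.2 (g.lm_ne 1 (by omega)).symm) ?_
  rw [GForm.kap, pow_one, ← mul_sub]
  exact mul_ne_zero (g.t_ne 1 (by omega)) (sub_ne_zero.2 hD)

/-- `D_1^(3) ≠ 0`. -/
theorem d13_ne (hm : 3 ≤ m) (hk : g.kap 1 2 ≠ 0) :
    g.G 1 3 - g.t 1 ^ 3 * g.H 1 3 ≠ 0 := by
  have h := g.D_succ (j := 1) (k := 2) (by omega) (by omega)
  rw [GForm.D] at h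
  rw [h]
  exact mul_ne_zero (sub_ne_zero.2 (g.lm_ne 2 (by omega)).symm) hk

/-- from the two multiplicative relations: the letter 1. -/
theorem ns_letter1 (hm : 3 ≤ m) (hD : g.G 1 1 ≠ g.H 1 1)
    (hn1 : (g.s 2 * g.t 1 - g.t 2) * ((1 - g.lam' 0) - g.t 1 * g.mu' 0 + g.t 1 - 1) =
        (g.s 2 - 1) * (g.t 1 * g.t 2 * (1 - g.lam' 0) - g.t 1 * g.mu' 0))
    (hv : (1 - g.lam' 1) * (g.s 2 * g.s 3 * g.t 1 ^ 2) = g.mu' 1 * g.t 2 ^ 2) :
    g.s 3 * g.t 1 = g.s 1 * g.t 2 := by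
  have h1 := ns_mult1 g (by omega) hD hn1
  have ht := g.t_ne 1 (by omega)
  have hs := g.s_ne 2 (by omega)
  have hl := sub_ne_zero.2 (g.lam'_ne 1 (by omega)).symm
  apply mul_left_cancel₀ (mul_ne_zero hl (mul_ne_zero hs ht))
  linear_combination hv + g.t 2 * h1

/-- the additive type 1 relation at step 2. -/
theorem ns_add {g : GForm F m} {X Y : F} (hm : 3 ≤ m) (hX : (1 - g.lam' 0) = (g.t 1 - 1) * X)
    (hY : g.t 1 * g.mu' 0 = (g.t 1 - 1) * Y)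
    (hf : g.s 2 * (g.t 1 ^ 2 * g.H 1 2 - g.G 1 (2 + 1)) * g.t 2 =
      g.s (2 + 1) * (g.t 1 ^ 2 * g.H 1 (2 + 1) - g.G 1 2)) :
    g.s 3 * X * (g.s 2 - 1) + g.t 1 * (g.s 3 - 1) * Y - (g.t 1 + 1) * g.s 3 =
      g.t 2 * (g.s 2 * X * (g.s 3 - 1) + g.t 1 * (g.s 2 - 1) * Y - (g.t 1 + 1) * g.s 2) := by
  have ht := t_sub_one g (k := 1) (by omega) (by omega)
  have a2 := G1k (by omega) hX (k := 2) (by omega)
  have a3 := G1k (by omega) hX (k := 3) hm
  have b2 := H1k (by omega) hY (k := 2) (by omega)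
  have b3 := H1k (by omega) hY (k := 3) hm
  norm_num at hf
  apply mul_left_cancel₀ ht
  linear_combination hf - g.t 2 * g.t 1 * b2 + g.t 2 * g.s 2 * a3 + g.t 1 * b3 - g.s 3 * a2

theorem n_1111 (hm : 5 ≤ m) (hD : g.G 1 1 ≠ g.H 1 1) (h2 : g.t 2 ≠ g.s 2)
    (hn1 : (g.s 2 * g.t 1 - g.t 2) * ((1 - g.lam' 0) - g.t 1 * g.mu' 0 + g.t 1 - 1) =
        (g.s 2 - 1) * (g.t 1 * g.t 2 * (1 - g.lam' 0) - g.t 1 * g.mu' 0))
    (hn2 : (g.t 2 * g.s 1 - g.s 2) * ((1 - g.lam' 0) - g.t 1 * g.mu' 0 + g.t 1 - 1) =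
        (g.t 2 - 1) * (g.s 1 * g.s 2 * (1 - g.lam' 0) - g.t 1 * g.mu' 0))
    (hk : g.kap 1 2 ≠ 0) (hk' : g.swap.kap 1 2 ≠ 0) (hk3 : g.kap 1 3 ≠ 0)
    (hf : g.s 2 * (g.t 1 ^ 2 * g.H 1 2 - g.G 1 (2 + 1)) * g.t 2 =
      g.s (2 + 1) * (g.t 1 ^ 2 * g.H 1 (2 + 1) - g.G 1 2))
    (hv : (1 - g.lam' 1) * (g.s 2 * g.s (2 + 1) * g.t 1 ^ 2) = g.mu' 1 * g.t 2 ^ 2)
    (hf' : g.swap.s 2 * (g.swap.t 1 ^ 2 * g.swap.H 1 2 - g.swap.G 1 (2 + 1)) * g.swap.t 2 =
      g.swap.s (2 + 1) * (g.swap.t 1 ^ 2 * g.swap.H 1 (2 + 1) - g.swap.G 1 2))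
    (h3' : g.t 3 * g.s 1 = g.t 1 * g.s 2) : False := by
  obtain ⟨X, Y, hX, hY, hX', hY'⟩ := xy_exists g (by omega)
  have ha := g.t_ne 1 (by omega)
  have hb := g.s_ne 1 (by omega)
  have hc := g.t_ne 2 (by omega)
  have he := g.s_ne 2 (by omega)
  have ha1 := t_sub_one g (k := 1) (by omega) (by omega)
  have hb1 := s_sub_one g (k := 1) (by omega) (by omega)
  have h3 := ns_letter1 g (by omega) hD hn1 hv
  have hX0 : X ≠ 0 := by
    rintro rfl
    exact sub_ne_zero.2 (g.lam'_ne 0 (by omega)).symm (by rw [hX, mul_zero])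
  have hN1 : (g.s 2 * g.t 1 - g.t 2) * (X - Y + 1) = (g.s 2 - 1) * (g.t 1 * g.t 2 * X - Y) := by
    apply mul_left_cancel₀ ha1
    linear_combination hn1 + (-(g.s 2 * g.t 1 - g.t 2) + (g.s 2 - 1) * (g.t 1 * g.t 2)) * hX
      + ((g.s 2 * g.t 1 - g.t 2) - (g.s 2 - 1)) * hY
  have hN2 : (g.t 2 * g.s 1 - g.s 2) * (X - Y + 1) = (g.t 2 - 1) * (g.s 1 * g.s 2 * X - Y) := by
    apply mul_left_cancel₀ ha1
    linear_combination hn2 + (-(g.t 2 * g.s 1 - g.s 2) + (g.t 2 - 1) * (g.s 1 * g.s 2)) * hX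
      + ((g.t 2 * g.s 1 - g.s 2) - (g.t 2 - 1)) * hY
  have hK2 : (g.s 2 - 1) * (g.s 2 * X + Y) - g.s 2 ≠ 0 := by
    intro h
    have := kap2_eq (by omega) hX hY
    rw [h, mul_zero] at this
    exact mul_ne_zero he hk this
  have hK2' : (g.t 2 - 1) * (g.t 2 * X + Y) - g.t 2 ≠ 0 := by
    intro h
    have := kap2_eq (g := g.swap) (by omega) hX' hY'
    simp only [GForm.swap_s, GForm.swap_t] at this
    rw [h, mul_zero] at this
    exact mul_ne_zero hc hk' this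
  have hDX : g.t 1 * g.s 1 * X + Y ≠ 0 := by
    intro h
    refine mul_ne_zero ha (d11_ne g (by omega) hD) ?_
    linear_combination g.t 1 * g.s 1 * hX + hY + (g.t 1 - 1) * h
  have hK3 : (g.s 3 - 1) * (g.s 3 * X + g.t 1 * Y) ≠ (g.t 1 + 1) * g.s 3 := by
    intro h
    apply hk3
    have a3 := G1k (by omega) hX (k := 3) (by omega)
    have b3 := H1k (by omega) hY (k := 3) (by omega)
    have hs3 := g.s_ne 3 (by omega)
    rw [GForm.kap]
    apply (mul_eq_zero.1 _).resolve_left hs3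
    linear_combination g.t 1 * g.s 3 * a3 - g.t 1 ^ 2 * b3 + g.t 1 * (g.t 1 - 1) * h
  have l2 := lam2_eq (by omega) hX hY
  have l2' := lam2_eq (g := g.swap) (by omega) hX' hY'
  have u2 := mu2_eq (by omega) hX hY
  have u2' := mu2_eq (g := g.swap) (by omega) hX' hY'
  have hM := ns_add (by omega) hX hY hf
  have hM' := ns_add (g := g.swap) (by omega) hX' hY' hf'
  have hdg := Pool.Agent.Helper14.IP.dg2 g (by omega)
  have hdh := Pool.Agent.Helper14.IP.dh2 g (by omega)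
  simp only [GForm.swap_s, GForm.swap_t, GForm.swap_lam, GForm.swap_mu] at l2' u2' hM'
  have t12 : g.t 1 ≠ g.t 2 := g.t_inj 1 2 (by omega) (by omega)
  have s12 : g.s 1 ≠ g.s 2 := g.s_inj 1 2 (by omega) (by omega)
  have t13 : g.t 1 ≠ g.t 3 := g.t_inj 1 3 (by omega) (by omega)
  have t23 : g.t 2 ≠ g.t 3 := g.t_inj 2 3 (by omega) (by omega)
  have s23 : g.s 2 ≠ g.s 3 := g.s_inj 2 3 (by omega) (by omega)
  obtain ⟨w, hw, hw1, hat, hct, het, hrel⟩ := t1_level3 (a := g.t 1) (b := g.s 1) (c := g.t 2)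
    (e := g.s 2) (S := g.s 3) (T := g.t 3) (X := X) (Y := Y) (l := 1 - g.lam 2)
    (l' := 1 - g.lam' 2) (u := g.mu 2) (u' := g.mu' 2) ha hb hc he hX0
    (t_sub_one g (by omega) (by omega)) (s_sub_one g (by omega) (by omega))
    (sub_ne_zero.2 t12.symm) (sub_ne_zero.2 s12.symm) h2
    (s_sub_one g (by omega) (by omega)) (sub_ne_zero.2 s23.symm)
    (t_sub_one g (by omega) (by omega)) (sub_ne_zero.2 t13.symm) (sub_ne_zero.2 t23.symm)
    (sub_ne_zero.2 (g.lam_ne 2 (by omega)).symm)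
    (by linear_combination h3) (by linear_combination h3') hN1 hN2 hK2 hK2' l2 l2' u2 u2' hM hM'
    hdg hdh hDX hK3
  -- level 4
  have hw0 : w ≠ 0 := by
    rintro rfl
    norm_num at hw
  have hw3 : w ^ 3 = 1 := by linear_combination (w - 1) * hw
  have hS3 : g.s 3 = w ^ 2 * g.s 1 := by
    apply mul_left_cancel₀ hw0
    apply mul_left_cancel₀ hb
    rw [hat, hct] at h3
    linear_combination -h3 - g.s 1 ^ 2 * hw3
  have hT3 : g.t 3 = -w ^ 2 * g.s 1 := by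
    apply mul_right_cancel₀ hb
    rw [hat, het] at h3'
    linear_combination h3'
  have s24 : g.s 2 ≠ g.s 4 := g.s_inj 2 4 (by omega) (by omega)
  have s14 : g.s 1 ≠ g.s 4 := g.s_inj 1 4 (by omega) (by omega)
  have no0 : ¬ (g.s 3 * g.t 2 = g.t 1 * g.s 4) := by
    intro h
    apply s24
    rw [hS3, hct, hat] at h
    apply mul_left_cancel₀ (mul_ne_zero hw0 hb)
    rw [het]
    linear_combination -h
  have hl1 := sub_ne_zero.2 (g.lam'_ne 1 (by omega)).symm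
  have hk4 : g.t 1 ^ 3 * g.H 1 4 = g.G 1 4 := by
    rcases Pool.Agent.Helper43.IPL.local_flat2 g (by omega) 3 (by omega) with
      h | h | h | h | ⟨-, h⟩
    · exact (d13_ne g (by omega) hk h).elim
    · refine (hk3 ?_).elim
      rw [GForm.kap]
      linear_combination -h
    · exact sub_eq_zero.1 h
    · exact (no0 h).elim
    · exfalso
      apply s14
      have h5 : (1 - g.lam' 1) * (g.s 3 * g.t 1 ^ 2 * (g.s 4 * g.t 1)) =
          (1 - g.lam' 1) * (g.s 3 * g.t 1 ^ 2 * (g.s 2 * g.t 2)) := by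
        linear_combination h - g.t 2 * hv
      have h6 := mul_left_cancel₀ hl1 h5
      have h7 := mul_left_cancel₀ (mul_ne_zero (g.s_ne 3 (by omega)) (pow_ne_zero _ ha)) h6
      rw [hat, hct, het] at h7
      apply mul_left_cancel₀ (mul_ne_zero hw0 hb)
      linear_combination h7
  have hat1 : g.t 1 ≠ -1 := by
    intro h
    have hwb : w * g.s 1 = 1 := by linear_combination hat - h
    apply hw1
    linear_combination w * hrel - (w * g.s 1 + 1) * hwb + 2 * (1 - w) * hwb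
  rcases Pool.Agent.Helper43.IPL.deg_flat g (by omega) 3 (by omega) hk4 with h | ⟨e1, e2⟩
  · refine no0 (Pool.Agent.Helper27.IP.closed_type0 g (k := 3) (by omega) ?_ ?_ hat1)
    · rw [GForm.kap]
      linear_combination (-g.t 1) * hk4
    · rw [GForm.kap]
      linear_combination (-g.t 2) * h
  · have a4 := G1k (by omega) hX (k := 4) (by omega)
    have b4 := H1k (by omega) hY (k := 4) (by omega)
    have hs4 := g.s_ne 4 (by omega)
    have k1 : (g.s 4 - 1) * (X * g.s 4 + g.t 1 ^ 2 * Y) = (g.t 1 ^ 2 + g.t 1 + 1) * g.s 4 := by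
      apply mul_left_cancel₀ ha1
      linear_combination g.t 1 ^ 2 * b4 - g.s 4 * a4 - g.s 4 * hk4
    have k2 : (g.t 2 - 1) * (1 + (g.t 1 - 1) * X * (g.s 4 - 1)) =
        (g.t 2 - g.t 1) * (g.t 1 ^ 3 - g.t 1 ^ 2 * (g.t 1 - 1) * Y) := by
      linear_combination e1 - (g.t 2 - 1) * a4 - (g.t 2 - g.t 1) * g.t 1 ^ 2 * hY
    have k3 : g.t 1 * ((g.t 2 - 1) * (1 + (g.t 1 - 1) * X * (g.s 4 - 1))) =
        (g.t 2 - g.t 1) * (1 - (g.t 1 - 1) * X) := by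
      linear_combination e2 - g.t 1 * (g.t 2 - 1) * a4 - (g.t 2 - g.t 1) * hX
    have s30 := s_sub_one g (k := 3) (by omega) (by omega)
    have t30 := t_sub_one g (k := 3) (by omega) (by omega)
    rw [hS3] at s30
    rw [hT3] at t30
    rw [hat] at ha1
    rw [hct, het] at hN2
    rw [hat] at k1
    rw [hct, hat] at k2 k3
    exact t1_special hw hw1 hb hrel s30 t30 ha1 hN2 k1 k2 k3

end Pool.Agent.Helper82.IP
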