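import Mathlib

/-!
TH-P, N branch, state (11)/(11): scalar lemmas.
Variables: `w` a primitive cube root of unity, `A = r a`, `B = r b`, `c = w^2 A`, `e = w B`,
`X, Y` as in `NSetup`.
-/

namespace Pool.Agent.Helper82.IP

variable {F : Type*} [Field F]

theorem t1_I {a b c e X Y : F} (hne : b * e - a * c ≠ 0)
    (hN1 : (e * a - c) * (X - Y + 1) = (e - 1) * (a * c * X - Y))
    (hN2 : (c * b - e) * (X - Y + 1) = (c - 1) * (b * e * X - Y)) :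
    (c - 1) * (c - a) * ((e - 1) * (e * X + Y) - e) * (X - b * Y + b + 1) =
      (e - 1) * (e - b) * ((c - 1) * (c * X + Y) - c) * (X - a * Y + a + 1) := by
  apply mul_left_cancel₀ hne
  linear_combination (- a*b*c^2*Y + a*b*c^2 + a*b*c*X + a*b*c + a*c^2*e*Y - a*c^2*e -
    a*c*e*X - a*c*e + b^2*c*e*Y - b^2*c*e - b^2*e*X - b^2*e - b*c*e^2*Y + b*c*e^2 + b*e^2*X +
    b*e^2) * hN1 + (a^2*c*e*Y - a^2*c*e - a^2*c*X - a^2*c - a*b*e^2*Y + a*b*e^2 + a*b*e*X +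
    a*b*e - a*c^2*e*Y + a*c^2*e + a*c^2*X + a*c^2 + b*c*e^2*Y - b*c*e^2 - b*c*e*X - b*c*e) *
    hN2

theorem t1_Ik {c e k X Y : F} (hk : k * (c + e - c * e) = c + e - 1)
    (hN1 : (k * e * e - c) * (X - Y + 1) = (e - 1) * (k * c * e * X - Y)) :
    (c - 1) * (c - k * e) * ((e - 1) * (e * X + Y) - e) * (X - k * c * Y + k * c + 1) =
      (e - 1) * (e - k * c) * ((c - 1) * (c * X + Y) - c) * (X - k * e * Y + k * e + 1) := by
  linear_combination (- c^2*e*k*X^2 + c^2*e*k*X*Y - 2*c^2*e*k*X - c^2*X*Y + c^2*X + c^2*Y^2 -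
    2*c^2*Y + c^2 - c*e^2*k*X*Y + c*e^2*k*X + 2*c*e*k*X^2 - c*e*k*X*Y + 3*c*e*k*X - c*e*k*Y +
    c*e*k + c*e*X*Y - c*e*X - c*e*Y^2 + 2*c*e*Y - c*e - c*X^2 + 2*c*X*Y - 2*c*X - c*Y^2 + 3*c*Y
    - c + e*Y^2 - e*Y - X*Y - Y) * hk + (c^2*k*X + c^2*k + c^2*Y - c^2 - c*e*Y + c*e -
    2*c*k*X - 2*c*k + c*X - c*Y + 2*c + e*X + e*Y - X - 1) * hN1

/-- the key identity, or the exceptional component `be = ac`, `W = 0`. -/
theorem t1_I_all {a b c e X Y : F} (hc : c ≠ 0) (he : e ≠ 0) (hce : c ≠ e)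
    (hN1 : (e * a - c) * (X - Y + 1) = (e - 1) * (a * c * X - Y))
    (hN2 : (c * b - e) * (X - Y + 1) = (c - 1) * (b * e * X - Y)) :
    (c - 1) * (c - a) * ((e - 1) * (e * X + Y) - e) * (X - b * Y + b + 1) =
      (e - 1) * (e - b) * ((c - 1) * (c * X + Y) - c) * (X - a * Y + a + 1) ∨
    (b * e = a * c ∧ X - Y + 1 = 0) := by
  by_cases hne : b * e - a * c = 0
  · by_cases hW : X - Y + 1 = 0
    · exact Or.inr ⟨sub_eq_zero.1 hne, hW⟩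
    left
    obtain ⟨k, hk⟩ : ∃ k, a = k * e := ⟨a / e, by field_simp⟩
    have hb : b = k * c := by
      apply mul_left_cancel₀ he
      linear_combination hne + c * hk
    subst hk hb
    refine t1_Ik ?_ (by linear_combination hN1)
    have h := mul_eq_zero.1 (show (X - Y + 1) * ((c - e) * (k * (c + e - c * e) - (c + e - 1))) = 0 by
      linear_combination (c - 1) * hN1 - (e - 1) * hN2)
    exact sub_eq_zero.1 ((mul_eq_zero.1 (h.resolve_left hW)).resolve_left (sub_ne_zero.2 hce))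
  · exact Or.inl (t1_I hne hN1 hN2)

/-- the exceptional component dies: there `kap_1^(3) = 0`. -/
theorem t1_exc {a b c e S X Y : F} (ha : a ≠ 0) (hb : b ≠ 0) (hc : c ≠ 0) (hc1 : c - 1 ≠ 0)
    (he1 : e - 1 ≠ 0)
    (hS : S * a = b * c) (hD : a * b * X + Y ≠ 0)
    (hbe : b * e = a * c) (hW : X - Y + 1 = 0)
    (hN1 : (e * a - c) * (X - Y + 1) = (e - 1) * (a * c * X - Y))
    (hL3 : c * (a * e - b) * (X - a * Y + a + 1) = (c - 1) * (b * c * e * X - a ^ 2 * Y)) :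
    (S - 1) * (S * X + a * Y) = (a + 1) * S := by
  have hY : Y = a * c * X := by
    rw [hW, mul_zero] at hN1
    exact (sub_eq_zero.1 ((mul_eq_zero.1 hN1.symm).resolve_left he1)).symm
  subst hY
  have hX : X ≠ 0 := by
    rintro rfl
    exact hD (by ring)
  have h1 : (a * c - 1) * X = 1 := by linear_combination -hW
  have h2 : (c - 1) * (c * (X * (a * ((b + c) * (a ^ 2 - b))))) = 0 := by
    linear_combination b * hL3 + b * c * (a * e - b) * (a + 1) * h1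
      - c * (c - 1) * X * (a ^ 2 - b) * hbe
  have hbc : b + c ≠ 0 := by
    intro h
    exact hD (by linear_combination a * X * h)
  have h3 : a ^ 2 - b = 0 := by
    have := (mul_eq_zero.1 h2).resolve_left hc1
    have := (mul_eq_zero.1 this).resolve_left hc
    have := (mul_eq_zero.1 this).resolve_left hX
    have := (mul_eq_zero.1 this).resolve_left ha
    exact (mul_eq_zero.1 this).resolve_left hbc
  have h4 : S = a * c := by
    apply mul_right_cancel₀ ha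
    linear_combination hS - c * h3
  subst h4
  linear_combination (a * c * (a + 1)) * h1

/-- `P^3 = Q^3`. -/
theorem t1_cube {a b c e S T l l' u u' A A' M M' K K' : F} (ha : a ≠ 0) (hb : b ≠ 0)
    (hc : c ≠ 0) (he : e ≠ 0) (hT0 : T ≠ 0) (hS0 : S ≠ 0) (hK : K ≠ 0) (hK' : K' ≠ 0)
    (hS : S * a = b * c) (hT : T * b = a * e)
    (hl : l * (a * K) = A) (hl' : l' * (b * K') = A')
    (hu : u * K * S = e * M) (hu' : u' * K' * T = c * M')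
    (hM : M = c * A) (hM' : M' = e * A')
    (hdg : l * ((T - 1) * (T - a) * (T - c)) * ((e - 1) * (e - b)) =
      l' * ((S - 1) * (S - b) * (S - e)) * ((c - 1) * (c - a)))
    (hdh : u * ((T - 1) * (T - a) * (T - c)) * ((e - 1) * (e - b)) * (S ^ 3 * c) =
      u' * ((S - 1) * (S - b) * (S - e)) * ((c - 1) * (c - a)) * (T ^ 3 * e))
    (hne : l * ((T - 1) * (T - a) * (T - c)) * ((e - 1) * (e - b)) ≠ 0) :
    (b * c) ^ 3 = (a * e) ^ 3 := by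
  have h1 : u * b = a ^ 2 * e * l := by
    have : c * K * (u * b) = c * K * (a ^ 2 * e * l) := by
      linear_combination a * hu + a * e * hM - a * e * c * hl - u * K * hS
    exact mul_left_cancel₀ (mul_ne_zero hc hK) this
  have h2 : u' * a = b ^ 2 * c * l' := by
    have : e * K' * (u' * a) = e * K' * (b ^ 2 * c * l') := by
      linear_combination b * hu' + b * c * hM' - b * c * e * hl' - u' * K' * hT
    exact mul_left_cancel₀ (mul_ne_zero he hK') this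
  have h3 : (c * e) * ((l * ((T - 1) * (T - a) * (T - c)) * ((e - 1) * (e - b))) *
      ((S * a) ^ 3 - (T * b) ^ 3)) = 0 := by
    linear_combination a * b * hdh
      - (a * (((T - 1) * (T - a) * (T - c)) * ((e - 1) * (e - b))) * S ^ 3 * c) * h1
      + (b * (((S - 1) * (S - b) * (S - e)) * ((c - 1) * (c - a))) * T ^ 3 * e) * h2
      - (b ^ 3 * c * e * T ^ 3) * hdg
  rw [hS, hT] at h3
  have h4 := (mul_eq_zero.1 h3).resolve_left (mul_ne_zero hc he)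
  exact sub_eq_zero.1 ((mul_eq_zero.1 h4).resolve_left hne)

/-- `F(P) = F(Q)`. -/
theorem t1_gG {a b c e S T l l' K K' B B' : F} (ha : a ≠ 0) (hb : b ≠ 0)
    (hK : K ≠ 0) (hK' : K' ≠ 0) (hc1 : c - 1 ≠ 0) (he1 : e - 1 ≠ 0)
    (hS : S * a = b * c) (hT : T * b = a * e)
    (hB : l * (a ^ 2 * K) * (c - 1) = -((b * c - a * e) * B))
    (hB' : l' * (b ^ 2 * K') * (e - 1) = (b * c - a * e) * B')
    (hdg : l * ((T - 1) * (T - a) * (T - c)) * ((e - 1) * (e - b)) =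
      l' * ((S - 1) * (S - b) * (S - e)) * ((c - 1) * (c - a)))
    (hI : (c - 1) * (c - a) * K * B' = (e - 1) * (e - b) * K' * B)
    (hZ : (e - 1) * (e - b) * K' * B ≠ 0) (hPQ : b * c - a * e ≠ 0) :
    a ^ 2 * (e - 1) * (a * e - b) * (e - b) = b ^ 2 * (c - 1) * (b * c - a) * (c - a) := by
  have t1 : (T - 1) * b = a * e - b := by linear_combination hT
  have t2 : (T - a) * b = a * (e - b) := by linear_combination hT
  have t3 : (T - c) * b = a * e - b * c := by linear_combination hT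
  have s1 : (S - 1) * a = b * c - a := by linear_combination hS
  have s2 : (S - b) * a = b * (c - a) := by linear_combination hS
  have s3 : (S - e) * a = b * c - a * e := by linear_combination hS
  have h : l * (((T - 1) * b) * ((T - a) * b) * ((T - c) * b)) * ((e - 1) * (e - b)) * a ^ 3 =
      l' * (((S - 1) * a) * ((S - b) * a) * ((S - e) * a)) * ((c - 1) * (c - a)) * b ^ 3 := by
    linear_combination (a ^ 3 * b ^ 3) * hdg
  rw [t1, t2, t3, s1, s2, s3] at h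
  have h1 : (b * c - a * e) * (l * (a ^ 4 * ((a * e - b) * (e - b) ^ 2 * (e - 1))) +
      l' * (b ^ 4 * ((b * c - a) * (c - a) ^ 2 * (c - 1)))) = 0 := by
    linear_combination -h
  have h2 := (mul_eq_zero.1 h1).resolve_left hPQ
  have h3 : (b * c - a * e) * (((e - 1) * (e - b) * K' * B) *
      (a ^ 2 * (e - 1) * (a * e - b) * (e - b) - b ^ 2 * (c - 1) * (b * c - a) * (c - a))) = 0 := by
    linear_combination (-(K * K' * (c - 1) * (e - 1))) * h2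
      + (a ^ 2 * K' * ((a * e - b) * (e - b) ^ 2 * (e - 1) ^ 2)) * hB
      + (b ^ 2 * K * ((b * c - a) * (c - a) ^ 2 * (c - 1) ^ 2)) * hB'
      + ((b * c - a * e) * (b ^ 2 * (c - 1) * (b * c - a) * (c - a))) * hI
  have h4 := (mul_eq_zero.1 h3).resolve_left hPQ
  exact sub_eq_zero.1 ((mul_eq_zero.1 h4).resolve_left hZ)

/-- the relation between `a, b, r`. -/
theorem t1_R {a b r w : F} (ha : a ≠ 0) (hb : b ≠ 0) (hr : r ≠ 0) (hw : w ^ 2 + w + 1 = 0)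
    (hw1 : w - 1 ≠ 0)
    (h : a ^ 2 * (w * (r * b) - 1) * (a * (w * (r * b)) - b) * (w * (r * b) - b) =
      b ^ 2 * (w ^ 2 * (r * a) - 1) * (b * (w ^ 2 * (r * a)) - a) * (w ^ 2 * (r * a) - a)) :
    r * (a * b + a + b) + (a + b + 1) = 0 := by
  have hw0 : w ≠ 0 := by
    rintro rfl
    norm_num at hw
  have h1 : (a ^ 2 * b ^ 2 * r * w * (w - 1)) * (r * (a * b + a + b) + (a + b + 1)) = 0 := by
    linear_combination (-1) * h + (- a^3*b^3*r^3*w^4 + a^3*b^3*r^3*w^3 + a^3*b^3*r^2*w^2 - a^3*b^3*r^2*w + a^3*b^2*r^2*w^2 - a^3*b^2*r^2*w + a^2*b^3*r^2*w^2 - a^2*b^3*r^2*w) * hw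
  exact (mul_eq_zero.1 h1).resolve_left (mul_ne_zero (mul_ne_zero (mul_ne_zero (mul_ne_zero
    (pow_ne_zero _ ha) (pow_ne_zero _ hb)) hr) hw0) hw1)


/-- the core of T1: only `r = 1, A = -w B` survives level 3. -/
theorem t1_core {A B r w X Y : F} (hw : w ^ 2 + w + 1 = 0)
    (hA : A ≠ 0) (hB : B ≠ 0) (hr : r ≠ 0) (hX : X ≠ 0)
    (hc1 : A - w ≠ 0) (he1 : B - w ^ 2 ≠ 0) (hS1 : B - w ≠ 0)
    (hca : r - w ≠ 0) (heb : r - w ^ 2 ≠ 0)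
    (hR : A * B + A + B + r * (A + B + 1) = 0)
    (hN1 : A * (B - w * r) * (X - Y + 1) = (B - w ^ 2) * (w ^ 2 * A ^ 2 * X - r * Y))
    (hN2 : B * (A - w ^ 2 * r) * (X - Y + 1) = (A - w) * (w * B ^ 2 * X - r * Y))
    (hL3 : w * B * (A - w ^ 2) * (r * X - A * Y + A + r) = (A - w) * (r * B ^ 2 * X - A * Y))
    (hL4 : w ^ 2 * A * (B - w) * (r * X - B * Y + B + r) = (B - w ^ 2) * (r * A ^ 2 * X - B * Y))
    (hD : A * B * X + r ^ 2 * Y ≠ 0)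
    (hK : (w ^ 2 * B - 1) * (w ^ 2 * B * r * X + A * Y) - (A + r) * (w ^ 2 * B) ≠ 0) :
    r = 1 ∧ A = -w * B := by
  have hw0 : w ≠ 0 := by
    rintro rfl
    norm_num at hw
  by_cases hF : A + w * B = 0
  · obtain rfl : A = -w * B := by linear_combination hF
    refine ⟨?_, rfl⟩
    have n2 : (B + w * r) * (X - Y + 1) * B = (B + 1) * (w * B ^ 2 * X - r * Y) := by
      linear_combination (w + 1) * hN2 + (- B^3*w*X - B^2*w*X + B^2*X - B^2*Y + B^2 + B*r*w*X -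
        B*r*w*Y + B*r*w + B*r*Y + r*Y) * hw
    have l3 : w * (B + w) * (r * X + w * B * Y - w * B + r) = (B + 1) * (r * B * X + w * Y) := by
      apply mul_left_cancel₀ hB
      linear_combination (w + 1) * hL3 + (- B^3*r*X + B^3*w^2*Y - B^3*w^2 + B^2*r*w*X + B^2*r*w
        - B^2*r*X + B^2*w^3*Y - B^2*w^3 - B^2*w*Y + B*r*w^2*X + B*r*w^2 - B*w*Y) * hw
    have l4 : (B - w) * (r * X - B * Y + B + r) + (B - w ^ 2) * (r * w ^ 2 * B * X - Y) = 0 := by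
      apply mul_left_cancel₀ hB
      rw [mul_zero]
      linear_combination (- 1) * hL4 + (B^3*w*Y - B^3*w - B^3*Y + B^3 - B^2*r*w*X - B^2*r*w +
        B^2*r*X + B^2*r - B^2*w^2*Y + B^2*w^2 + B^2*w*Y - B^2*w + B*r*w^2*X + B*r*w^2 - B*r*w*X -
        B*r*w) * hw
    have hk : (r - 1) * (w ^ 2 * (B - w) * (r * X - w ^ 2 * Y) - (r - w * B)) = 0 := by
      linear_combination (4*B^2*w*X + 6*B^2*X - B*r*X + 4*B*w*X - 4*B*w*Y + 4*B*w + 3*B*X -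
        2*B*Y + 2*B - r*w*X + 7*r*w*Y - r*w - 3*r*X + 6*r*Y - 3*r - Y) * hR + (- 4*B*w - 6*B -
        7*r*w - 6*r - 4*w - 3) * n2 + (B*w + 2*B + 2*r*w + w) * l3 + (B - r) * l4 + (-
        4*B^3*r*X - B^3*w*Y + B^3*w - 5*B^3*Y + 5*B^3 + B^2*r^2*X + B^2*r*w^2*X - B^2*r*w*X -
        2*B^2*r*w*Y + 2*B^2*r*w - B^2*r*X + B^2*r*Y + 4*B^2*r - B^2*w^2*Y + B^2*w^2 - 2*B^2*w*Y +
        2*B^2*w + B^2 - B*r^2*w^2*X + B*r^2*w*X + 5*B*r^2*X + 4*B*r^2 - 3*B*r*w^2*Y + 2*B*r*w^2 -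
        B*r*w*X + 3*B*r*w*Y - 3*B*r*w + 5*B*r*Y + B*r + B*w^2 - B*w + B*Y - 3*r^2*w*X - 2*r^2*w +
        3*r^2*X + 2*r^2 + r*w^3*Y - r*w^2*Y - r*w + 4*r*Y + r - w^3*Y + w^2*Y) * hw
    rcases mul_eq_zero.1 hk with h | h
    · exact sub_eq_zero.1 h
    · exfalso
      apply hK
      have h2 := congrArg (fun z => w ^ 2 * B * z) h
      simp only [mul_zero] at h2
      rw [← h2]
      linear_combination (B^2*w^4*Y - B^2*w^3*Y + B*r*w^3*X - B*r*w^2*X - B*w^5*Y + B*w^4*Y -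
        B*w^2*Y + B*w*Y) * hw
  · exfalso
    have hAB : (A + 1 + r) * (B + 1 + r) = (r - w) * (r - w ^ 2) := by
      linear_combination hR + (r - w + 1) * hw
    have hA1 : A + 1 + r ≠ 0 := by
      intro h
      rw [h, zero_mul] at hAB
      exact mul_ne_zero hca heb hAB.symm
    have hstar : (A + 1 + r) * ((B - w ^ 2) * ((A + w * B) * (A * B * X - r * Y))) = 0 := by
      linear_combination (A*r*w + A*w + r*w) * hN1 + (A*r - A*w) * hN2 + (A^2*B*X + A^2*w*X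
        + A^2*X + A*B^2*w*X - A*r*w*X + A*r*w*Y - A*r*w - A*r*X - A*r - B*r*w*Y + r*Y) * hR + (A^3*B*r*w*X - A^3*B*r*X + A^3*B*w*X - 2*A^3*B*X - A^3*r*w^3*X + A^3*r*w^2*X - A^3*r*X -
        A^3*w^3*X + A^3*w^2*X - A^3*X - A^2*B^2*w*X + A^2*B*r*w*X - 2*A^2*B*r*X - A^2*B*X +
        A^2*r^2*X - A^2*r^2*Y + A^2*r^2 - A^2*r*w^3*X + A^2*r*w^2*X + A^2*r - A*B^2*r*w*X +
        A*B*r^2*X - A*B*r^2*Y + A*B*r^2 - A*B*r*w*X + 2*A*B*r*w*Y - A*B*r*w + A*B*r*X - 2*A*B*r*Y +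
        A*B*r + A*r^2*w*Y + A*r^2*X - A*r^2*Y + A*r^2 + A*r*w*Y - A*r*Y + B*r^2*w*Y - B*r^2*Y +
        B*r*w*Y - B*r*Y + r^2*w*Y - r^2*Y) * hw
    have hY : A * B * X = r * Y := sub_eq_zero.1 ((mul_eq_zero.1 ((mul_eq_zero.1
      ((mul_eq_zero.1 hstar).resolve_left hA1)).resolve_left he1)).resolve_left hF)
    have hr1 : r + 1 ≠ 0 := by
      intro h
      exact hD (by linear_combination hY + r * Y * h)
    have hi : (B - w * r) * ((r - A * B) * X + r) = r * (B - w ^ 2) * (w ^ 2 * A - B) * X := by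
      apply mul_left_cancel₀ hA
      linear_combination (r) * hN1 + (- A*B + A*r*w + B*r + r*w + r) * hY + (- A*B*r*X + r^2*Y)
        * hw
    have hii : (B - w) * ((r ^ 2 - B * (A * B)) * X + r * (B + r)) =
        w * (B - w ^ 2) * (r ^ 2 * A - B ^ 2) * X := by
      apply mul_left_cancel₀ hA
      linear_combination (r*w) * hL4 + (- A*B^2 + A*B*w + B^2*w - B) * hY + (A*B^2*r*w*Y -
        A*B^2*r*w - A*B^2*r*Y + A*B^2*r - A*B^2*w*X + A*B^2*X - A*B*r^2*w*X - A*B*r^2*w + A*B*r^2*X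
        + A*B*r^2 - A*B*r*w^2*Y + A*B*r*w^2 + A*B*r*w*Y - A*B*r*w + A*r^2*w^2*X + A*r^2*w^2 -
        A*r^2*w*X - A*r^2*w + B*r*w*Y - B*r*Y) * hw
    have hiii : (A - w ^ 2) * ((r ^ 2 - A * (A * B)) * X + r * (A + r)) =
        w ^ 2 * (A - w) * (r ^ 2 * B - A ^ 2) * X := by
      apply mul_left_cancel₀ hB
      linear_combination (- r*w - r) * hL3 + (- A^2*B - A^2*w - A^2 - A*B*w - A*B - A) * hY + (A^3*B*X + A^2*B^2*X - A^2*B*r*Y + A^2*B*r - A^2*B*w*X + A^2*B*X - A*B^2*r^2*X + A*B*r^2*X +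
        A*B*r^2 + A*B*r*w^2*Y - A*B*r*w^2 - A*B*r*Y - A*r*Y + B^2*r^2*w*X - B*r^2*w^2*X -
        B*r^2*w^2) * hw
    by_cases hh : B - w * r = 0
    · have hBr : B = w * r := sub_eq_zero.1 hh
      subst hBr
      have hAr : A = w ^ 2 * r := by
        have : (r - w) * (A - w ^ 2 * r) = 0 := by
          linear_combination (- w) * hR + (A*r + r*w) * hw
        exact sub_eq_zero.1 ((mul_eq_zero.1 this).resolve_left hca)
      subst hAr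
      have hYr : Y = r * X := by
        apply mul_left_cancel₀ hr
        linear_combination -hY + r ^ 2 * X * (w - 1) * hw
      subst hYr
      have hr11 : r - 1 ≠ 0 := by
        intro h
        apply hS1
        linear_combination w * h
      have hx : X * (r - 1) - 1 = 0 := by
        have : r ^ 2 * ((r - 1) * (X * (r - 1) - 1)) = 0 := by
          linear_combination (w) * hL3 + (r^4*w^5*X - r^4*w^4*X + r^4*w^3*X - r^4*w*X + r^4*X -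
            r^3*w^5*X - r^3*w^5 + r^3*w^4*X + r^3*w^4 - 2*r^3*w^3*X - r^3*w^3 + 2*r^3*w*X + r^3*w -
            2*r^3*X - r^3 + r^2*w^5 - r^2*w^4 + r^2*w^3*X + r^2*w^3 - r^2*w*X - r^2*w + r^2*X + r^2) *
            hw
        exact (mul_eq_zero.1 ((mul_eq_zero.1 this).resolve_left (pow_ne_zero _ hr))).resolve_left
          hr11
      apply hK
      linear_combination (- r^2*w) * hx + (r^3*w^4*X - r^3*w^2*X + r^3*w*X - r^2*w^3 + r^2*w^2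
        - r^2*w*X - r^2*w) * hw
    have e12 : ((B - w * r) * (r - A * B) - r * (B - w ^ 2) * (w ^ 2 * A - B)) * ((B - w) * (B + r)) -
        ((B - w) * (r ^ 2 - B * (A * B)) - w * (B - w ^ 2) * (r ^ 2 * A - B ^ 2)) * (B - w * r) = 0 := by
      apply mul_left_cancel₀ hX
      rw [mul_zero]
      linear_combination ((B - w) * (B + r)) * hi - (B - w * r) * hii
    have e13 : ((B - w * r) * (r - A * B) - r * (B - w ^ 2) * (w ^ 2 * A - B)) *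
          ((A - w ^ 2) * (A + r)) -
        ((A - w ^ 2) * (r ^ 2 - A * (A * B)) - w ^ 2 * (A - w) * (r ^ 2 * B - A ^ 2)) * (B - w * r)
          = 0 := by
      apply mul_left_cancel₀ hX
      rw [mul_zero]
      linear_combination ((A - w ^ 2) * (A + r)) * hi - (B - w * r) * hiii
    have hfin : (B - w * r) ^ 2 * ((r + 1) * ((A - w) * (B + w ^ 2 * A) ^ 2)) = 0 := by
      linear_combination (- A^3*B*r*w - A^3*B*r - A^3*B*w - A^3*B - A^3*r*w - A^3*r - 2*A^2*B^2*r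
        - A^2*B^2 - A^2*B*r^2*w - A^2*B*r^2 - A^2*B*r + A^2*B*w + 2*A^2*r*w + 2*A^2*r + 3*A*B^3*r*w
        + 2*A*B^3*r + A*B^3 + 5*A*B^2*r^2*w + 4*A*B^2*r^2 + A*B^2*r*w + 2*A*B^2*r - A*B^2 +
        A*B*r^3*w + 3*A*B*r^3 + 2*A*B*r^2*w + 3*A*B*r^2 + 3*A*B*r + A*B + 2*A*r^3*w + A*r^3 +
        2*A*r^2 - A*r*w - A*r - B^4*r*w + B^4*r - 2*B^4*w - B^4 - B^3*r^2*w + B^3*r^2 - 4*B^3*r*w -
        B^3*r - B^3*w + B^3 - 5*B^2*r^2*w - B^2*r^2 - 6*B^2*r*w - 3*B^2*r - B^2 - B*r^3*w -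
        2*B*r^2*w - B*r^2 + 2*B*r*w) * hR + (- A^2*w - A^2 + A*B*w - A*B + A*r*w - A*r + A*w - A +
        B*r*w - B*r + B*w - B + r*w - r + 1) * e12 + (A*B + A*r + A - B^2*w + B*r + B + r - 1) *
        e13 + (A^4*B^2*r + A^4*B^2 + A^4*B*r^2 - A^4*B*r*w^2 + 3*A^4*B*r + A^4*B - A^4*r^2*w^2 +
        A^4*r^2 - A^4*r*w^2 + A^4*r - 2*A^3*B^3*r*w + A^3*B^3*r - A^3*B^3*w + A^3*B^3 -
        A^3*B^2*r^2*w + 4*A^3*B^2*r^2 + 2*A^3*B^2*r*w^3 + A^3*B^2*r*w^2 - 2*A^3*B^2*r*w +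
        5*A^3*B^2*r + A^3*B^2*w^2 - 2*A^3*B^2*w + 2*A^3*B^2 - A^3*B*r^3*w + A^3*B*r^3 -
        A^3*B*r^2*w^3 - A^3*B*r^2*w^2 + 3*A^3*B*r^2 - 3*A^3*B*r*w^3 + 2*A^3*B*r*w^2 - A^3*B*r*w -
        A^3*B*w + A^3*r^3*w^4 - A^3*r^3*w^2 + A^3*r^3*w + A^3*r^2*w^4 - 2*A^3*r^2*w^3 + A^3*r^2*w -
        A^3*r^2 + A^3*r*w^4 - A^3*r*w^3 + 2*A^3*r*w^2 - 2*A^3*r + A^2*B^4*r*w - 2*A^2*B^4*r -
        A^2*B^4 + A^2*B^3*r^2*w - 5*A^2*B^3*r^2 + A^2*B^3*r*w - 2*A^2*B^3*r + 2*A^2*B^3*w^2 -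
        A^2*B^3*w + A^2*B^3 + 3*A^2*B^2*r^3*w - 7*A^2*B^2*r^3 - A^2*B^2*r^2*w^3 - 7*A^2*B^2*r^2 -
        A^2*B^2*r*w^5 + 2*A^2*B^2*r*w^4 - 6*A^2*B^2*r*w^3 + 2*A^2*B^2*r*w^2 + A^2*B^2*r*w -
        3*A^2*B^2*r - A^2*B^2*w^3 + A^2*B^2*w^2 - A^2*B^2*w + 2*A^2*B*r^4*w - 3*A^2*B*r^4 -
        2*A^2*B*r^3*w^3 + 4*A^2*B*r^3*w^2 + 2*A^2*B*r^3*w - 6*A^2*B*r^3 + 6*A^2*B*r^2*w^4 -
        9*A^2*B*r^2*w^3 + 4*A^2*B*r^2*w^2 + 8*A^2*B*r^2*w - 10*A^2*B*r^2 + 4*A^2*B*r*w^4 -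
        5*A^2*B*r*w^3 + 2*A^2*B*r*w^2 + 2*A^2*B*r*w - 4*A^2*B*r + A^2*B*w - A^2*B - A^2*r^4*w^3 +
        2*A^2*r^4*w^2 - A^2*r^4*w - A^2*r^4 - A^2*r^3*w^5 + 3*A^2*r^3*w^4 - 4*A^2*r^3*w^3 +
        A^2*r^3*w^2 + 2*A^2*r^3*w - 3*A^2*r^3 - A^2*r^2*w^5 + 4*A^2*r^2*w^4 - 4*A^2*r^2*w^3 +
        2*A^2*r^2*w^2 + A^2*r^2*w - 3*A^2*r^2 - A^2*r*w^4 + A^2*r*w^3 - A^2*r*w^2 + A^2*r + A*B^5 +
        2*A*B^4*r^2*w - 3*A*B^4*r^2 + A*B^4*r*w - A*B^4*w^2 + 2*A*B^4*w - A*B^3*r^3*w^2 +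
        2*A*B^3*r^3*w - 5*A*B^3*r^3 - A*B^3*r^2*w^2 + 5*A*B^3*r^2*w - 7*A*B^3*r^2 + A*B^3*r*w^3 -
        4*A*B^3*r*w^2 + 3*A*B^3*r*w + 3*A*B^3*r - A*B^3*w^2 + A*B^3 + 2*A*B^2*r^4*w - 3*A*B^2*r^4 -
        A*B^2*r^3*w^3 + 8*A*B^2*r^3*w - 10*A*B^2*r^3 - A*B^2*r^2*w^5 + 2*A*B^2*r^2*w^4 -
        3*A*B^2*r^2*w^3 + A*B^2*r^2*w^2 + 8*A*B^2*r^2*w - 2*A*B^2*r^2 + A*B^2*r*w^4 - A*B^2*r*w^3 +
        A*B^2*r*w + A*B^2*r - A*B*r^4*w^3 + A*B*r^4*w^2 + 2*A*B*r^4*w - 4*A*B*r^4 + 2*A*B*r^3*w^4 -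
        7*A*B*r^3*w^3 + 3*A*B*r^3*w^2 + 4*A*B*r^3*w - 5*A*B*r^3 + 3*A*B*r^2*w^4 - 7*A*B*r^2*w^3 +
        A*B*r^2*w^2 + 4*A*B*r^2*w - 3*A*B*r^2 + A*B*r*w^3 - A*B*r*w - A*r^4*w^3 + 2*A*r^4*w^2 -
        A*r^4*w - A*r^4 + 2*A*r^3*w^4 - 3*A*r^3*w^3 + 2*A*r^3*w - 2*A*r^3 - A*r^2*w^4 + 2*A*r^2*w^3
        - A*r^2*w^2 + A*r^2 + B^5*r + B^5 - B^4*r^2*w^2 + 2*B^4*r^2 - B^4*r*w^2 + 2*B^4*r*w + B^4*r
        - B^4*w^2 + 2*B^4*w - B^4 + B^3*r^3*w^3 - B^3*r^3*w^2 + 2*B^3*r^3*w + B^3*r^3 +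
        2*B^3*r^2*w^3 - 4*B^3*r^2*w^2 + 5*B^3*r^2*w + 5*B^3*r^2 + B^3*r*w^3 - 4*B^3*r*w^2 +
        5*B^3*r*w + 2*B^3*r - B^3*w + B^3 - B^2*r^4*w^2 + B^2*r^4*w - 3*B^2*r^3*w^2 + 4*B^2*r^3*w +
        2*B^2*r^3 + B^2*r^2*w^3 - 5*B^2*r^2*w^2 + 3*B^2*r^2*w + 4*B^2*r^2 + B^2*r*w^2 - 2*B^2*r*w +
        B^2*r - B*r^4*w^2 + B*r^4*w - B*r^3*w^2 + B*r^3*w + B*r^3 + B*r^2*w^2 - 2*B*r^2*w) * hw
    have hF2 : B + w ^ 2 * A ≠ 0 := by
      intro h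
      apply hF
      linear_combination w * h - A * (w - 1) * hw
    exact mul_ne_zero (pow_ne_zero _ hh) (mul_ne_zero hr1 (mul_ne_zero hc1 (pow_ne_zero _ hF2)))
      hfin


end Pool.Agent.Helper82.IP
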